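/-! Access to lists. -/

namespace Pool.Agent.MP_48470b_gt.Dat

/-- entry of a list -/
noncomputable def nth {α : Type} (d : α) (l : List α) : Nat → α :=
  List.rec (fun _ => d) (fun a _ r n => Nat.rec a (fun m _ => r m) n) l

end Pool.Agent.MP_48470b_gt.Dat
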