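import Pool.Agent.MP_48470b_gt.Ck.TabX
import Pool.Agent.MP_48470b_gt.Dat.Nth

/-! From lists of numbers to records. -/

namespace Pool.Agent.MP_48470b_gt.Dat

/-- the tail of a list -/
noncomputable def tl {α : Type} (l : List α) : List α := List.rec [] (fun _ t _ => t) l
/-- a layer: three tables, then the entries -/
noncomputable def toL (l : List Nat) : Ms.Lay := ⟨tl (tl (tl l)), nth 0 l 0, nth 0 l 1, nth 0 l 2⟩
/-- the layers of a record -/
noncomputable def toB (r : List (List Nat)) : Ms.Box :=
  List.rec [] (fun a _ t => toL a :: t) (tl r)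
/-- the numbers in front of a record -/
noncomputable def hd (r : List (List Nat)) (n : Nat) : Nat := nth 0 (nth [] r 0) n
/-- a record -/
noncomputable def toR (r : List (List Nat)) : Ck.Rc := ⟨hd r 0, hd r 1, hd r 2, hd r 3, toB r⟩

end Pool.Agent.MP_48470b_gt.Dat
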