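import Pool.Agent.MP_48470b_gt.Dat.F0
import Pool.Agent.MP_48470b_gt.Dat.F1
import Pool.Agent.MP_48470b_gt.Dat.F2
import Pool.Agent.MP_48470b_gt.Dat.F3
import Pool.Agent.MP_48470b_gt.Dat.F4
import Pool.Agent.MP_48470b_gt.Dat.F5
import Pool.Agent.MP_48470b_gt.Dat.F6
import Pool.Agent.MP_48470b_gt.Dat.F7
import Pool.Agent.MP_48470b_gt.Dat.F8
import Pool.Agent.MP_48470b_gt.Dat.F9
import Pool.Agent.MP_48470b_gt.Dat.F10
import Pool.Agent.MP_48470b_gt.Dat.F11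
import Pool.Agent.MP_48470b_gt.Dat.F12
import Pool.Agent.MP_48470b_gt.Dat.F13
import Pool.Agent.MP_48470b_gt.Dat.F14
import Pool.Agent.MP_48470b_gt.Dat.F15
import Pool.Agent.MP_48470b_gt.Dat.F16
import Pool.Agent.MP_48470b_gt.Dat.F17
import Pool.Agent.MP_48470b_gt.Dat.F18
import Pool.Agent.MP_48470b_gt.Dat.F19
import Pool.Agent.MP_48470b_gt.Dat.F20
import Pool.Agent.MP_48470b_gt.Dat.F21
import Pool.Agent.MP_48470b_gt.Dat.F22
import Pool.Agent.MP_48470b_gt.Dat.F23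
import Pool.Agent.MP_48470b_gt.Dat.F24
import Pool.Agent.MP_48470b_gt.Dat.F25
import Pool.Agent.MP_48470b_gt.Dat.F26
import Pool.Agent.MP_48470b_gt.Dat.F27
import Pool.Agent.MP_48470b_gt.Dat.F28
import Pool.Agent.MP_48470b_gt.Dat.F29
import Pool.Agent.MP_48470b_gt.Dat.F30
import Pool.Agent.MP_48470b_gt.Dat.F31
import Pool.Agent.MP_48470b_gt.Dat.F32
import Pool.Agent.MP_48470b_gt.Dat.F33
import Pool.Agent.MP_48470b_gt.Dat.F34
import Pool.Agent.MP_48470b_gt.Dat.F35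
import Pool.Agent.MP_48470b_gt.Dat.F36
import Pool.Agent.MP_48470b_gt.Dat.F37
import Pool.Agent.MP_48470b_gt.Dat.F38
import Pool.Agent.MP_48470b_gt.Dat.F39
import Pool.Agent.MP_48470b_gt.Dat.F40
import Pool.Agent.MP_48470b_gt.Dat.F41
import Pool.Agent.MP_48470b_gt.Dat.F42
import Pool.Agent.MP_48470b_gt.Dat.F43
import Pool.Agent.MP_48470b_gt.Dat.F44
import Pool.Agent.MP_48470b_gt.Dat.F45
import Pool.Agent.MP_48470b_gt.Dat.F46
import Pool.Agent.MP_48470b_gt.Dat.F47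
import Pool.Agent.MP_48470b_gt.Dat.F48
import Pool.Agent.MP_48470b_gt.Dat.F49
import Pool.Agent.MP_48470b_gt.Dat.F50
import Pool.Agent.MP_48470b_gt.Dat.Nth

/-! The table of the records. -/

namespace Pool.Agent.MP_48470b_gt.Dat

noncomputable def f_0_0 : List (List (List Nat)) :=
 [f_0_0_0, f_0_0_1, f_0_0_2, f_0_0_3, f_0_0_4, f_0_0_5, f_0_0_6, f_0_0_7, f_0_0_8, f_0_0_9, f_0_0_10, f_0_0_11, f_0_0_12, f_0_0_13, f_0_0_14, f_0_0_15, f_0_0_16, f_0_0_17, f_0_0_18, f_0_0_19, f_0_0_20, f_0_0_21, f_0_0_22]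
noncomputable def f_0_1 : List (List (List Nat)) :=
 [f_0_1_1, f_0_1_2, f_0_1_3, f_0_1_4, f_0_1_5, f_0_1_6, f_0_1_7, f_0_1_8, f_0_1_9, f_0_1_10, f_0_1_11, f_0_1_12, f_0_1_13, f_0_1_14, f_0_1_15, f_0_1_16, f_0_1_17, f_0_1_18, f_0_1_19, f_0_1_20, f_0_1_21, f_0_1_22]
noncomputable def f_0_2 : List (List (List Nat)) :=
 [f_0_2_2, f_0_2_3, f_0_2_4, f_0_2_5, f_0_2_6, f_0_2_7, f_0_2_8, f_0_2_9, f_0_2_10, f_0_2_11, f_0_2_12, f_0_2_13, f_0_2_14, f_0_2_15, f_0_2_16, f_0_2_17, f_0_2_18, f_0_2_19, f_0_2_20, f_0_2_21, f_0_2_22]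
noncomputable def f_0_3 : List (List (List Nat)) :=
 [f_0_3_3, f_0_3_4, f_0_3_5, f_0_3_6, f_0_3_7, f_0_3_8, f_0_3_9, f_0_3_10, f_0_3_11, f_0_3_12, f_0_3_13, f_0_3_14, f_0_3_15, f_0_3_16, f_0_3_17, f_0_3_18, f_0_3_19, f_0_3_20, f_0_3_21, f_0_3_22]
noncomputable def f_0_4 : List (List (List Nat)) :=
 [f_0_4_4, f_0_4_5, f_0_4_6, f_0_4_7, f_0_4_8, f_0_4_9, f_0_4_10, f_0_4_11, f_0_4_12, f_0_4_13, f_0_4_14, f_0_4_15, f_0_4_16, f_0_4_17, f_0_4_18, f_0_4_19, f_0_4_20, f_0_4_21, f_0_4_22]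
noncomputable def f_0_5 : List (List (List Nat)) :=
 [f_0_5_5, f_0_5_6, f_0_5_7, f_0_5_8, f_0_5_9, f_0_5_10, f_0_5_11, f_0_5_12, f_0_5_13, f_0_5_14, f_0_5_15, f_0_5_16, f_0_5_17, f_0_5_18, f_0_5_19, f_0_5_20, f_0_5_21, f_0_5_22]
noncomputable def f_0_6 : List (List (List Nat)) :=
 [f_0_6_6, f_0_6_7, f_0_6_8, f_0_6_9, f_0_6_10, f_0_6_11, f_0_6_12, f_0_6_13, f_0_6_14, f_0_6_15, f_0_6_16, f_0_6_17, f_0_6_18, f_0_6_19, f_0_6_20, f_0_6_21, f_0_6_22]
noncomputable def f_0_7 : List (List (List Nat)) :=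
 [f_0_7_7, f_0_7_8, f_0_7_9, f_0_7_10, f_0_7_11, f_0_7_12, f_0_7_13, f_0_7_14, f_0_7_15, f_0_7_16, f_0_7_17, f_0_7_18, f_0_7_19, f_0_7_20, f_0_7_21, f_0_7_22]
noncomputable def f_0_8 : List (List (List Nat)) :=
 [f_0_8_8, f_0_8_9, f_0_8_10, f_0_8_11, f_0_8_12, f_0_8_13, f_0_8_14, f_0_8_15, f_0_8_16, f_0_8_17, f_0_8_18, f_0_8_19, f_0_8_20, f_0_8_21, f_0_8_22]
noncomputable def f_0_9 : List (List (List Nat)) :=
 [f_0_9_9, f_0_9_10, f_0_9_11, f_0_9_12, f_0_9_13, f_0_9_14, f_0_9_15, f_0_9_16, f_0_9_17, f_0_9_18, f_0_9_19, f_0_9_20, f_0_9_21, f_0_9_22]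
noncomputable def f_0_10 : List (List (List Nat)) :=
 [f_0_10_10, f_0_10_11, f_0_10_12, f_0_10_13, f_0_10_14, f_0_10_15, f_0_10_16, f_0_10_17, f_0_10_18, f_0_10_19, f_0_10_20, f_0_10_21, f_0_10_22]
noncomputable def f_0_11 : List (List (List Nat)) :=
 [f_0_11_11, f_0_11_12, f_0_11_13, f_0_11_14, f_0_11_15, f_0_11_16, f_0_11_17, f_0_11_18, f_0_11_19, f_0_11_20, f_0_11_21, f_0_11_22]
noncomputable def f_0_12 : List (List (List Nat)) :=
 [f_0_12_12, f_0_12_13, f_0_12_14, f_0_12_15, f_0_12_16, f_0_12_17, f_0_12_18, f_0_12_19, f_0_12_20, f_0_12_21, f_0_12_22]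
noncomputable def f_0_13 : List (List (List Nat)) :=
 [f_0_13_13, f_0_13_14, f_0_13_15, f_0_13_16, f_0_13_17, f_0_13_18, f_0_13_19, f_0_13_20, f_0_13_21, f_0_13_22]
noncomputable def f_0_14 : List (List (List Nat)) :=
 [f_0_14_14, f_0_14_15, f_0_14_16, f_0_14_17, f_0_14_18, f_0_14_19, f_0_14_20, f_0_14_21, f_0_14_22]
noncomputable def f_0_15 : List (List (List Nat)) :=
 [f_0_15_15, f_0_15_16, f_0_15_17, f_0_15_18, f_0_15_19, f_0_15_20, f_0_15_21, f_0_15_22]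
noncomputable def f_0_16 : List (List (List Nat)) :=
 [f_0_16_16, f_0_16_17, f_0_16_18, f_0_16_19, f_0_16_20, f_0_16_21, f_0_16_22]
noncomputable def f_0_17 : List (List (List Nat)) :=
 [f_0_17_17, f_0_17_18, f_0_17_19, f_0_17_20, f_0_17_21, f_0_17_22]
noncomputable def f_0_18 : List (List (List Nat)) :=
 [f_0_18_18, f_0_18_19, f_0_18_20, f_0_18_21, f_0_18_22]
noncomputable def f_0_19 : List (List (List Nat)) :=
 [f_0_19_19, f_0_19_20, f_0_19_21, f_0_19_22]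
noncomputable def f_0_20 : List (List (List Nat)) :=
 [f_0_20_20, f_0_20_21, f_0_20_22]
noncomputable def f_0_21 : List (List (List Nat)) :=
 [f_0_21_21, f_0_21_22]
noncomputable def f_0_22 : List (List (List Nat)) :=
 [f_0_22_22]
noncomputable def f_0 : List (List (List (List Nat))) :=
 [f_0_0, f_0_1, f_0_2, f_0_3, f_0_4, f_0_5, f_0_6, f_0_7, f_0_8, f_0_9, f_0_10, f_0_11, f_0_12, f_0_13, f_0_14, f_0_15, f_0_16, f_0_17, f_0_18, f_0_19, f_0_20, f_0_21, f_0_22]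
noncomputable def f_1_1 : List (List (List Nat)) :=
 [f_1_1_1, f_1_1_2, f_1_1_3, f_1_1_4, f_1_1_5, f_1_1_6, f_1_1_7, f_1_1_8, f_1_1_9, f_1_1_10, f_1_1_11, f_1_1_12, f_1_1_13, f_1_1_14, f_1_1_15, f_1_1_16, f_1_1_17, f_1_1_18, f_1_1_19, f_1_1_20, f_1_1_21, f_1_1_22]
noncomputable def f_1_2 : List (List (List Nat)) :=
 [f_1_2_2, f_1_2_3, f_1_2_4, f_1_2_5, f_1_2_6, f_1_2_7, f_1_2_8, f_1_2_9, f_1_2_10, f_1_2_11, f_1_2_12, f_1_2_13, f_1_2_14, f_1_2_15, f_1_2_16, f_1_2_17, f_1_2_18, f_1_2_19, f_1_2_20, f_1_2_21, f_1_2_22]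
noncomputable def f_1_3 : List (List (List Nat)) :=
 [f_1_3_3, f_1_3_4, f_1_3_5, f_1_3_6, f_1_3_7, f_1_3_8, f_1_3_9, f_1_3_10, f_1_3_11, f_1_3_12, f_1_3_13, f_1_3_14, f_1_3_15, f_1_3_16, f_1_3_17, f_1_3_18, f_1_3_19, f_1_3_20, f_1_3_21, f_1_3_22]
noncomputable def f_1_4 : List (List (List Nat)) :=
 [f_1_4_4, f_1_4_5, f_1_4_6, f_1_4_7, f_1_4_8, f_1_4_9, f_1_4_10, f_1_4_11, f_1_4_12, f_1_4_13, f_1_4_14, f_1_4_15, f_1_4_16, f_1_4_17, f_1_4_18, f_1_4_19, f_1_4_20, f_1_4_21, f_1_4_22]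
noncomputable def f_1_5 : List (List (List Nat)) :=
 [f_1_5_5, f_1_5_6, f_1_5_7, f_1_5_8, f_1_5_9, f_1_5_10, f_1_5_11, f_1_5_12, f_1_5_13, f_1_5_14, f_1_5_15, f_1_5_16, f_1_5_17, f_1_5_18, f_1_5_19, f_1_5_20, f_1_5_21, f_1_5_22]
noncomputable def f_1_6 : List (List (List Nat)) :=
 [f_1_6_6, f_1_6_7, f_1_6_8, f_1_6_9, f_1_6_10, f_1_6_11, f_1_6_12, f_1_6_13, f_1_6_14, f_1_6_15, f_1_6_16, f_1_6_17, f_1_6_18, f_1_6_19, f_1_6_20, f_1_6_21, f_1_6_22]
noncomputable def f_1_7 : List (List (List Nat)) :=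
 [f_1_7_7, f_1_7_8, f_1_7_9, f_1_7_10, f_1_7_11, f_1_7_12, f_1_7_13, f_1_7_14, f_1_7_15, f_1_7_16, f_1_7_17, f_1_7_18, f_1_7_19, f_1_7_20, f_1_7_21, f_1_7_22]
noncomputable def f_1_8 : List (List (List Nat)) :=
 [f_1_8_8, f_1_8_9, f_1_8_10, f_1_8_11, f_1_8_12, f_1_8_13, f_1_8_14, f_1_8_15, f_1_8_16, f_1_8_17, f_1_8_18, f_1_8_19, f_1_8_20, f_1_8_21, f_1_8_22]
noncomputable def f_1_9 : List (List (List Nat)) :=
 [f_1_9_9, f_1_9_10, f_1_9_11, f_1_9_12, f_1_9_13, f_1_9_14, f_1_9_15, f_1_9_16, f_1_9_17, f_1_9_18, f_1_9_19, f_1_9_20, f_1_9_21, f_1_9_22]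
noncomputable def f_1_10 : List (List (List Nat)) :=
 [f_1_10_10, f_1_10_11, f_1_10_12, f_1_10_13, f_1_10_14, f_1_10_15, f_1_10_16, f_1_10_17, f_1_10_18, f_1_10_19, f_1_10_20, f_1_10_21, f_1_10_22]
noncomputable def f_1_11 : List (List (List Nat)) :=
 [f_1_11_11, f_1_11_12, f_1_11_13, f_1_11_14, f_1_11_15, f_1_11_16, f_1_11_17, f_1_11_18, f_1_11_19, f_1_11_20, f_1_11_21, f_1_11_22]
noncomputable def f_1_12 : List (List (List Nat)) :=
 [f_1_12_12, f_1_12_13, f_1_12_14, f_1_12_15, f_1_12_16, f_1_12_17, f_1_12_18, f_1_12_19, f_1_12_20, f_1_12_21, f_1_12_22]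
noncomputable def f_1_13 : List (List (List Nat)) :=
 [f_1_13_13, f_1_13_14, f_1_13_15, f_1_13_16, f_1_13_17, f_1_13_18, f_1_13_19, f_1_13_20, f_1_13_21, f_1_13_22]
noncomputable def f_1_14 : List (List (List Nat)) :=
 [f_1_14_14, f_1_14_15, f_1_14_16, f_1_14_17, f_1_14_18, f_1_14_19, f_1_14_20, f_1_14_21, f_1_14_22]
noncomputable def f_1_15 : List (List (List Nat)) :=
 [f_1_15_15, f_1_15_16, f_1_15_17, f_1_15_18, f_1_15_19, f_1_15_20, f_1_15_21, f_1_15_22]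
noncomputable def f_1_16 : List (List (List Nat)) :=
 [f_1_16_16, f_1_16_17, f_1_16_18, f_1_16_19, f_1_16_20, f_1_16_21, f_1_16_22]
noncomputable def f_1_17 : List (List (List Nat)) :=
 [f_1_17_17, f_1_17_18, f_1_17_19, f_1_17_20, f_1_17_21, f_1_17_22]
noncomputable def f_1_18 : List (List (List Nat)) :=
 [f_1_18_18, f_1_18_19, f_1_18_20, f_1_18_21, f_1_18_22]
noncomputable def f_1_19 : List (List (List Nat)) :=
 [f_1_19_19, f_1_19_20, f_1_19_21, f_1_19_22]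
noncomputable def f_1_20 : List (List (List Nat)) :=
 [f_1_20_20, f_1_20_21, f_1_20_22]
noncomputable def f_1_21 : List (List (List Nat)) :=
 [f_1_21_21, f_1_21_22]
noncomputable def f_1_22 : List (List (List Nat)) :=
 [f_1_22_22]
noncomputable def f_1 : List (List (List (List Nat))) :=
 [f_1_1, f_1_2, f_1_3, f_1_4, f_1_5, f_1_6, f_1_7, f_1_8, f_1_9, f_1_10, f_1_11, f_1_12, f_1_13, f_1_14, f_1_15, f_1_16, f_1_17, f_1_18, f_1_19, f_1_20, f_1_21, f_1_22]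
noncomputable def f_2_2 : List (List (List Nat)) :=
 [f_2_2_2, f_2_2_3, f_2_2_4, f_2_2_5, f_2_2_6, f_2_2_7, f_2_2_8, f_2_2_9, f_2_2_10, f_2_2_11, f_2_2_12, f_2_2_13, f_2_2_14, f_2_2_15, f_2_2_16, f_2_2_17, f_2_2_18, f_2_2_19, f_2_2_20, f_2_2_21, f_2_2_22]
noncomputable def f_2_3 : List (List (List Nat)) :=
 [f_2_3_3, f_2_3_4, f_2_3_5, f_2_3_6, f_2_3_7, f_2_3_8, f_2_3_9, f_2_3_10, f_2_3_11, f_2_3_12, f_2_3_13, f_2_3_14, f_2_3_15, f_2_3_16, f_2_3_17, f_2_3_18, f_2_3_19, f_2_3_20, f_2_3_21, f_2_3_22]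
noncomputable def f_2_4 : List (List (List Nat)) :=
 [f_2_4_4, f_2_4_5, f_2_4_6, f_2_4_7, f_2_4_8, f_2_4_9, f_2_4_10, f_2_4_11, f_2_4_12, f_2_4_13, f_2_4_14, f_2_4_15, f_2_4_16, f_2_4_17, f_2_4_18, f_2_4_19, f_2_4_20, f_2_4_21, f_2_4_22]
noncomputable def f_2_5 : List (List (List Nat)) :=
 [f_2_5_5, f_2_5_6, f_2_5_7, f_2_5_8, f_2_5_9, f_2_5_10, f_2_5_11, f_2_5_12, f_2_5_13, f_2_5_14, f_2_5_15, f_2_5_16, f_2_5_17, f_2_5_18, f_2_5_19, f_2_5_20, f_2_5_21, f_2_5_22]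
noncomputable def f_2_6 : List (List (List Nat)) :=
 [f_2_6_6, f_2_6_7, f_2_6_8, f_2_6_9, f_2_6_10, f_2_6_11, f_2_6_12, f_2_6_13, f_2_6_14, f_2_6_15, f_2_6_16, f_2_6_17, f_2_6_18, f_2_6_19, f_2_6_20, f_2_6_21, f_2_6_22]
noncomputable def f_2_7 : List (List (List Nat)) :=
 [f_2_7_7, f_2_7_8, f_2_7_9, f_2_7_10, f_2_7_11, f_2_7_12, f_2_7_13, f_2_7_14, f_2_7_15, f_2_7_16, f_2_7_17, f_2_7_18, f_2_7_19, f_2_7_20, f_2_7_21, f_2_7_22]
noncomputable def f_2_8 : List (List (List Nat)) :=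
 [f_2_8_8, f_2_8_9, f_2_8_10, f_2_8_11, f_2_8_12, f_2_8_13, f_2_8_14, f_2_8_15, f_2_8_16, f_2_8_17, f_2_8_18, f_2_8_19, f_2_8_20, f_2_8_21, f_2_8_22]
noncomputable def f_2_9 : List (List (List Nat)) :=
 [f_2_9_9, f_2_9_10, f_2_9_11, f_2_9_12, f_2_9_13, f_2_9_14, f_2_9_15, f_2_9_16, f_2_9_17, f_2_9_18, f_2_9_19, f_2_9_20, f_2_9_21, f_2_9_22]
noncomputable def f_2_10 : List (List (List Nat)) :=
 [f_2_10_10, f_2_10_11, f_2_10_12, f_2_10_13, f_2_10_14, f_2_10_15, f_2_10_16, f_2_10_17, f_2_10_18, f_2_10_19, f_2_10_20, f_2_10_21, f_2_10_22]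
noncomputable def f_2_11 : List (List (List Nat)) :=
 [f_2_11_11, f_2_11_12, f_2_11_13, f_2_11_14, f_2_11_15, f_2_11_16, f_2_11_17, f_2_11_18, f_2_11_19, f_2_11_20, f_2_11_21, f_2_11_22]
noncomputable def f_2_12 : List (List (List Nat)) :=
 [f_2_12_12, f_2_12_13, f_2_12_14, f_2_12_15, f_2_12_16, f_2_12_17, f_2_12_18, f_2_12_19, f_2_12_20, f_2_12_21, f_2_12_22]
noncomputable def f_2_13 : List (List (List Nat)) :=
 [f_2_13_13, f_2_13_14, f_2_13_15, f_2_13_16, f_2_13_17, f_2_13_18, f_2_13_19, f_2_13_20, f_2_13_21, f_2_13_22]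
noncomputable def f_2_14 : List (List (List Nat)) :=
 [f_2_14_14, f_2_14_15, f_2_14_16, f_2_14_17, f_2_14_18, f_2_14_19, f_2_14_20, f_2_14_21, f_2_14_22]
noncomputable def f_2_15 : List (List (List Nat)) :=
 [f_2_15_15, f_2_15_16, f_2_15_17, f_2_15_18, f_2_15_19, f_2_15_20, f_2_15_21, f_2_15_22]
noncomputable def f_2_16 : List (List (List Nat)) :=
 [f_2_16_16, f_2_16_17, f_2_16_18, f_2_16_19, f_2_16_20, f_2_16_21, f_2_16_22]
noncomputable def f_2_17 : List (List (List Nat)) :=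
 [f_2_17_17, f_2_17_18, f_2_17_19, f_2_17_20, f_2_17_21, f_2_17_22]
noncomputable def f_2_18 : List (List (List Nat)) :=
 [f_2_18_18, f_2_18_19, f_2_18_20, f_2_18_21, f_2_18_22]
noncomputable def f_2_19 : List (List (List Nat)) :=
 [f_2_19_19, f_2_19_20, f_2_19_21, f_2_19_22]
noncomputable def f_2_20 : List (List (List Nat)) :=
 [f_2_20_20, f_2_20_21, f_2_20_22]
noncomputable def f_2_21 : List (List (List Nat)) :=
 [f_2_21_21, f_2_21_22]
noncomputable def f_2_22 : List (List (List Nat)) :=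
 [f_2_22_22]
noncomputable def f_2 : List (List (List (List Nat))) :=
 [f_2_2, f_2_3, f_2_4, f_2_5, f_2_6, f_2_7, f_2_8, f_2_9, f_2_10, f_2_11, f_2_12, f_2_13, f_2_14, f_2_15, f_2_16, f_2_17, f_2_18, f_2_19, f_2_20, f_2_21, f_2_22]
noncomputable def f_3_3 : List (List (List Nat)) :=
 [f_3_3_3, f_3_3_4, f_3_3_5, f_3_3_6, f_3_3_7, f_3_3_8, f_3_3_9, f_3_3_10, f_3_3_11, f_3_3_12, f_3_3_13, f_3_3_14, f_3_3_15, f_3_3_16, f_3_3_17, f_3_3_18, f_3_3_19, f_3_3_20, f_3_3_21, f_3_3_22]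
noncomputable def f_3_4 : List (List (List Nat)) :=
 [f_3_4_4, f_3_4_5, f_3_4_6, f_3_4_7, f_3_4_8, f_3_4_9, f_3_4_10, f_3_4_11, f_3_4_12, f_3_4_13, f_3_4_14, f_3_4_15, f_3_4_16, f_3_4_17, f_3_4_18, f_3_4_19, f_3_4_20, f_3_4_21, f_3_4_22]
noncomputable def f_3_5 : List (List (List Nat)) :=
 [f_3_5_5, f_3_5_6, f_3_5_7, f_3_5_8, f_3_5_9, f_3_5_10, f_3_5_11, f_3_5_12, f_3_5_13, f_3_5_14, f_3_5_15, f_3_5_16, f_3_5_17, f_3_5_18, f_3_5_19, f_3_5_20, f_3_5_21, f_3_5_22]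
noncomputable def f_3_6 : List (List (List Nat)) :=
 [f_3_6_6, f_3_6_7, f_3_6_8, f_3_6_9, f_3_6_10, f_3_6_11, f_3_6_12, f_3_6_13, f_3_6_14, f_3_6_15, f_3_6_16, f_3_6_17, f_3_6_18, f_3_6_19, f_3_6_20, f_3_6_21, f_3_6_22]
noncomputable def f_3_7 : List (List (List Nat)) :=
 [f_3_7_7, f_3_7_8, f_3_7_9, f_3_7_10, f_3_7_11, f_3_7_12, f_3_7_13, f_3_7_14, f_3_7_15, f_3_7_16, f_3_7_17, f_3_7_18, f_3_7_19, f_3_7_20, f_3_7_21, f_3_7_22]
noncomputable def f_3_8 : List (List (List Nat)) :=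
 [f_3_8_8, f_3_8_9, f_3_8_10, f_3_8_11, f_3_8_12, f_3_8_13, f_3_8_14, f_3_8_15, f_3_8_16, f_3_8_17, f_3_8_18, f_3_8_19, f_3_8_20, f_3_8_21, f_3_8_22]
noncomputable def f_3_9 : List (List (List Nat)) :=
 [f_3_9_9, f_3_9_10, f_3_9_11, f_3_9_12, f_3_9_13, f_3_9_14, f_3_9_15, f_3_9_16, f_3_9_17, f_3_9_18, f_3_9_19, f_3_9_20, f_3_9_21, f_3_9_22]
noncomputable def f_3_10 : List (List (List Nat)) :=
 [f_3_10_10, f_3_10_11, f_3_10_12, f_3_10_13, f_3_10_14, f_3_10_15, f_3_10_16, f_3_10_17, f_3_10_18, f_3_10_19, f_3_10_20, f_3_10_21, f_3_10_22]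
noncomputable def f_3_11 : List (List (List Nat)) :=
 [f_3_11_11, f_3_11_12, f_3_11_13, f_3_11_14, f_3_11_15, f_3_11_16, f_3_11_17, f_3_11_18, f_3_11_19, f_3_11_20, f_3_11_21, f_3_11_22]
noncomputable def f_3_12 : List (List (List Nat)) :=
 [f_3_12_12, f_3_12_13, f_3_12_14, f_3_12_15, f_3_12_16, f_3_12_17, f_3_12_18, f_3_12_19, f_3_12_20, f_3_12_21, f_3_12_22]
noncomputable def f_3_13 : List (List (List Nat)) :=
 [f_3_13_13, f_3_13_14, f_3_13_15, f_3_13_16, f_3_13_17, f_3_13_18, f_3_13_19, f_3_13_20, f_3_13_21, f_3_13_22]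
noncomputable def f_3_14 : List (List (List Nat)) :=
 [f_3_14_14, f_3_14_15, f_3_14_16, f_3_14_17, f_3_14_18, f_3_14_19, f_3_14_20, f_3_14_21, f_3_14_22]
noncomputable def f_3_15 : List (List (List Nat)) :=
 [f_3_15_15, f_3_15_16, f_3_15_17, f_3_15_18, f_3_15_19, f_3_15_20, f_3_15_21, f_3_15_22]
noncomputable def f_3_16 : List (List (List Nat)) :=
 [f_3_16_16, f_3_16_17, f_3_16_18, f_3_16_19, f_3_16_20, f_3_16_21, f_3_16_22]
noncomputable def f_3_17 : List (List (List Nat)) :=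
 [f_3_17_17, f_3_17_18, f_3_17_19, f_3_17_20, f_3_17_21, f_3_17_22]
noncomputable def f_3_18 : List (List (List Nat)) :=
 [f_3_18_18, f_3_18_19, f_3_18_20, f_3_18_21, f_3_18_22]
noncomputable def f_3_19 : List (List (List Nat)) :=
 [f_3_19_19, f_3_19_20, f_3_19_21, f_3_19_22]
noncomputable def f_3_20 : List (List (List Nat)) :=
 [f_3_20_20, f_3_20_21, f_3_20_22]
noncomputable def f_3_21 : List (List (List Nat)) :=
 [f_3_21_21, f_3_21_22]
noncomputable def f_3_22 : List (List (List Nat)) :=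
 [f_3_22_22]
noncomputable def f_3 : List (List (List (List Nat))) :=
 [f_3_3, f_3_4, f_3_5, f_3_6, f_3_7, f_3_8, f_3_9, f_3_10, f_3_11, f_3_12, f_3_13, f_3_14, f_3_15, f_3_16, f_3_17, f_3_18, f_3_19, f_3_20, f_3_21, f_3_22]
noncomputable def f_4_4 : List (List (List Nat)) :=
 [f_4_4_4, f_4_4_5, f_4_4_6, f_4_4_7, f_4_4_8, f_4_4_9, f_4_4_10, f_4_4_11, f_4_4_12, f_4_4_13, f_4_4_14, f_4_4_15, f_4_4_16, f_4_4_17, f_4_4_18, f_4_4_19, f_4_4_20, f_4_4_21, f_4_4_22]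
noncomputable def f_4_5 : List (List (List Nat)) :=
 [f_4_5_5, f_4_5_6, f_4_5_7, f_4_5_8, f_4_5_9, f_4_5_10, f_4_5_11, f_4_5_12, f_4_5_13, f_4_5_14, f_4_5_15, f_4_5_16, f_4_5_17, f_4_5_18, f_4_5_19, f_4_5_20, f_4_5_21, f_4_5_22]
noncomputable def f_4_6 : List (List (List Nat)) :=
 [f_4_6_6, f_4_6_7, f_4_6_8, f_4_6_9, f_4_6_10, f_4_6_11, f_4_6_12, f_4_6_13, f_4_6_14, f_4_6_15, f_4_6_16, f_4_6_17, f_4_6_18, f_4_6_19, f_4_6_20, f_4_6_21, f_4_6_22]
noncomputable def f_4_7 : List (List (List Nat)) :=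
 [f_4_7_7, f_4_7_8, f_4_7_9, f_4_7_10, f_4_7_11, f_4_7_12, f_4_7_13, f_4_7_14, f_4_7_15, f_4_7_16, f_4_7_17, f_4_7_18, f_4_7_19, f_4_7_20, f_4_7_21, f_4_7_22]
noncomputable def f_4_8 : List (List (List Nat)) :=
 [f_4_8_8, f_4_8_9, f_4_8_10, f_4_8_11, f_4_8_12, f_4_8_13, f_4_8_14, f_4_8_15, f_4_8_16, f_4_8_17, f_4_8_18, f_4_8_19, f_4_8_20, f_4_8_21, f_4_8_22]
noncomputable def f_4_9 : List (List (List Nat)) :=
 [f_4_9_9, f_4_9_10, f_4_9_11, f_4_9_12, f_4_9_13, f_4_9_14, f_4_9_15, f_4_9_16, f_4_9_17, f_4_9_18, f_4_9_19, f_4_9_20, f_4_9_21, f_4_9_22]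
noncomputable def f_4_10 : List (List (List Nat)) :=
 [f_4_10_10, f_4_10_11, f_4_10_12, f_4_10_13, f_4_10_14, f_4_10_15, f_4_10_16, f_4_10_17, f_4_10_18, f_4_10_19, f_4_10_20, f_4_10_21, f_4_10_22]
noncomputable def f_4_11 : List (List (List Nat)) :=
 [f_4_11_11, f_4_11_12, f_4_11_13, f_4_11_14, f_4_11_15, f_4_11_16, f_4_11_17, f_4_11_18, f_4_11_19, f_4_11_20, f_4_11_21, f_4_11_22]
noncomputable def f_4_12 : List (List (List Nat)) :=
 [f_4_12_12, f_4_12_13, f_4_12_14, f_4_12_15, f_4_12_16, f_4_12_17, f_4_12_18, f_4_12_19, f_4_12_20, f_4_12_21, f_4_12_22]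
noncomputable def f_4_13 : List (List (List Nat)) :=
 [f_4_13_13, f_4_13_14, f_4_13_15, f_4_13_16, f_4_13_17, f_4_13_18, f_4_13_19, f_4_13_20, f_4_13_21, f_4_13_22]
noncomputable def f_4_14 : List (List (List Nat)) :=
 [f_4_14_14, f_4_14_15, f_4_14_16, f_4_14_17, f_4_14_18, f_4_14_19, f_4_14_20, f_4_14_21, f_4_14_22]
noncomputable def f_4_15 : List (List (List Nat)) :=
 [f_4_15_15, f_4_15_16, f_4_15_17, f_4_15_18, f_4_15_19, f_4_15_20, f_4_15_21, f_4_15_22]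
noncomputable def f_4_16 : List (List (List Nat)) :=
 [f_4_16_16, f_4_16_17, f_4_16_18, f_4_16_19, f_4_16_20, f_4_16_21, f_4_16_22]
noncomputable def f_4_17 : List (List (List Nat)) :=
 [f_4_17_17, f_4_17_18, f_4_17_19, f_4_17_20, f_4_17_21, f_4_17_22]
noncomputable def f_4_18 : List (List (List Nat)) :=
 [f_4_18_18, f_4_18_19, f_4_18_20, f_4_18_21, f_4_18_22]
noncomputable def f_4_19 : List (List (List Nat)) :=
 [f_4_19_19, f_4_19_20, f_4_19_21, f_4_19_22]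
noncomputable def f_4_20 : List (List (List Nat)) :=
 [f_4_20_20, f_4_20_21, f_4_20_22]
noncomputable def f_4_21 : List (List (List Nat)) :=
 [f_4_21_21, f_4_21_22]
noncomputable def f_4_22 : List (List (List Nat)) :=
 [f_4_22_22]
noncomputable def f_4 : List (List (List (List Nat))) :=
 [f_4_4, f_4_5, f_4_6, f_4_7, f_4_8, f_4_9, f_4_10, f_4_11, f_4_12, f_4_13, f_4_14, f_4_15, f_4_16, f_4_17, f_4_18, f_4_19, f_4_20, f_4_21, f_4_22]
noncomputable def f_5_5 : List (List (List Nat)) :=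
 [f_5_5_5, f_5_5_6, f_5_5_7, f_5_5_8, f_5_5_9, f_5_5_10, f_5_5_11, f_5_5_12, f_5_5_13, f_5_5_14, f_5_5_15, f_5_5_16, f_5_5_17, f_5_5_18, f_5_5_19, f_5_5_20, f_5_5_21, f_5_5_22]
noncomputable def f_5_6 : List (List (List Nat)) :=
 [f_5_6_6, f_5_6_7, f_5_6_8, f_5_6_9, f_5_6_10, f_5_6_11, f_5_6_12, f_5_6_13, f_5_6_14, f_5_6_15, f_5_6_16, f_5_6_17, f_5_6_18, f_5_6_19, f_5_6_20, f_5_6_21, f_5_6_22]
noncomputable def f_5_7 : List (List (List Nat)) :=
 [f_5_7_7, f_5_7_8, f_5_7_9, f_5_7_10, f_5_7_11, f_5_7_12, f_5_7_13, f_5_7_14, f_5_7_15, f_5_7_16, f_5_7_17, f_5_7_18, f_5_7_19, f_5_7_20, f_5_7_21, f_5_7_22]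
noncomputable def f_5_8 : List (List (List Nat)) :=
 [f_5_8_8, f_5_8_9, f_5_8_10, f_5_8_11, f_5_8_12, f_5_8_13, f_5_8_14, f_5_8_15, f_5_8_16, f_5_8_17, f_5_8_18, f_5_8_19, f_5_8_20, f_5_8_21, f_5_8_22]
noncomputable def f_5_9 : List (List (List Nat)) :=
 [f_5_9_9, f_5_9_10, f_5_9_11, f_5_9_12, f_5_9_13, f_5_9_14, f_5_9_15, f_5_9_16, f_5_9_17, f_5_9_18, f_5_9_19, f_5_9_20, f_5_9_21, f_5_9_22]
noncomputable def f_5_10 : List (List (List Nat)) :=
 [f_5_10_10, f_5_10_11, f_5_10_12, f_5_10_13, f_5_10_14, f_5_10_15, f_5_10_16, f_5_10_17, f_5_10_18, f_5_10_19, f_5_10_20, f_5_10_21, f_5_10_22]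
noncomputable def f_5_11 : List (List (List Nat)) :=
 [f_5_11_11, f_5_11_12, f_5_11_13, f_5_11_14, f_5_11_15, f_5_11_16, f_5_11_17, f_5_11_18, f_5_11_19, f_5_11_20, f_5_11_21, f_5_11_22]
noncomputable def f_5_12 : List (List (List Nat)) :=
 [f_5_12_12, f_5_12_13, f_5_12_14, f_5_12_15, f_5_12_16, f_5_12_17, f_5_12_18, f_5_12_19, f_5_12_20, f_5_12_21, f_5_12_22]
noncomputable def f_5_13 : List (List (List Nat)) :=
 [f_5_13_13, f_5_13_14, f_5_13_15, f_5_13_16, f_5_13_17, f_5_13_18, f_5_13_19, f_5_13_20, f_5_13_21, f_5_13_22]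
noncomputable def f_5_14 : List (List (List Nat)) :=
 [f_5_14_14, f_5_14_15, f_5_14_16, f_5_14_17, f_5_14_18, f_5_14_19, f_5_14_20, f_5_14_21, f_5_14_22]
noncomputable def f_5_15 : List (List (List Nat)) :=
 [f_5_15_15, f_5_15_16, f_5_15_17, f_5_15_18, f_5_15_19, f_5_15_20, f_5_15_21, f_5_15_22]
noncomputable def f_5_16 : List (List (List Nat)) :=
 [f_5_16_16, f_5_16_17, f_5_16_18, f_5_16_19, f_5_16_20, f_5_16_21, f_5_16_22]
noncomputable def f_5_17 : List (List (List Nat)) :=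
 [f_5_17_17, f_5_17_18, f_5_17_19, f_5_17_20, f_5_17_21, f_5_17_22]
noncomputable def f_5_18 : List (List (List Nat)) :=
 [f_5_18_18, f_5_18_19, f_5_18_20, f_5_18_21, f_5_18_22]
noncomputable def f_5_19 : List (List (List Nat)) :=
 [f_5_19_19, f_5_19_20, f_5_19_21, f_5_19_22]
noncomputable def f_5_20 : List (List (List Nat)) :=
 [f_5_20_20, f_5_20_21, f_5_20_22]
noncomputable def f_5_21 : List (List (List Nat)) :=
 [f_5_21_21, f_5_21_22]
noncomputable def f_5_22 : List (List (List Nat)) :=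
 [f_5_22_22]
noncomputable def f_5 : List (List (List (List Nat))) :=
 [f_5_5, f_5_6, f_5_7, f_5_8, f_5_9, f_5_10, f_5_11, f_5_12, f_5_13, f_5_14, f_5_15, f_5_16, f_5_17, f_5_18, f_5_19, f_5_20, f_5_21, f_5_22]
noncomputable def f_6_6 : List (List (List Nat)) :=
 [f_6_6_6, f_6_6_7, f_6_6_8, f_6_6_9, f_6_6_10, f_6_6_11, f_6_6_12, f_6_6_13, f_6_6_14, f_6_6_15, f_6_6_16, f_6_6_17, f_6_6_18, f_6_6_19, f_6_6_20, f_6_6_21, f_6_6_22]
noncomputable def f_6_7 : List (List (List Nat)) :=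
 [f_6_7_7, f_6_7_8, f_6_7_9, f_6_7_10, f_6_7_11, f_6_7_12, f_6_7_13, f_6_7_14, f_6_7_15, f_6_7_16, f_6_7_17, f_6_7_18, f_6_7_19, f_6_7_20, f_6_7_21, f_6_7_22]
noncomputable def f_6_8 : List (List (List Nat)) :=
 [f_6_8_8, f_6_8_9, f_6_8_10, f_6_8_11, f_6_8_12, f_6_8_13, f_6_8_14, f_6_8_15, f_6_8_16, f_6_8_17, f_6_8_18, f_6_8_19, f_6_8_20, f_6_8_21, f_6_8_22]
noncomputable def f_6_9 : List (List (List Nat)) :=
 [f_6_9_9, f_6_9_10, f_6_9_11, f_6_9_12, f_6_9_13, f_6_9_14, f_6_9_15, f_6_9_16, f_6_9_17, f_6_9_18, f_6_9_19, f_6_9_20, f_6_9_21, f_6_9_22]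
noncomputable def f_6_10 : List (List (List Nat)) :=
 [f_6_10_10, f_6_10_11, f_6_10_12, f_6_10_13, f_6_10_14, f_6_10_15, f_6_10_16, f_6_10_17, f_6_10_18, f_6_10_19, f_6_10_20, f_6_10_21, f_6_10_22]
noncomputable def f_6_11 : List (List (List Nat)) :=
 [f_6_11_11, f_6_11_12, f_6_11_13, f_6_11_14, f_6_11_15, f_6_11_16, f_6_11_17, f_6_11_18, f_6_11_19, f_6_11_20, f_6_11_21, f_6_11_22]
noncomputable def f_6_12 : List (List (List Nat)) :=
 [f_6_12_12, f_6_12_13, f_6_12_14, f_6_12_15, f_6_12_16, f_6_12_17, f_6_12_18, f_6_12_19, f_6_12_20, f_6_12_21, f_6_12_22]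
noncomputable def f_6_13 : List (List (List Nat)) :=
 [f_6_13_13, f_6_13_14, f_6_13_15, f_6_13_16, f_6_13_17, f_6_13_18, f_6_13_19, f_6_13_20, f_6_13_21, f_6_13_22]
noncomputable def f_6_14 : List (List (List Nat)) :=
 [f_6_14_14, f_6_14_15, f_6_14_16, f_6_14_17, f_6_14_18, f_6_14_19, f_6_14_20, f_6_14_21, f_6_14_22]
noncomputable def f_6_15 : List (List (List Nat)) :=
 [f_6_15_15, f_6_15_16, f_6_15_17, f_6_15_18, f_6_15_19, f_6_15_20, f_6_15_21, f_6_15_22]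
noncomputable def f_6_16 : List (List (List Nat)) :=
 [f_6_16_16, f_6_16_17, f_6_16_18, f_6_16_19, f_6_16_20, f_6_16_21, f_6_16_22]
noncomputable def f_6_17 : List (List (List Nat)) :=
 [f_6_17_17, f_6_17_18, f_6_17_19, f_6_17_20, f_6_17_21, f_6_17_22]
noncomputable def f_6_18 : List (List (List Nat)) :=
 [f_6_18_18, f_6_18_19, f_6_18_20, f_6_18_21, f_6_18_22]
noncomputable def f_6_19 : List (List (List Nat)) :=
 [f_6_19_19, f_6_19_20, f_6_19_21, f_6_19_22]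
noncomputable def f_6_20 : List (List (List Nat)) :=
 [f_6_20_20, f_6_20_21, f_6_20_22]
noncomputable def f_6_21 : List (List (List Nat)) :=
 [f_6_21_21, f_6_21_22]
noncomputable def f_6_22 : List (List (List Nat)) :=
 [f_6_22_22]
noncomputable def f_6 : List (List (List (List Nat))) :=
 [f_6_6, f_6_7, f_6_8, f_6_9, f_6_10, f_6_11, f_6_12, f_6_13, f_6_14, f_6_15, f_6_16, f_6_17, f_6_18, f_6_19, f_6_20, f_6_21, f_6_22]
noncomputable def f_7_7 : List (List (List Nat)) :=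
 [f_7_7_7, f_7_7_8, f_7_7_9, f_7_7_10, f_7_7_11, f_7_7_12, f_7_7_13, f_7_7_14, f_7_7_15, f_7_7_16, f_7_7_17, f_7_7_18, f_7_7_19, f_7_7_20, f_7_7_21, f_7_7_22]
noncomputable def f_7_8 : List (List (List Nat)) :=
 [f_7_8_8, f_7_8_9, f_7_8_10, f_7_8_11, f_7_8_12, f_7_8_13, f_7_8_14, f_7_8_15, f_7_8_16, f_7_8_17, f_7_8_18, f_7_8_19, f_7_8_20, f_7_8_21, f_7_8_22]
noncomputable def f_7_9 : List (List (List Nat)) :=
 [f_7_9_9, f_7_9_10, f_7_9_11, f_7_9_12, f_7_9_13, f_7_9_14, f_7_9_15, f_7_9_16, f_7_9_17, f_7_9_18, f_7_9_19, f_7_9_20, f_7_9_21, f_7_9_22]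
noncomputable def f_7_10 : List (List (List Nat)) :=
 [f_7_10_10, f_7_10_11, f_7_10_12, f_7_10_13, f_7_10_14, f_7_10_15, f_7_10_16, f_7_10_17, f_7_10_18, f_7_10_19, f_7_10_20, f_7_10_21, f_7_10_22]
noncomputable def f_7_11 : List (List (List Nat)) :=
 [f_7_11_11, f_7_11_12, f_7_11_13, f_7_11_14, f_7_11_15, f_7_11_16, f_7_11_17, f_7_11_18, f_7_11_19, f_7_11_20, f_7_11_21, f_7_11_22]
noncomputable def f_7_12 : List (List (List Nat)) :=
 [f_7_12_12, f_7_12_13, f_7_12_14, f_7_12_15, f_7_12_16, f_7_12_17, f_7_12_18, f_7_12_19, f_7_12_20, f_7_12_21, f_7_12_22]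
noncomputable def f_7_13 : List (List (List Nat)) :=
 [f_7_13_13, f_7_13_14, f_7_13_15, f_7_13_16, f_7_13_17, f_7_13_18, f_7_13_19, f_7_13_20, f_7_13_21, f_7_13_22]
noncomputable def f_7_14 : List (List (List Nat)) :=
 [f_7_14_14, f_7_14_15, f_7_14_16, f_7_14_17, f_7_14_18, f_7_14_19, f_7_14_20, f_7_14_21, f_7_14_22]
noncomputable def f_7_15 : List (List (List Nat)) :=
 [f_7_15_15, f_7_15_16, f_7_15_17, f_7_15_18, f_7_15_19, f_7_15_20, f_7_15_21, f_7_15_22]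
noncomputable def f_7_16 : List (List (List Nat)) :=
 [f_7_16_16, f_7_16_17, f_7_16_18, f_7_16_19, f_7_16_20, f_7_16_21, f_7_16_22]
noncomputable def f_7_17 : List (List (List Nat)) :=
 [f_7_17_17, f_7_17_18, f_7_17_19, f_7_17_20, f_7_17_21, f_7_17_22]
noncomputable def f_7_18 : List (List (List Nat)) :=
 [f_7_18_18, f_7_18_19, f_7_18_20, f_7_18_21, f_7_18_22]
noncomputable def f_7_19 : List (List (List Nat)) :=
 [f_7_19_19, f_7_19_20, f_7_19_21, f_7_19_22]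
noncomputable def f_7_20 : List (List (List Nat)) :=
 [f_7_20_20, f_7_20_21, f_7_20_22]
noncomputable def f_7_21 : List (List (List Nat)) :=
 [f_7_21_21, f_7_21_22]
noncomputable def f_7_22 : List (List (List Nat)) :=
 [f_7_22_22]
noncomputable def f_7 : List (List (List (List Nat))) :=
 [f_7_7, f_7_8, f_7_9, f_7_10, f_7_11, f_7_12, f_7_13, f_7_14, f_7_15, f_7_16, f_7_17, f_7_18, f_7_19, f_7_20, f_7_21, f_7_22]
noncomputable def f_8_8 : List (List (List Nat)) :=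
 [f_8_8_8, f_8_8_9, f_8_8_10, f_8_8_11, f_8_8_12, f_8_8_13, f_8_8_14, f_8_8_15, f_8_8_16, f_8_8_17, f_8_8_18, f_8_8_19, f_8_8_20, f_8_8_21, f_8_8_22]
noncomputable def f_8_9 : List (List (List Nat)) :=
 [f_8_9_9, f_8_9_10, f_8_9_11, f_8_9_12, f_8_9_13, f_8_9_14, f_8_9_15, f_8_9_16, f_8_9_17, f_8_9_18, f_8_9_19, f_8_9_20, f_8_9_21, f_8_9_22]
noncomputable def f_8_10 : List (List (List Nat)) :=
 [f_8_10_10, f_8_10_11, f_8_10_12, f_8_10_13, f_8_10_14, f_8_10_15, f_8_10_16, f_8_10_17, f_8_10_18, f_8_10_19, f_8_10_20, f_8_10_21, f_8_10_22]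
noncomputable def f_8_11 : List (List (List Nat)) :=
 [f_8_11_11, f_8_11_12, f_8_11_13, f_8_11_14, f_8_11_15, f_8_11_16, f_8_11_17, f_8_11_18, f_8_11_19, f_8_11_20, f_8_11_21, f_8_11_22]
noncomputable def f_8_12 : List (List (List Nat)) :=
 [f_8_12_12, f_8_12_13, f_8_12_14, f_8_12_15, f_8_12_16, f_8_12_17, f_8_12_18, f_8_12_19, f_8_12_20, f_8_12_21, f_8_12_22]
noncomputable def f_8_13 : List (List (List Nat)) :=
 [f_8_13_13, f_8_13_14, f_8_13_15, f_8_13_16, f_8_13_17, f_8_13_18, f_8_13_19, f_8_13_20, f_8_13_21, f_8_13_22]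
noncomputable def f_8_14 : List (List (List Nat)) :=
 [f_8_14_14, f_8_14_15, f_8_14_16, f_8_14_17, f_8_14_18, f_8_14_19, f_8_14_20, f_8_14_21, f_8_14_22]
noncomputable def f_8_15 : List (List (List Nat)) :=
 [f_8_15_15, f_8_15_16, f_8_15_17, f_8_15_18, f_8_15_19, f_8_15_20, f_8_15_21, f_8_15_22]
noncomputable def f_8_16 : List (List (List Nat)) :=
 [f_8_16_16, f_8_16_17, f_8_16_18, f_8_16_19, f_8_16_20, f_8_16_21, f_8_16_22]
noncomputable def f_8_17 : List (List (List Nat)) :=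
 [f_8_17_17, f_8_17_18, f_8_17_19, f_8_17_20, f_8_17_21, f_8_17_22]
noncomputable def f_8_18 : List (List (List Nat)) :=
 [f_8_18_18, f_8_18_19, f_8_18_20, f_8_18_21, f_8_18_22]
noncomputable def f_8_19 : List (List (List Nat)) :=
 [f_8_19_19, f_8_19_20, f_8_19_21, f_8_19_22]
noncomputable def f_8_20 : List (List (List Nat)) :=
 [f_8_20_20, f_8_20_21, f_8_20_22]
noncomputable def f_8_21 : List (List (List Nat)) :=
 [f_8_21_21, f_8_21_22]
noncomputable def f_8_22 : List (List (List Nat)) :=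
 [f_8_22_22]
noncomputable def f_8 : List (List (List (List Nat))) :=
 [f_8_8, f_8_9, f_8_10, f_8_11, f_8_12, f_8_13, f_8_14, f_8_15, f_8_16, f_8_17, f_8_18, f_8_19, f_8_20, f_8_21, f_8_22]
noncomputable def f_9_9 : List (List (List Nat)) :=
 [f_9_9_9, f_9_9_10, f_9_9_11, f_9_9_12, f_9_9_13, f_9_9_14, f_9_9_15, f_9_9_16, f_9_9_17, f_9_9_18, f_9_9_19, f_9_9_20, f_9_9_21, f_9_9_22]
noncomputable def f_9_10 : List (List (List Nat)) :=
 [f_9_10_10, f_9_10_11, f_9_10_12, f_9_10_13, f_9_10_14, f_9_10_15, f_9_10_16, f_9_10_17, f_9_10_18, f_9_10_19, f_9_10_20, f_9_10_21, f_9_10_22]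
noncomputable def f_9_11 : List (List (List Nat)) :=
 [f_9_11_11, f_9_11_12, f_9_11_13, f_9_11_14, f_9_11_15, f_9_11_16, f_9_11_17, f_9_11_18, f_9_11_19, f_9_11_20, f_9_11_21, f_9_11_22]
noncomputable def f_9_12 : List (List (List Nat)) :=
 [f_9_12_12, f_9_12_13, f_9_12_14, f_9_12_15, f_9_12_16, f_9_12_17, f_9_12_18, f_9_12_19, f_9_12_20, f_9_12_21, f_9_12_22]
noncomputable def f_9_13 : List (List (List Nat)) :=
 [f_9_13_13, f_9_13_14, f_9_13_15, f_9_13_16, f_9_13_17, f_9_13_18, f_9_13_19, f_9_13_20, f_9_13_21, f_9_13_22]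
noncomputable def f_9_14 : List (List (List Nat)) :=
 [f_9_14_14, f_9_14_15, f_9_14_16, f_9_14_17, f_9_14_18, f_9_14_19, f_9_14_20, f_9_14_21, f_9_14_22]
noncomputable def f_9_15 : List (List (List Nat)) :=
 [f_9_15_15, f_9_15_16, f_9_15_17, f_9_15_18, f_9_15_19, f_9_15_20, f_9_15_21, f_9_15_22]
noncomputable def f_9_16 : List (List (List Nat)) :=
 [f_9_16_16, f_9_16_17, f_9_16_18, f_9_16_19, f_9_16_20, f_9_16_21, f_9_16_22]
noncomputable def f_9_17 : List (List (List Nat)) :=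
 [f_9_17_17, f_9_17_18, f_9_17_19, f_9_17_20, f_9_17_21, f_9_17_22]
noncomputable def f_9_18 : List (List (List Nat)) :=
 [f_9_18_18, f_9_18_19, f_9_18_20, f_9_18_21, f_9_18_22]
noncomputable def f_9_19 : List (List (List Nat)) :=
 [f_9_19_19, f_9_19_20, f_9_19_21, f_9_19_22]
noncomputable def f_9_20 : List (List (List Nat)) :=
 [f_9_20_20, f_9_20_21, f_9_20_22]
noncomputable def f_9_21 : List (List (List Nat)) :=
 [f_9_21_21, f_9_21_22]
noncomputable def f_9_22 : List (List (List Nat)) :=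
 [f_9_22_22]
noncomputable def f_9 : List (List (List (List Nat))) :=
 [f_9_9, f_9_10, f_9_11, f_9_12, f_9_13, f_9_14, f_9_15, f_9_16, f_9_17, f_9_18, f_9_19, f_9_20, f_9_21, f_9_22]
noncomputable def f_10_10 : List (List (List Nat)) :=
 [f_10_10_10, f_10_10_11, f_10_10_12, f_10_10_13, f_10_10_14, f_10_10_15, f_10_10_16, f_10_10_17, f_10_10_18, f_10_10_19, f_10_10_20, f_10_10_21, f_10_10_22]
noncomputable def f_10_11 : List (List (List Nat)) :=
 [f_10_11_11, f_10_11_12, f_10_11_13, f_10_11_14, f_10_11_15, f_10_11_16, f_10_11_17, f_10_11_18, f_10_11_19, f_10_11_20, f_10_11_21, f_10_11_22]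
noncomputable def f_10_12 : List (List (List Nat)) :=
 [f_10_12_12, f_10_12_13, f_10_12_14, f_10_12_15, f_10_12_16, f_10_12_17, f_10_12_18, f_10_12_19, f_10_12_20, f_10_12_21, f_10_12_22]
noncomputable def f_10_13 : List (List (List Nat)) :=
 [f_10_13_13, f_10_13_14, f_10_13_15, f_10_13_16, f_10_13_17, f_10_13_18, f_10_13_19, f_10_13_20, f_10_13_21, f_10_13_22]
noncomputable def f_10_14 : List (List (List Nat)) :=
 [f_10_14_14, f_10_14_15, f_10_14_16, f_10_14_17, f_10_14_18, f_10_14_19, f_10_14_20, f_10_14_21, f_10_14_22]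
noncomputable def f_10_15 : List (List (List Nat)) :=
 [f_10_15_15, f_10_15_16, f_10_15_17, f_10_15_18, f_10_15_19, f_10_15_20, f_10_15_21, f_10_15_22]
noncomputable def f_10_16 : List (List (List Nat)) :=
 [f_10_16_16, f_10_16_17, f_10_16_18, f_10_16_19, f_10_16_20, f_10_16_21, f_10_16_22]
noncomputable def f_10_17 : List (List (List Nat)) :=
 [f_10_17_17, f_10_17_18, f_10_17_19, f_10_17_20, f_10_17_21, f_10_17_22]
noncomputable def f_10_18 : List (List (List Nat)) :=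
 [f_10_18_18, f_10_18_19, f_10_18_20, f_10_18_21, f_10_18_22]
noncomputable def f_10_19 : List (List (List Nat)) :=
 [f_10_19_19, f_10_19_20, f_10_19_21, f_10_19_22]
noncomputable def f_10_20 : List (List (List Nat)) :=
 [f_10_20_20, f_10_20_21, f_10_20_22]
noncomputable def f_10_21 : List (List (List Nat)) :=
 [f_10_21_21, f_10_21_22]
noncomputable def f_10_22 : List (List (List Nat)) :=
 [f_10_22_22]
noncomputable def f_10 : List (List (List (List Nat))) :=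
 [f_10_10, f_10_11, f_10_12, f_10_13, f_10_14, f_10_15, f_10_16, f_10_17, f_10_18, f_10_19, f_10_20, f_10_21, f_10_22]
noncomputable def f_11_11 : List (List (List Nat)) :=
 [f_11_11_11, f_11_11_12, f_11_11_13, f_11_11_14, f_11_11_15, f_11_11_16, f_11_11_17, f_11_11_18, f_11_11_19, f_11_11_20, f_11_11_21, f_11_11_22]
noncomputable def f_11_12 : List (List (List Nat)) :=
 [f_11_12_12, f_11_12_13, f_11_12_14, f_11_12_15, f_11_12_16, f_11_12_17, f_11_12_18, f_11_12_19, f_11_12_20, f_11_12_21, f_11_12_22]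
noncomputable def f_11_13 : List (List (List Nat)) :=
 [f_11_13_13, f_11_13_14, f_11_13_15, f_11_13_16, f_11_13_17, f_11_13_18, f_11_13_19, f_11_13_20, f_11_13_21, f_11_13_22]
noncomputable def f_11_14 : List (List (List Nat)) :=
 [f_11_14_14, f_11_14_15, f_11_14_16, f_11_14_17, f_11_14_18, f_11_14_19, f_11_14_20, f_11_14_21, f_11_14_22]
noncomputable def f_11_15 : List (List (List Nat)) :=
 [f_11_15_15, f_11_15_16, f_11_15_17, f_11_15_18, f_11_15_19, f_11_15_20, f_11_15_21, f_11_15_22]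
noncomputable def f_11_16 : List (List (List Nat)) :=
 [f_11_16_16, f_11_16_17, f_11_16_18, f_11_16_19, f_11_16_20, f_11_16_21, f_11_16_22]
noncomputable def f_11_17 : List (List (List Nat)) :=
 [f_11_17_17, f_11_17_18, f_11_17_19, f_11_17_20, f_11_17_21, f_11_17_22]
noncomputable def f_11_18 : List (List (List Nat)) :=
 [f_11_18_18, f_11_18_19, f_11_18_20, f_11_18_21, f_11_18_22]
noncomputable def f_11_19 : List (List (List Nat)) :=
 [f_11_19_19, f_11_19_20, f_11_19_21, f_11_19_22]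
noncomputable def f_11_20 : List (List (List Nat)) :=
 [f_11_20_20, f_11_20_21, f_11_20_22]
noncomputable def f_11_21 : List (List (List Nat)) :=
 [f_11_21_21, f_11_21_22]
noncomputable def f_11_22 : List (List (List Nat)) :=
 [f_11_22_22]
noncomputable def f_11 : List (List (List (List Nat))) :=
 [f_11_11, f_11_12, f_11_13, f_11_14, f_11_15, f_11_16, f_11_17, f_11_18, f_11_19, f_11_20, f_11_21, f_11_22]
noncomputable def f_12_12 : List (List (List Nat)) :=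
 [f_12_12_12, f_12_12_13, f_12_12_14, f_12_12_15, f_12_12_16, f_12_12_17, f_12_12_18, f_12_12_19, f_12_12_20, f_12_12_21, f_12_12_22]
noncomputable def f_12_13 : List (List (List Nat)) :=
 [f_12_13_13, f_12_13_14, f_12_13_15, f_12_13_16, f_12_13_17, f_12_13_18, f_12_13_19, f_12_13_20, f_12_13_21, f_12_13_22]
noncomputable def f_12_14 : List (List (List Nat)) :=
 [f_12_14_14, f_12_14_15, f_12_14_16, f_12_14_17, f_12_14_18, f_12_14_19, f_12_14_20, f_12_14_21, f_12_14_22]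
noncomputable def f_12_15 : List (List (List Nat)) :=
 [f_12_15_15, f_12_15_16, f_12_15_17, f_12_15_18, f_12_15_19, f_12_15_20, f_12_15_21, f_12_15_22]
noncomputable def f_12_16 : List (List (List Nat)) :=
 [f_12_16_16, f_12_16_17, f_12_16_18, f_12_16_19, f_12_16_20, f_12_16_21, f_12_16_22]
noncomputable def f_12_17 : List (List (List Nat)) :=
 [f_12_17_17, f_12_17_18, f_12_17_19, f_12_17_20, f_12_17_21, f_12_17_22]
noncomputable def f_12_18 : List (List (List Nat)) :=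
 [f_12_18_18, f_12_18_19, f_12_18_20, f_12_18_21, f_12_18_22]
noncomputable def f_12_19 : List (List (List Nat)) :=
 [f_12_19_19, f_12_19_20, f_12_19_21, f_12_19_22]
noncomputable def f_12_20 : List (List (List Nat)) :=
 [f_12_20_20, f_12_20_21, f_12_20_22]
noncomputable def f_12_21 : List (List (List Nat)) :=
 [f_12_21_21, f_12_21_22]
noncomputable def f_12_22 : List (List (List Nat)) :=
 [f_12_22_22]
noncomputable def f_12 : List (List (List (List Nat))) :=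
 [f_12_12, f_12_13, f_12_14, f_12_15, f_12_16, f_12_17, f_12_18, f_12_19, f_12_20, f_12_21, f_12_22]
noncomputable def f_13_13 : List (List (List Nat)) :=
 [f_13_13_13, f_13_13_14, f_13_13_15, f_13_13_16, f_13_13_17, f_13_13_18, f_13_13_19, f_13_13_20, f_13_13_21, f_13_13_22]
noncomputable def f_13_14 : List (List (List Nat)) :=
 [f_13_14_14, f_13_14_15, f_13_14_16, f_13_14_17, f_13_14_18, f_13_14_19, f_13_14_20, f_13_14_21, f_13_14_22]
noncomputable def f_13_15 : List (List (List Nat)) :=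
 [f_13_15_15, f_13_15_16, f_13_15_17, f_13_15_18, f_13_15_19, f_13_15_20, f_13_15_21, f_13_15_22]
noncomputable def f_13_16 : List (List (List Nat)) :=
 [f_13_16_16, f_13_16_17, f_13_16_18, f_13_16_19, f_13_16_20, f_13_16_21, f_13_16_22]
noncomputable def f_13_17 : List (List (List Nat)) :=
 [f_13_17_17, f_13_17_18, f_13_17_19, f_13_17_20, f_13_17_21, f_13_17_22]
noncomputable def f_13_18 : List (List (List Nat)) :=
 [f_13_18_18, f_13_18_19, f_13_18_20, f_13_18_21, f_13_18_22]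
noncomputable def f_13_19 : List (List (List Nat)) :=
 [f_13_19_19, f_13_19_20, f_13_19_21, f_13_19_22]
noncomputable def f_13_20 : List (List (List Nat)) :=
 [f_13_20_20, f_13_20_21, f_13_20_22]
noncomputable def f_13_21 : List (List (List Nat)) :=
 [f_13_21_21, f_13_21_22]
noncomputable def f_13_22 : List (List (List Nat)) :=
 [f_13_22_22]
noncomputable def f_13 : List (List (List (List Nat))) :=
 [f_13_13, f_13_14, f_13_15, f_13_16, f_13_17, f_13_18, f_13_19, f_13_20, f_13_21, f_13_22]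
noncomputable def f_14_14 : List (List (List Nat)) :=
 [f_14_14_14, f_14_14_15, f_14_14_16, f_14_14_17, f_14_14_18, f_14_14_19, f_14_14_20, f_14_14_21, f_14_14_22]
noncomputable def f_14_15 : List (List (List Nat)) :=
 [f_14_15_15, f_14_15_16, f_14_15_17, f_14_15_18, f_14_15_19, f_14_15_20, f_14_15_21, f_14_15_22]
noncomputable def f_14_16 : List (List (List Nat)) :=
 [f_14_16_16, f_14_16_17, f_14_16_18, f_14_16_19, f_14_16_20, f_14_16_21, f_14_16_22]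
noncomputable def f_14_17 : List (List (List Nat)) :=
 [f_14_17_17, f_14_17_18, f_14_17_19, f_14_17_20, f_14_17_21, f_14_17_22]
noncomputable def f_14_18 : List (List (List Nat)) :=
 [f_14_18_18, f_14_18_19, f_14_18_20, f_14_18_21, f_14_18_22]
noncomputable def f_14_19 : List (List (List Nat)) :=
 [f_14_19_19, f_14_19_20, f_14_19_21, f_14_19_22]
noncomputable def f_14_20 : List (List (List Nat)) :=
 [f_14_20_20, f_14_20_21, f_14_20_22]
noncomputable def f_14_21 : List (List (List Nat)) :=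
 [f_14_21_21, f_14_21_22]
noncomputable def f_14_22 : List (List (List Nat)) :=
 [f_14_22_22]
noncomputable def f_14 : List (List (List (List Nat))) :=
 [f_14_14, f_14_15, f_14_16, f_14_17, f_14_18, f_14_19, f_14_20, f_14_21, f_14_22]
noncomputable def f_15_15 : List (List (List Nat)) :=
 [f_15_15_15, f_15_15_16, f_15_15_17, f_15_15_18, f_15_15_19, f_15_15_20, f_15_15_21, f_15_15_22]
noncomputable def f_15_16 : List (List (List Nat)) :=
 [f_15_16_16, f_15_16_17, f_15_16_18, f_15_16_19, f_15_16_20, f_15_16_21, f_15_16_22]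
noncomputable def f_15_17 : List (List (List Nat)) :=
 [f_15_17_17, f_15_17_18, f_15_17_19, f_15_17_20, f_15_17_21, f_15_17_22]
noncomputable def f_15_18 : List (List (List Nat)) :=
 [f_15_18_18, f_15_18_19, f_15_18_20, f_15_18_21, f_15_18_22]
noncomputable def f_15_19 : List (List (List Nat)) :=
 [f_15_19_19, f_15_19_20, f_15_19_21, f_15_19_22]
noncomputable def f_15_20 : List (List (List Nat)) :=
 [f_15_20_20, f_15_20_21, f_15_20_22]
noncomputable def f_15_21 : List (List (List Nat)) :=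
 [f_15_21_21, f_15_21_22]
noncomputable def f_15_22 : List (List (List Nat)) :=
 [f_15_22_22]
noncomputable def f_15 : List (List (List (List Nat))) :=
 [f_15_15, f_15_16, f_15_17, f_15_18, f_15_19, f_15_20, f_15_21, f_15_22]
noncomputable def f_16_16 : List (List (List Nat)) :=
 [f_16_16_16, f_16_16_17, f_16_16_18, f_16_16_19, f_16_16_20, f_16_16_21, f_16_16_22]
noncomputable def f_16_17 : List (List (List Nat)) :=
 [f_16_17_17, f_16_17_18, f_16_17_19, f_16_17_20, f_16_17_21, f_16_17_22]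
noncomputable def f_16_18 : List (List (List Nat)) :=
 [f_16_18_18, f_16_18_19, f_16_18_20, f_16_18_21, f_16_18_22]
noncomputable def f_16_19 : List (List (List Nat)) :=
 [f_16_19_19, f_16_19_20, f_16_19_21, f_16_19_22]
noncomputable def f_16_20 : List (List (List Nat)) :=
 [f_16_20_20, f_16_20_21, f_16_20_22]
noncomputable def f_16_21 : List (List (List Nat)) :=
 [f_16_21_21, f_16_21_22]
noncomputable def f_16_22 : List (List (List Nat)) :=
 [f_16_22_22]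
noncomputable def f_16 : List (List (List (List Nat))) :=
 [f_16_16, f_16_17, f_16_18, f_16_19, f_16_20, f_16_21, f_16_22]
noncomputable def f_17_17 : List (List (List Nat)) :=
 [f_17_17_17, f_17_17_18, f_17_17_19, f_17_17_20, f_17_17_21, f_17_17_22]
noncomputable def f_17_18 : List (List (List Nat)) :=
 [f_17_18_18, f_17_18_19, f_17_18_20, f_17_18_21, f_17_18_22]
noncomputable def f_17_19 : List (List (List Nat)) :=
 [f_17_19_19, f_17_19_20, f_17_19_21, f_17_19_22]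
noncomputable def f_17_20 : List (List (List Nat)) :=
 [f_17_20_20, f_17_20_21, f_17_20_22]
noncomputable def f_17_21 : List (List (List Nat)) :=
 [f_17_21_21, f_17_21_22]
noncomputable def f_17_22 : List (List (List Nat)) :=
 [f_17_22_22]
noncomputable def f_17 : List (List (List (List Nat))) :=
 [f_17_17, f_17_18, f_17_19, f_17_20, f_17_21, f_17_22]
noncomputable def f_18_18 : List (List (List Nat)) :=
 [f_18_18_18, f_18_18_19, f_18_18_20, f_18_18_21, f_18_18_22]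
noncomputable def f_18_19 : List (List (List Nat)) :=
 [f_18_19_19, f_18_19_20, f_18_19_21, f_18_19_22]
noncomputable def f_18_20 : List (List (List Nat)) :=
 [f_18_20_20, f_18_20_21, f_18_20_22]
noncomputable def f_18_21 : List (List (List Nat)) :=
 [f_18_21_21, f_18_21_22]
noncomputable def f_18_22 : List (List (List Nat)) :=
 [f_18_22_22]
noncomputable def f_18 : List (List (List (List Nat))) :=
 [f_18_18, f_18_19, f_18_20, f_18_21, f_18_22]
noncomputable def f_19_19 : List (List (List Nat)) :=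
 [f_19_19_19, f_19_19_20, f_19_19_21, f_19_19_22]
noncomputable def f_19_20 : List (List (List Nat)) :=
 [f_19_20_20, f_19_20_21, f_19_20_22]
noncomputable def f_19_21 : List (List (List Nat)) :=
 [f_19_21_21, f_19_21_22]
noncomputable def f_19_22 : List (List (List Nat)) :=
 [f_19_22_22]
noncomputable def f_19 : List (List (List (List Nat))) :=
 [f_19_19, f_19_20, f_19_21, f_19_22]
noncomputable def f_20_20 : List (List (List Nat)) :=
 [f_20_20_20, f_20_20_21, f_20_20_22]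
noncomputable def f_20_21 : List (List (List Nat)) :=
 [f_20_21_21, f_20_21_22]
noncomputable def f_20_22 : List (List (List Nat)) :=
 [f_20_22_22]
noncomputable def f_20 : List (List (List (List Nat))) :=
 [f_20_20, f_20_21, f_20_22]
noncomputable def f_21_21 : List (List (List Nat)) :=
 [f_21_21_21, f_21_21_22]
noncomputable def f_21_22 : List (List (List Nat)) :=
 [f_21_22_22]
noncomputable def f_21 : List (List (List (List Nat))) :=
 [f_21_21, f_21_22]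
noncomputable def f_22_22 : List (List (List Nat)) :=
 [f_22_22_22]
noncomputable def f_22 : List (List (List (List Nat))) :=
 [f_22_22]
noncomputable def fa : List (List (List (List (List Nat)))) :=
 [f_0, f_1, f_2, f_3, f_4, f_5, f_6, f_7, f_8, f_9, f_10, f_11, f_12, f_13, f_14, f_15, f_16, f_17, f_18, f_19, f_20, f_21, f_22]
/-- the record of a box -/
noncomputable def fr (i j k : Nat) : List (List Nat) :=
  nth [] (nth [] (nth [] fa i) (Nat.sub j i)) (Nat.sub k j)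

end Pool.Agent.MP_48470b_gt.Dat
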