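import Pool.Agent.MP_48470b_gt.Dat.G0
import Pool.Agent.MP_48470b_gt.Dat.G1
import Pool.Agent.MP_48470b_gt.Dat.G2
import Pool.Agent.MP_48470b_gt.Dat.G3
import Pool.Agent.MP_48470b_gt.Dat.G4
import Pool.Agent.MP_48470b_gt.Dat.G5
import Pool.Agent.MP_48470b_gt.Dat.G6
import Pool.Agent.MP_48470b_gt.Dat.G7
import Pool.Agent.MP_48470b_gt.Dat.G8
import Pool.Agent.MP_48470b_gt.Dat.G9
import Pool.Agent.MP_48470b_gt.Dat.G10
import Pool.Agent.MP_48470b_gt.Dat.G11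
import Pool.Agent.MP_48470b_gt.Dat.G12
import Pool.Agent.MP_48470b_gt.Dat.G13
import Pool.Agent.MP_48470b_gt.Dat.G14
import Pool.Agent.MP_48470b_gt.Dat.Nth

/-! The table of the records. -/

namespace Pool.Agent.MP_48470b_gt.Dat

noncomputable def g_0_0 : List (List (List Nat)) :=
 [g_0_0_0, g_0_0_1, g_0_0_2, g_0_0_3, g_0_0_4, g_0_0_5, g_0_0_6, g_0_0_7, g_0_0_8, g_0_0_9, g_0_0_10, g_0_0_11, g_0_0_12, g_0_0_13, g_0_0_14, g_0_0_15, g_0_0_16, g_0_0_17, g_0_0_18, g_0_0_19, g_0_0_20, g_0_0_21, g_0_0_22]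
noncomputable def g_0_1 : List (List (List Nat)) :=
 [g_0_1_1, g_0_1_2, g_0_1_3, g_0_1_4, g_0_1_5, g_0_1_6, g_0_1_7, g_0_1_8, g_0_1_9, g_0_1_10, g_0_1_11, g_0_1_12, g_0_1_13, g_0_1_14, g_0_1_15, g_0_1_16, g_0_1_17, g_0_1_18, g_0_1_19, g_0_1_20, g_0_1_21, g_0_1_22]
noncomputable def g_0_2 : List (List (List Nat)) :=
 [g_0_2_2, g_0_2_3, g_0_2_4, g_0_2_5, g_0_2_6, g_0_2_7, g_0_2_8, g_0_2_9, g_0_2_10, g_0_2_11, g_0_2_12, g_0_2_13, g_0_2_14, g_0_2_15, g_0_2_16, g_0_2_17, g_0_2_18, g_0_2_19, g_0_2_20, g_0_2_21, g_0_2_22]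
noncomputable def g_0_3 : List (List (List Nat)) :=
 [g_0_3_3, g_0_3_4, g_0_3_5, g_0_3_6, g_0_3_7, g_0_3_8, g_0_3_9, g_0_3_10, g_0_3_11, g_0_3_12, g_0_3_13, g_0_3_14, g_0_3_15, g_0_3_16, g_0_3_17, g_0_3_18, g_0_3_19, g_0_3_20, g_0_3_21, g_0_3_22]
noncomputable def g_0_4 : List (List (List Nat)) :=
 [g_0_4_4, g_0_4_5, g_0_4_6, g_0_4_7, g_0_4_8, g_0_4_9, g_0_4_10, g_0_4_11, g_0_4_12, g_0_4_13, g_0_4_14, g_0_4_15, g_0_4_16, g_0_4_17, g_0_4_18, g_0_4_19, g_0_4_20, g_0_4_21, g_0_4_22]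
noncomputable def g_0_5 : List (List (List Nat)) :=
 [g_0_5_5, g_0_5_6, g_0_5_7, g_0_5_8, g_0_5_9, g_0_5_10, g_0_5_11, g_0_5_12, g_0_5_13, g_0_5_14, g_0_5_15, g_0_5_16, g_0_5_17, g_0_5_18, g_0_5_19, g_0_5_20, g_0_5_21, g_0_5_22]
noncomputable def g_0_6 : List (List (List Nat)) :=
 [g_0_6_6, g_0_6_7, g_0_6_8, g_0_6_9, g_0_6_10, g_0_6_11, g_0_6_12, g_0_6_13, g_0_6_14, g_0_6_15, g_0_6_16, g_0_6_17, g_0_6_18, g_0_6_19, g_0_6_20, g_0_6_21, g_0_6_22]
noncomputable def g_0_7 : List (List (List Nat)) :=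
 [g_0_7_7, g_0_7_8, g_0_7_9, g_0_7_10, g_0_7_11, g_0_7_12, g_0_7_13, g_0_7_14, g_0_7_15, g_0_7_16, g_0_7_17, g_0_7_18, g_0_7_19, g_0_7_20, g_0_7_21, g_0_7_22]
noncomputable def g_0_8 : List (List (List Nat)) :=
 [g_0_8_8, g_0_8_9, g_0_8_10, g_0_8_11, g_0_8_12, g_0_8_13, g_0_8_14, g_0_8_15, g_0_8_16, g_0_8_17, g_0_8_18, g_0_8_19, g_0_8_20, g_0_8_21, g_0_8_22]
noncomputable def g_0_9 : List (List (List Nat)) :=
 [g_0_9_9, g_0_9_10, g_0_9_11, g_0_9_12, g_0_9_13, g_0_9_14, g_0_9_15, g_0_9_16, g_0_9_17, g_0_9_18, g_0_9_19, g_0_9_20, g_0_9_21, g_0_9_22]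
noncomputable def g_0_10 : List (List (List Nat)) :=
 [g_0_10_10, g_0_10_11, g_0_10_12, g_0_10_13, g_0_10_14, g_0_10_15, g_0_10_16, g_0_10_17, g_0_10_18, g_0_10_19, g_0_10_20, g_0_10_21, g_0_10_22]
noncomputable def g_0_11 : List (List (List Nat)) :=
 [g_0_11_11, g_0_11_12, g_0_11_13, g_0_11_14, g_0_11_15, g_0_11_16, g_0_11_17, g_0_11_18, g_0_11_19, g_0_11_20, g_0_11_21, g_0_11_22]
noncomputable def g_0_12 : List (List (List Nat)) :=
 [g_0_12_12, g_0_12_13, g_0_12_14, g_0_12_15, g_0_12_16, g_0_12_17, g_0_12_18, g_0_12_19, g_0_12_20, g_0_12_21, g_0_12_22]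
noncomputable def g_0_13 : List (List (List Nat)) :=
 [g_0_13_13, g_0_13_14, g_0_13_15, g_0_13_16, g_0_13_17, g_0_13_18, g_0_13_19, g_0_13_20, g_0_13_21, g_0_13_22]
noncomputable def g_0_14 : List (List (List Nat)) :=
 [g_0_14_14, g_0_14_15, g_0_14_16, g_0_14_17, g_0_14_18, g_0_14_19, g_0_14_20, g_0_14_21, g_0_14_22]
noncomputable def g_0_15 : List (List (List Nat)) :=
 [g_0_15_15, g_0_15_16, g_0_15_17, g_0_15_18, g_0_15_19, g_0_15_20, g_0_15_21, g_0_15_22]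
noncomputable def g_0_16 : List (List (List Nat)) :=
 [g_0_16_16, g_0_16_17, g_0_16_18, g_0_16_19, g_0_16_20, g_0_16_21, g_0_16_22]
noncomputable def g_0_17 : List (List (List Nat)) :=
 [g_0_17_17, g_0_17_18, g_0_17_19, g_0_17_20, g_0_17_21, g_0_17_22]
noncomputable def g_0_18 : List (List (List Nat)) :=
 [g_0_18_18, g_0_18_19, g_0_18_20, g_0_18_21, g_0_18_22]
noncomputable def g_0_19 : List (List (List Nat)) :=
 [g_0_19_19, g_0_19_20, g_0_19_21, g_0_19_22]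
noncomputable def g_0_20 : List (List (List Nat)) :=
 [g_0_20_20, g_0_20_21, g_0_20_22]
noncomputable def g_0_21 : List (List (List Nat)) :=
 [g_0_21_21, g_0_21_22]
noncomputable def g_0_22 : List (List (List Nat)) :=
 [g_0_22_22]
noncomputable def g_0 : List (List (List (List Nat))) :=
 [g_0_0, g_0_1, g_0_2, g_0_3, g_0_4, g_0_5, g_0_6, g_0_7, g_0_8, g_0_9, g_0_10, g_0_11, g_0_12, g_0_13, g_0_14, g_0_15, g_0_16, g_0_17, g_0_18, g_0_19, g_0_20, g_0_21, g_0_22]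
noncomputable def g_1_1 : List (List (List Nat)) :=
 [g_1_1_1, g_1_1_2, g_1_1_3, g_1_1_4, g_1_1_5, g_1_1_6, g_1_1_7, g_1_1_8, g_1_1_9, g_1_1_10, g_1_1_11, g_1_1_12, g_1_1_13, g_1_1_14, g_1_1_15, g_1_1_16, g_1_1_17, g_1_1_18, g_1_1_19, g_1_1_20, g_1_1_21, g_1_1_22]
noncomputable def g_1_2 : List (List (List Nat)) :=
 [g_1_2_2, g_1_2_3, g_1_2_4, g_1_2_5, g_1_2_6, g_1_2_7, g_1_2_8, g_1_2_9, g_1_2_10, g_1_2_11, g_1_2_12, g_1_2_13, g_1_2_14, g_1_2_15, g_1_2_16, g_1_2_17, g_1_2_18, g_1_2_19, g_1_2_20, g_1_2_21, g_1_2_22]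
noncomputable def g_1_3 : List (List (List Nat)) :=
 [g_1_3_3, g_1_3_4, g_1_3_5, g_1_3_6, g_1_3_7, g_1_3_8, g_1_3_9, g_1_3_10, g_1_3_11, g_1_3_12, g_1_3_13, g_1_3_14, g_1_3_15, g_1_3_16, g_1_3_17, g_1_3_18, g_1_3_19, g_1_3_20, g_1_3_21, g_1_3_22]
noncomputable def g_1_4 : List (List (List Nat)) :=
 [g_1_4_4, g_1_4_5, g_1_4_6, g_1_4_7, g_1_4_8, g_1_4_9, g_1_4_10, g_1_4_11, g_1_4_12, g_1_4_13, g_1_4_14, g_1_4_15, g_1_4_16, g_1_4_17, g_1_4_18, g_1_4_19, g_1_4_20, g_1_4_21, g_1_4_22]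
noncomputable def g_1_5 : List (List (List Nat)) :=
 [g_1_5_5, g_1_5_6, g_1_5_7, g_1_5_8, g_1_5_9, g_1_5_10, g_1_5_11, g_1_5_12, g_1_5_13, g_1_5_14, g_1_5_15, g_1_5_16, g_1_5_17, g_1_5_18, g_1_5_19, g_1_5_20, g_1_5_21, g_1_5_22]
noncomputable def g_1_6 : List (List (List Nat)) :=
 [g_1_6_6, g_1_6_7, g_1_6_8, g_1_6_9, g_1_6_10, g_1_6_11, g_1_6_12, g_1_6_13, g_1_6_14, g_1_6_15, g_1_6_16, g_1_6_17, g_1_6_18, g_1_6_19, g_1_6_20, g_1_6_21, g_1_6_22]
noncomputable def g_1_7 : List (List (List Nat)) :=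
 [g_1_7_7, g_1_7_8, g_1_7_9, g_1_7_10, g_1_7_11, g_1_7_12, g_1_7_13, g_1_7_14, g_1_7_15, g_1_7_16, g_1_7_17, g_1_7_18, g_1_7_19, g_1_7_20, g_1_7_21, g_1_7_22]
noncomputable def g_1_8 : List (List (List Nat)) :=
 [g_1_8_8, g_1_8_9, g_1_8_10, g_1_8_11, g_1_8_12, g_1_8_13, g_1_8_14, g_1_8_15, g_1_8_16, g_1_8_17, g_1_8_18, g_1_8_19, g_1_8_20, g_1_8_21, g_1_8_22]
noncomputable def g_1_9 : List (List (List Nat)) :=
 [g_1_9_9, g_1_9_10, g_1_9_11, g_1_9_12, g_1_9_13, g_1_9_14, g_1_9_15, g_1_9_16, g_1_9_17, g_1_9_18, g_1_9_19, g_1_9_20, g_1_9_21, g_1_9_22]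
noncomputable def g_1_10 : List (List (List Nat)) :=
 [g_1_10_10, g_1_10_11, g_1_10_12, g_1_10_13, g_1_10_14, g_1_10_15, g_1_10_16, g_1_10_17, g_1_10_18, g_1_10_19, g_1_10_20, g_1_10_21, g_1_10_22]
noncomputable def g_1_11 : List (List (List Nat)) :=
 [g_1_11_11, g_1_11_12, g_1_11_13, g_1_11_14, g_1_11_15, g_1_11_16, g_1_11_17, g_1_11_18, g_1_11_19, g_1_11_20, g_1_11_21, g_1_11_22]
noncomputable def g_1_12 : List (List (List Nat)) :=
 [g_1_12_12, g_1_12_13, g_1_12_14, g_1_12_15, g_1_12_16, g_1_12_17, g_1_12_18, g_1_12_19, g_1_12_20, g_1_12_21, g_1_12_22]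
noncomputable def g_1_13 : List (List (List Nat)) :=
 [g_1_13_13, g_1_13_14, g_1_13_15, g_1_13_16, g_1_13_17, g_1_13_18, g_1_13_19, g_1_13_20, g_1_13_21, g_1_13_22]
noncomputable def g_1_14 : List (List (List Nat)) :=
 [g_1_14_14, g_1_14_15, g_1_14_16, g_1_14_17, g_1_14_18, g_1_14_19, g_1_14_20, g_1_14_21, g_1_14_22]
noncomputable def g_1_15 : List (List (List Nat)) :=
 [g_1_15_15, g_1_15_16, g_1_15_17, g_1_15_18, g_1_15_19, g_1_15_20, g_1_15_21, g_1_15_22]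
noncomputable def g_1_16 : List (List (List Nat)) :=
 [g_1_16_16, g_1_16_17, g_1_16_18, g_1_16_19, g_1_16_20, g_1_16_21, g_1_16_22]
noncomputable def g_1_17 : List (List (List Nat)) :=
 [g_1_17_17, g_1_17_18, g_1_17_19, g_1_17_20, g_1_17_21, g_1_17_22]
noncomputable def g_1_18 : List (List (List Nat)) :=
 [g_1_18_18, g_1_18_19, g_1_18_20, g_1_18_21, g_1_18_22]
noncomputable def g_1_19 : List (List (List Nat)) :=
 [g_1_19_19, g_1_19_20, g_1_19_21, g_1_19_22]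
noncomputable def g_1_20 : List (List (List Nat)) :=
 [g_1_20_20, g_1_20_21, g_1_20_22]
noncomputable def g_1_21 : List (List (List Nat)) :=
 [g_1_21_21, g_1_21_22]
noncomputable def g_1_22 : List (List (List Nat)) :=
 [g_1_22_22]
noncomputable def g_1 : List (List (List (List Nat))) :=
 [g_1_1, g_1_2, g_1_3, g_1_4, g_1_5, g_1_6, g_1_7, g_1_8, g_1_9, g_1_10, g_1_11, g_1_12, g_1_13, g_1_14, g_1_15, g_1_16, g_1_17, g_1_18, g_1_19, g_1_20, g_1_21, g_1_22]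
noncomputable def g_2_2 : List (List (List Nat)) :=
 [g_2_2_2, g_2_2_3, g_2_2_4, g_2_2_5, g_2_2_6, g_2_2_7, g_2_2_8, g_2_2_9, g_2_2_10, g_2_2_11, g_2_2_12, g_2_2_13, g_2_2_14, g_2_2_15, g_2_2_16, g_2_2_17, g_2_2_18, g_2_2_19, g_2_2_20, g_2_2_21, g_2_2_22]
noncomputable def g_2_3 : List (List (List Nat)) :=
 [g_2_3_3, g_2_3_4, g_2_3_5, g_2_3_6, g_2_3_7, g_2_3_8, g_2_3_9, g_2_3_10, g_2_3_11, g_2_3_12, g_2_3_13, g_2_3_14, g_2_3_15, g_2_3_16, g_2_3_17, g_2_3_18, g_2_3_19, g_2_3_20, g_2_3_21, g_2_3_22]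
noncomputable def g_2_4 : List (List (List Nat)) :=
 [g_2_4_4, g_2_4_5, g_2_4_6, g_2_4_7, g_2_4_8, g_2_4_9, g_2_4_10, g_2_4_11, g_2_4_12, g_2_4_13, g_2_4_14, g_2_4_15, g_2_4_16, g_2_4_17, g_2_4_18, g_2_4_19, g_2_4_20, g_2_4_21, g_2_4_22]
noncomputable def g_2_5 : List (List (List Nat)) :=
 [g_2_5_5, g_2_5_6, g_2_5_7, g_2_5_8, g_2_5_9, g_2_5_10, g_2_5_11, g_2_5_12, g_2_5_13, g_2_5_14, g_2_5_15, g_2_5_16, g_2_5_17, g_2_5_18, g_2_5_19, g_2_5_20, g_2_5_21, g_2_5_22]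
noncomputable def g_2_6 : List (List (List Nat)) :=
 [g_2_6_6, g_2_6_7, g_2_6_8, g_2_6_9, g_2_6_10, g_2_6_11, g_2_6_12, g_2_6_13, g_2_6_14, g_2_6_15, g_2_6_16, g_2_6_17, g_2_6_18, g_2_6_19, g_2_6_20, g_2_6_21, g_2_6_22]
noncomputable def g_2_7 : List (List (List Nat)) :=
 [g_2_7_7, g_2_7_8, g_2_7_9, g_2_7_10, g_2_7_11, g_2_7_12, g_2_7_13, g_2_7_14, g_2_7_15, g_2_7_16, g_2_7_17, g_2_7_18, g_2_7_19, g_2_7_20, g_2_7_21, g_2_7_22]
noncomputable def g_2_8 : List (List (List Nat)) :=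
 [g_2_8_8, g_2_8_9, g_2_8_10, g_2_8_11, g_2_8_12, g_2_8_13, g_2_8_14, g_2_8_15, g_2_8_16, g_2_8_17, g_2_8_18, g_2_8_19, g_2_8_20, g_2_8_21, g_2_8_22]
noncomputable def g_2_9 : List (List (List Nat)) :=
 [g_2_9_9, g_2_9_10, g_2_9_11, g_2_9_12, g_2_9_13, g_2_9_14, g_2_9_15, g_2_9_16, g_2_9_17, g_2_9_18, g_2_9_19, g_2_9_20, g_2_9_21, g_2_9_22]
noncomputable def g_2_10 : List (List (List Nat)) :=
 [g_2_10_10, g_2_10_11, g_2_10_12, g_2_10_13, g_2_10_14, g_2_10_15, g_2_10_16, g_2_10_17, g_2_10_18, g_2_10_19, g_2_10_20, g_2_10_21, g_2_10_22]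
noncomputable def g_2_11 : List (List (List Nat)) :=
 [g_2_11_11, g_2_11_12, g_2_11_13, g_2_11_14, g_2_11_15, g_2_11_16, g_2_11_17, g_2_11_18, g_2_11_19, g_2_11_20, g_2_11_21, g_2_11_22]
noncomputable def g_2_12 : List (List (List Nat)) :=
 [g_2_12_12, g_2_12_13, g_2_12_14, g_2_12_15, g_2_12_16, g_2_12_17, g_2_12_18, g_2_12_19, g_2_12_20, g_2_12_21, g_2_12_22]
noncomputable def g_2_13 : List (List (List Nat)) :=
 [g_2_13_13, g_2_13_14, g_2_13_15, g_2_13_16, g_2_13_17, g_2_13_18, g_2_13_19, g_2_13_20, g_2_13_21, g_2_13_22]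
noncomputable def g_2_14 : List (List (List Nat)) :=
 [g_2_14_14, g_2_14_15, g_2_14_16, g_2_14_17, g_2_14_18, g_2_14_19, g_2_14_20, g_2_14_21, g_2_14_22]
noncomputable def g_2_15 : List (List (List Nat)) :=
 [g_2_15_15, g_2_15_16, g_2_15_17, g_2_15_18, g_2_15_19, g_2_15_20, g_2_15_21, g_2_15_22]
noncomputable def g_2_16 : List (List (List Nat)) :=
 [g_2_16_16, g_2_16_17, g_2_16_18, g_2_16_19, g_2_16_20, g_2_16_21, g_2_16_22]
noncomputable def g_2_17 : List (List (List Nat)) :=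
 [g_2_17_17, g_2_17_18, g_2_17_19, g_2_17_20, g_2_17_21, g_2_17_22]
noncomputable def g_2_18 : List (List (List Nat)) :=
 [g_2_18_18, g_2_18_19, g_2_18_20, g_2_18_21, g_2_18_22]
noncomputable def g_2_19 : List (List (List Nat)) :=
 [g_2_19_19, g_2_19_20, g_2_19_21, g_2_19_22]
noncomputable def g_2_20 : List (List (List Nat)) :=
 [g_2_20_20, g_2_20_21, g_2_20_22]
noncomputable def g_2_21 : List (List (List Nat)) :=
 [g_2_21_21, g_2_21_22]
noncomputable def g_2_22 : List (List (List Nat)) :=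
 [g_2_22_22]
noncomputable def g_2 : List (List (List (List Nat))) :=
 [g_2_2, g_2_3, g_2_4, g_2_5, g_2_6, g_2_7, g_2_8, g_2_9, g_2_10, g_2_11, g_2_12, g_2_13, g_2_14, g_2_15, g_2_16, g_2_17, g_2_18, g_2_19, g_2_20, g_2_21, g_2_22]
noncomputable def g_3_3 : List (List (List Nat)) :=
 [g_3_3_3, g_3_3_4, g_3_3_5, g_3_3_6, g_3_3_7, g_3_3_8, g_3_3_9, g_3_3_10, g_3_3_11, g_3_3_12, g_3_3_13, g_3_3_14, g_3_3_15, g_3_3_16, g_3_3_17, g_3_3_18, g_3_3_19, g_3_3_20, g_3_3_21, g_3_3_22]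
noncomputable def g_3_4 : List (List (List Nat)) :=
 [g_3_4_4, g_3_4_5, g_3_4_6, g_3_4_7, g_3_4_8, g_3_4_9, g_3_4_10, g_3_4_11, g_3_4_12, g_3_4_13, g_3_4_14, g_3_4_15, g_3_4_16, g_3_4_17, g_3_4_18, g_3_4_19, g_3_4_20, g_3_4_21, g_3_4_22]
noncomputable def g_3_5 : List (List (List Nat)) :=
 [g_3_5_5, g_3_5_6, g_3_5_7, g_3_5_8, g_3_5_9, g_3_5_10, g_3_5_11, g_3_5_12, g_3_5_13, g_3_5_14, g_3_5_15, g_3_5_16, g_3_5_17, g_3_5_18, g_3_5_19, g_3_5_20, g_3_5_21, g_3_5_22]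
noncomputable def g_3_6 : List (List (List Nat)) :=
 [g_3_6_6, g_3_6_7, g_3_6_8, g_3_6_9, g_3_6_10, g_3_6_11, g_3_6_12, g_3_6_13, g_3_6_14, g_3_6_15, g_3_6_16, g_3_6_17, g_3_6_18, g_3_6_19, g_3_6_20, g_3_6_21, g_3_6_22]
noncomputable def g_3_7 : List (List (List Nat)) :=
 [g_3_7_7, g_3_7_8, g_3_7_9, g_3_7_10, g_3_7_11, g_3_7_12, g_3_7_13, g_3_7_14, g_3_7_15, g_3_7_16, g_3_7_17, g_3_7_18, g_3_7_19, g_3_7_20, g_3_7_21, g_3_7_22]
noncomputable def g_3_8 : List (List (List Nat)) :=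
 [g_3_8_8, g_3_8_9, g_3_8_10, g_3_8_11, g_3_8_12, g_3_8_13, g_3_8_14, g_3_8_15, g_3_8_16, g_3_8_17, g_3_8_18, g_3_8_19, g_3_8_20, g_3_8_21, g_3_8_22]
noncomputable def g_3_9 : List (List (List Nat)) :=
 [g_3_9_9, g_3_9_10, g_3_9_11, g_3_9_12, g_3_9_13, g_3_9_14, g_3_9_15, g_3_9_16, g_3_9_17, g_3_9_18, g_3_9_19, g_3_9_20, g_3_9_21, g_3_9_22]
noncomputable def g_3_10 : List (List (List Nat)) :=
 [g_3_10_10, g_3_10_11, g_3_10_12, g_3_10_13, g_3_10_14, g_3_10_15, g_3_10_16, g_3_10_17, g_3_10_18, g_3_10_19, g_3_10_20, g_3_10_21, g_3_10_22]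
noncomputable def g_3_11 : List (List (List Nat)) :=
 [g_3_11_11, g_3_11_12, g_3_11_13, g_3_11_14, g_3_11_15, g_3_11_16, g_3_11_17, g_3_11_18, g_3_11_19, g_3_11_20, g_3_11_21, g_3_11_22]
noncomputable def g_3_12 : List (List (List Nat)) :=
 [g_3_12_12, g_3_12_13, g_3_12_14, g_3_12_15, g_3_12_16, g_3_12_17, g_3_12_18, g_3_12_19, g_3_12_20, g_3_12_21, g_3_12_22]
noncomputable def g_3_13 : List (List (List Nat)) :=
 [g_3_13_13, g_3_13_14, g_3_13_15, g_3_13_16, g_3_13_17, g_3_13_18, g_3_13_19, g_3_13_20, g_3_13_21, g_3_13_22]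
noncomputable def g_3_14 : List (List (List Nat)) :=
 [g_3_14_14, g_3_14_15, g_3_14_16, g_3_14_17, g_3_14_18, g_3_14_19, g_3_14_20, g_3_14_21, g_3_14_22]
noncomputable def g_3_15 : List (List (List Nat)) :=
 [g_3_15_15, g_3_15_16, g_3_15_17, g_3_15_18, g_3_15_19, g_3_15_20, g_3_15_21, g_3_15_22]
noncomputable def g_3_16 : List (List (List Nat)) :=
 [g_3_16_16, g_3_16_17, g_3_16_18, g_3_16_19, g_3_16_20, g_3_16_21, g_3_16_22]
noncomputable def g_3_17 : List (List (List Nat)) :=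
 [g_3_17_17, g_3_17_18, g_3_17_19, g_3_17_20, g_3_17_21, g_3_17_22]
noncomputable def g_3_18 : List (List (List Nat)) :=
 [g_3_18_18, g_3_18_19, g_3_18_20, g_3_18_21, g_3_18_22]
noncomputable def g_3_19 : List (List (List Nat)) :=
 [g_3_19_19, g_3_19_20, g_3_19_21, g_3_19_22]
noncomputable def g_3_20 : List (List (List Nat)) :=
 [g_3_20_20, g_3_20_21, g_3_20_22]
noncomputable def g_3_21 : List (List (List Nat)) :=
 [g_3_21_21, g_3_21_22]
noncomputable def g_3_22 : List (List (List Nat)) :=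
 [g_3_22_22]
noncomputable def g_3 : List (List (List (List Nat))) :=
 [g_3_3, g_3_4, g_3_5, g_3_6, g_3_7, g_3_8, g_3_9, g_3_10, g_3_11, g_3_12, g_3_13, g_3_14, g_3_15, g_3_16, g_3_17, g_3_18, g_3_19, g_3_20, g_3_21, g_3_22]
noncomputable def g_4_4 : List (List (List Nat)) :=
 [g_4_4_4, g_4_4_5, g_4_4_6, g_4_4_7, g_4_4_8, g_4_4_9, g_4_4_10, g_4_4_11, g_4_4_12, g_4_4_13, g_4_4_14, g_4_4_15, g_4_4_16, g_4_4_17, g_4_4_18, g_4_4_19, g_4_4_20, g_4_4_21, g_4_4_22]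
noncomputable def g_4_5 : List (List (List Nat)) :=
 [g_4_5_5, g_4_5_6, g_4_5_7, g_4_5_8, g_4_5_9, g_4_5_10, g_4_5_11, g_4_5_12, g_4_5_13, g_4_5_14, g_4_5_15, g_4_5_16, g_4_5_17, g_4_5_18, g_4_5_19, g_4_5_20, g_4_5_21, g_4_5_22]
noncomputable def g_4_6 : List (List (List Nat)) :=
 [g_4_6_6, g_4_6_7, g_4_6_8, g_4_6_9, g_4_6_10, g_4_6_11, g_4_6_12, g_4_6_13, g_4_6_14, g_4_6_15, g_4_6_16, g_4_6_17, g_4_6_18, g_4_6_19, g_4_6_20, g_4_6_21, g_4_6_22]
noncomputable def g_4_7 : List (List (List Nat)) :=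
 [g_4_7_7, g_4_7_8, g_4_7_9, g_4_7_10, g_4_7_11, g_4_7_12, g_4_7_13, g_4_7_14, g_4_7_15, g_4_7_16, g_4_7_17, g_4_7_18, g_4_7_19, g_4_7_20, g_4_7_21, g_4_7_22]
noncomputable def g_4_8 : List (List (List Nat)) :=
 [g_4_8_8, g_4_8_9, g_4_8_10, g_4_8_11, g_4_8_12, g_4_8_13, g_4_8_14, g_4_8_15, g_4_8_16, g_4_8_17, g_4_8_18, g_4_8_19, g_4_8_20, g_4_8_21, g_4_8_22]
noncomputable def g_4_9 : List (List (List Nat)) :=
 [g_4_9_9, g_4_9_10, g_4_9_11, g_4_9_12, g_4_9_13, g_4_9_14, g_4_9_15, g_4_9_16, g_4_9_17, g_4_9_18, g_4_9_19, g_4_9_20, g_4_9_21, g_4_9_22]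
noncomputable def g_4_10 : List (List (List Nat)) :=
 [g_4_10_10, g_4_10_11, g_4_10_12, g_4_10_13, g_4_10_14, g_4_10_15, g_4_10_16, g_4_10_17, g_4_10_18, g_4_10_19, g_4_10_20, g_4_10_21, g_4_10_22]
noncomputable def g_4_11 : List (List (List Nat)) :=
 [g_4_11_11, g_4_11_12, g_4_11_13, g_4_11_14, g_4_11_15, g_4_11_16, g_4_11_17, g_4_11_18, g_4_11_19, g_4_11_20, g_4_11_21, g_4_11_22]
noncomputable def g_4_12 : List (List (List Nat)) :=
 [g_4_12_12, g_4_12_13, g_4_12_14, g_4_12_15, g_4_12_16, g_4_12_17, g_4_12_18, g_4_12_19, g_4_12_20, g_4_12_21, g_4_12_22]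
noncomputable def g_4_13 : List (List (List Nat)) :=
 [g_4_13_13, g_4_13_14, g_4_13_15, g_4_13_16, g_4_13_17, g_4_13_18, g_4_13_19, g_4_13_20, g_4_13_21, g_4_13_22]
noncomputable def g_4_14 : List (List (List Nat)) :=
 [g_4_14_14, g_4_14_15, g_4_14_16, g_4_14_17, g_4_14_18, g_4_14_19, g_4_14_20, g_4_14_21, g_4_14_22]
noncomputable def g_4_15 : List (List (List Nat)) :=
 [g_4_15_15, g_4_15_16, g_4_15_17, g_4_15_18, g_4_15_19, g_4_15_20, g_4_15_21, g_4_15_22]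
noncomputable def g_4_16 : List (List (List Nat)) :=
 [g_4_16_16, g_4_16_17, g_4_16_18, g_4_16_19, g_4_16_20, g_4_16_21, g_4_16_22]
noncomputable def g_4_17 : List (List (List Nat)) :=
 [g_4_17_17, g_4_17_18, g_4_17_19, g_4_17_20, g_4_17_21, g_4_17_22]
noncomputable def g_4_18 : List (List (List Nat)) :=
 [g_4_18_18, g_4_18_19, g_4_18_20, g_4_18_21, g_4_18_22]
noncomputable def g_4_19 : List (List (List Nat)) :=
 [g_4_19_19, g_4_19_20, g_4_19_21, g_4_19_22]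
noncomputable def g_4_20 : List (List (List Nat)) :=
 [g_4_20_20, g_4_20_21, g_4_20_22]
noncomputable def g_4_21 : List (List (List Nat)) :=
 [g_4_21_21, g_4_21_22]
noncomputable def g_4_22 : List (List (List Nat)) :=
 [g_4_22_22]
noncomputable def g_4 : List (List (List (List Nat))) :=
 [g_4_4, g_4_5, g_4_6, g_4_7, g_4_8, g_4_9, g_4_10, g_4_11, g_4_12, g_4_13, g_4_14, g_4_15, g_4_16, g_4_17, g_4_18, g_4_19, g_4_20, g_4_21, g_4_22]
noncomputable def g_5_5 : List (List (List Nat)) :=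
 [g_5_5_5, g_5_5_6, g_5_5_7, g_5_5_8, g_5_5_9, g_5_5_10, g_5_5_11, g_5_5_12, g_5_5_13, g_5_5_14, g_5_5_15, g_5_5_16, g_5_5_17, g_5_5_18, g_5_5_19, g_5_5_20, g_5_5_21, g_5_5_22]
noncomputable def g_5_6 : List (List (List Nat)) :=
 [g_5_6_6, g_5_6_7, g_5_6_8, g_5_6_9, g_5_6_10, g_5_6_11, g_5_6_12, g_5_6_13, g_5_6_14, g_5_6_15, g_5_6_16, g_5_6_17, g_5_6_18, g_5_6_19, g_5_6_20, g_5_6_21, g_5_6_22]
noncomputable def g_5_7 : List (List (List Nat)) :=
 [g_5_7_7, g_5_7_8, g_5_7_9, g_5_7_10, g_5_7_11, g_5_7_12, g_5_7_13, g_5_7_14, g_5_7_15, g_5_7_16, g_5_7_17, g_5_7_18, g_5_7_19, g_5_7_20, g_5_7_21, g_5_7_22]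
noncomputable def g_5_8 : List (List (List Nat)) :=
 [g_5_8_8, g_5_8_9, g_5_8_10, g_5_8_11, g_5_8_12, g_5_8_13, g_5_8_14, g_5_8_15, g_5_8_16, g_5_8_17, g_5_8_18, g_5_8_19, g_5_8_20, g_5_8_21, g_5_8_22]
noncomputable def g_5_9 : List (List (List Nat)) :=
 [g_5_9_9, g_5_9_10, g_5_9_11, g_5_9_12, g_5_9_13, g_5_9_14, g_5_9_15, g_5_9_16, g_5_9_17, g_5_9_18, g_5_9_19, g_5_9_20, g_5_9_21, g_5_9_22]
noncomputable def g_5_10 : List (List (List Nat)) :=
 [g_5_10_10, g_5_10_11, g_5_10_12, g_5_10_13, g_5_10_14, g_5_10_15, g_5_10_16, g_5_10_17, g_5_10_18, g_5_10_19, g_5_10_20, g_5_10_21, g_5_10_22]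
noncomputable def g_5_11 : List (List (List Nat)) :=
 [g_5_11_11, g_5_11_12, g_5_11_13, g_5_11_14, g_5_11_15, g_5_11_16, g_5_11_17, g_5_11_18, g_5_11_19, g_5_11_20, g_5_11_21, g_5_11_22]
noncomputable def g_5_12 : List (List (List Nat)) :=
 [g_5_12_12, g_5_12_13, g_5_12_14, g_5_12_15, g_5_12_16, g_5_12_17, g_5_12_18, g_5_12_19, g_5_12_20, g_5_12_21, g_5_12_22]
noncomputable def g_5_13 : List (List (List Nat)) :=
 [g_5_13_13, g_5_13_14, g_5_13_15, g_5_13_16, g_5_13_17, g_5_13_18, g_5_13_19, g_5_13_20, g_5_13_21, g_5_13_22]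
noncomputable def g_5_14 : List (List (List Nat)) :=
 [g_5_14_14, g_5_14_15, g_5_14_16, g_5_14_17, g_5_14_18, g_5_14_19, g_5_14_20, g_5_14_21, g_5_14_22]
noncomputable def g_5_15 : List (List (List Nat)) :=
 [g_5_15_15, g_5_15_16, g_5_15_17, g_5_15_18, g_5_15_19, g_5_15_20, g_5_15_21, g_5_15_22]
noncomputable def g_5_16 : List (List (List Nat)) :=
 [g_5_16_16, g_5_16_17, g_5_16_18, g_5_16_19, g_5_16_20, g_5_16_21, g_5_16_22]
noncomputable def g_5_17 : List (List (List Nat)) :=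
 [g_5_17_17, g_5_17_18, g_5_17_19, g_5_17_20, g_5_17_21, g_5_17_22]
noncomputable def g_5_18 : List (List (List Nat)) :=
 [g_5_18_18, g_5_18_19, g_5_18_20, g_5_18_21, g_5_18_22]
noncomputable def g_5_19 : List (List (List Nat)) :=
 [g_5_19_19, g_5_19_20, g_5_19_21, g_5_19_22]
noncomputable def g_5_20 : List (List (List Nat)) :=
 [g_5_20_20, g_5_20_21, g_5_20_22]
noncomputable def g_5_21 : List (List (List Nat)) :=
 [g_5_21_21, g_5_21_22]
noncomputable def g_5_22 : List (List (List Nat)) :=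
 [g_5_22_22]
noncomputable def g_5 : List (List (List (List Nat))) :=
 [g_5_5, g_5_6, g_5_7, g_5_8, g_5_9, g_5_10, g_5_11, g_5_12, g_5_13, g_5_14, g_5_15, g_5_16, g_5_17, g_5_18, g_5_19, g_5_20, g_5_21, g_5_22]
noncomputable def g_6_6 : List (List (List Nat)) :=
 [g_6_6_6, g_6_6_7, g_6_6_8, g_6_6_9, g_6_6_10, g_6_6_11, g_6_6_12, g_6_6_13, g_6_6_14, g_6_6_15, g_6_6_16, g_6_6_17, g_6_6_18, g_6_6_19, g_6_6_20, g_6_6_21, g_6_6_22]
noncomputable def g_6_7 : List (List (List Nat)) :=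
 [g_6_7_7, g_6_7_8, g_6_7_9, g_6_7_10, g_6_7_11, g_6_7_12, g_6_7_13, g_6_7_14, g_6_7_15, g_6_7_16, g_6_7_17, g_6_7_18, g_6_7_19, g_6_7_20, g_6_7_21, g_6_7_22]
noncomputable def g_6_8 : List (List (List Nat)) :=
 [g_6_8_8, g_6_8_9, g_6_8_10, g_6_8_11, g_6_8_12, g_6_8_13, g_6_8_14, g_6_8_15, g_6_8_16, g_6_8_17, g_6_8_18, g_6_8_19, g_6_8_20, g_6_8_21, g_6_8_22]
noncomputable def g_6_9 : List (List (List Nat)) :=
 [g_6_9_9, g_6_9_10, g_6_9_11, g_6_9_12, g_6_9_13, g_6_9_14, g_6_9_15, g_6_9_16, g_6_9_17, g_6_9_18, g_6_9_19, g_6_9_20, g_6_9_21, g_6_9_22]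
noncomputable def g_6_10 : List (List (List Nat)) :=
 [g_6_10_10, g_6_10_11, g_6_10_12, g_6_10_13, g_6_10_14, g_6_10_15, g_6_10_16, g_6_10_17, g_6_10_18, g_6_10_19, g_6_10_20, g_6_10_21, g_6_10_22]
noncomputable def g_6_11 : List (List (List Nat)) :=
 [g_6_11_11, g_6_11_12, g_6_11_13, g_6_11_14, g_6_11_15, g_6_11_16, g_6_11_17, g_6_11_18, g_6_11_19, g_6_11_20, g_6_11_21, g_6_11_22]
noncomputable def g_6_12 : List (List (List Nat)) :=
 [g_6_12_12, g_6_12_13, g_6_12_14, g_6_12_15, g_6_12_16, g_6_12_17, g_6_12_18, g_6_12_19, g_6_12_20, g_6_12_21, g_6_12_22]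
noncomputable def g_6_13 : List (List (List Nat)) :=
 [g_6_13_13, g_6_13_14, g_6_13_15, g_6_13_16, g_6_13_17, g_6_13_18, g_6_13_19, g_6_13_20, g_6_13_21, g_6_13_22]
noncomputable def g_6_14 : List (List (List Nat)) :=
 [g_6_14_14, g_6_14_15, g_6_14_16, g_6_14_17, g_6_14_18, g_6_14_19, g_6_14_20, g_6_14_21, g_6_14_22]
noncomputable def g_6_15 : List (List (List Nat)) :=
 [g_6_15_15, g_6_15_16, g_6_15_17, g_6_15_18, g_6_15_19, g_6_15_20, g_6_15_21, g_6_15_22]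
noncomputable def g_6_16 : List (List (List Nat)) :=
 [g_6_16_16, g_6_16_17, g_6_16_18, g_6_16_19, g_6_16_20, g_6_16_21, g_6_16_22]
noncomputable def g_6_17 : List (List (List Nat)) :=
 [g_6_17_17, g_6_17_18, g_6_17_19, g_6_17_20, g_6_17_21, g_6_17_22]
noncomputable def g_6_18 : List (List (List Nat)) :=
 [g_6_18_18, g_6_18_19, g_6_18_20, g_6_18_21, g_6_18_22]
noncomputable def g_6_19 : List (List (List Nat)) :=
 [g_6_19_19, g_6_19_20, g_6_19_21, g_6_19_22]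
noncomputable def g_6_20 : List (List (List Nat)) :=
 [g_6_20_20, g_6_20_21, g_6_20_22]
noncomputable def g_6_21 : List (List (List Nat)) :=
 [g_6_21_21, g_6_21_22]
noncomputable def g_6_22 : List (List (List Nat)) :=
 [g_6_22_22]
noncomputable def g_6 : List (List (List (List Nat))) :=
 [g_6_6, g_6_7, g_6_8, g_6_9, g_6_10, g_6_11, g_6_12, g_6_13, g_6_14, g_6_15, g_6_16, g_6_17, g_6_18, g_6_19, g_6_20, g_6_21, g_6_22]
noncomputable def g_7_7 : List (List (List Nat)) :=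
 [g_7_7_7, g_7_7_8, g_7_7_9, g_7_7_10, g_7_7_11, g_7_7_12, g_7_7_13, g_7_7_14, g_7_7_15, g_7_7_16, g_7_7_17, g_7_7_18, g_7_7_19, g_7_7_20, g_7_7_21, g_7_7_22]
noncomputable def g_7_8 : List (List (List Nat)) :=
 [g_7_8_8, g_7_8_9, g_7_8_10, g_7_8_11, g_7_8_12, g_7_8_13, g_7_8_14, g_7_8_15, g_7_8_16, g_7_8_17, g_7_8_18, g_7_8_19, g_7_8_20, g_7_8_21, g_7_8_22]
noncomputable def g_7_9 : List (List (List Nat)) :=
 [g_7_9_9, g_7_9_10, g_7_9_11, g_7_9_12, g_7_9_13, g_7_9_14, g_7_9_15, g_7_9_16, g_7_9_17, g_7_9_18, g_7_9_19, g_7_9_20, g_7_9_21, g_7_9_22]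
noncomputable def g_7_10 : List (List (List Nat)) :=
 [g_7_10_10, g_7_10_11, g_7_10_12, g_7_10_13, g_7_10_14, g_7_10_15, g_7_10_16, g_7_10_17, g_7_10_18, g_7_10_19, g_7_10_20, g_7_10_21, g_7_10_22]
noncomputable def g_7_11 : List (List (List Nat)) :=
 [g_7_11_11, g_7_11_12, g_7_11_13, g_7_11_14, g_7_11_15, g_7_11_16, g_7_11_17, g_7_11_18, g_7_11_19, g_7_11_20, g_7_11_21, g_7_11_22]
noncomputable def g_7_12 : List (List (List Nat)) :=
 [g_7_12_12, g_7_12_13, g_7_12_14, g_7_12_15, g_7_12_16, g_7_12_17, g_7_12_18, g_7_12_19, g_7_12_20, g_7_12_21, g_7_12_22]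
noncomputable def g_7_13 : List (List (List Nat)) :=
 [g_7_13_13, g_7_13_14, g_7_13_15, g_7_13_16, g_7_13_17, g_7_13_18, g_7_13_19, g_7_13_20, g_7_13_21, g_7_13_22]
noncomputable def g_7_14 : List (List (List Nat)) :=
 [g_7_14_14, g_7_14_15, g_7_14_16, g_7_14_17, g_7_14_18, g_7_14_19, g_7_14_20, g_7_14_21, g_7_14_22]
noncomputable def g_7_15 : List (List (List Nat)) :=
 [g_7_15_15, g_7_15_16, g_7_15_17, g_7_15_18, g_7_15_19, g_7_15_20, g_7_15_21, g_7_15_22]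
noncomputable def g_7_16 : List (List (List Nat)) :=
 [g_7_16_16, g_7_16_17, g_7_16_18, g_7_16_19, g_7_16_20, g_7_16_21, g_7_16_22]
noncomputable def g_7_17 : List (List (List Nat)) :=
 [g_7_17_17, g_7_17_18, g_7_17_19, g_7_17_20, g_7_17_21, g_7_17_22]
noncomputable def g_7_18 : List (List (List Nat)) :=
 [g_7_18_18, g_7_18_19, g_7_18_20, g_7_18_21, g_7_18_22]
noncomputable def g_7_19 : List (List (List Nat)) :=
 [g_7_19_19, g_7_19_20, g_7_19_21, g_7_19_22]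
noncomputable def g_7_20 : List (List (List Nat)) :=
 [g_7_20_20, g_7_20_21, g_7_20_22]
noncomputable def g_7_21 : List (List (List Nat)) :=
 [g_7_21_21, g_7_21_22]
noncomputable def g_7_22 : List (List (List Nat)) :=
 [g_7_22_22]
noncomputable def g_7 : List (List (List (List Nat))) :=
 [g_7_7, g_7_8, g_7_9, g_7_10, g_7_11, g_7_12, g_7_13, g_7_14, g_7_15, g_7_16, g_7_17, g_7_18, g_7_19, g_7_20, g_7_21, g_7_22]
noncomputable def g_8_8 : List (List (List Nat)) :=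
 [g_8_8_8, g_8_8_9, g_8_8_10, g_8_8_11, g_8_8_12, g_8_8_13, g_8_8_14, g_8_8_15, g_8_8_16, g_8_8_17, g_8_8_18, g_8_8_19, g_8_8_20, g_8_8_21, g_8_8_22]
noncomputable def g_8_9 : List (List (List Nat)) :=
 [g_8_9_9, g_8_9_10, g_8_9_11, g_8_9_12, g_8_9_13, g_8_9_14, g_8_9_15, g_8_9_16, g_8_9_17, g_8_9_18, g_8_9_19, g_8_9_20, g_8_9_21, g_8_9_22]
noncomputable def g_8_10 : List (List (List Nat)) :=
 [g_8_10_10, g_8_10_11, g_8_10_12, g_8_10_13, g_8_10_14, g_8_10_15, g_8_10_16, g_8_10_17, g_8_10_18, g_8_10_19, g_8_10_20, g_8_10_21, g_8_10_22]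
noncomputable def g_8_11 : List (List (List Nat)) :=
 [g_8_11_11, g_8_11_12, g_8_11_13, g_8_11_14, g_8_11_15, g_8_11_16, g_8_11_17, g_8_11_18, g_8_11_19, g_8_11_20, g_8_11_21, g_8_11_22]
noncomputable def g_8_12 : List (List (List Nat)) :=
 [g_8_12_12, g_8_12_13, g_8_12_14, g_8_12_15, g_8_12_16, g_8_12_17, g_8_12_18, g_8_12_19, g_8_12_20, g_8_12_21, g_8_12_22]
noncomputable def g_8_13 : List (List (List Nat)) :=
 [g_8_13_13, g_8_13_14, g_8_13_15, g_8_13_16, g_8_13_17, g_8_13_18, g_8_13_19, g_8_13_20, g_8_13_21, g_8_13_22]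
noncomputable def g_8_14 : List (List (List Nat)) :=
 [g_8_14_14, g_8_14_15, g_8_14_16, g_8_14_17, g_8_14_18, g_8_14_19, g_8_14_20, g_8_14_21, g_8_14_22]
noncomputable def g_8_15 : List (List (List Nat)) :=
 [g_8_15_15, g_8_15_16, g_8_15_17, g_8_15_18, g_8_15_19, g_8_15_20, g_8_15_21, g_8_15_22]
noncomputable def g_8_16 : List (List (List Nat)) :=
 [g_8_16_16, g_8_16_17, g_8_16_18, g_8_16_19, g_8_16_20, g_8_16_21, g_8_16_22]
noncomputable def g_8_17 : List (List (List Nat)) :=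
 [g_8_17_17, g_8_17_18, g_8_17_19, g_8_17_20, g_8_17_21, g_8_17_22]
noncomputable def g_8_18 : List (List (List Nat)) :=
 [g_8_18_18, g_8_18_19, g_8_18_20, g_8_18_21, g_8_18_22]
noncomputable def g_8_19 : List (List (List Nat)) :=
 [g_8_19_19, g_8_19_20, g_8_19_21, g_8_19_22]
noncomputable def g_8_20 : List (List (List Nat)) :=
 [g_8_20_20, g_8_20_21, g_8_20_22]
noncomputable def g_8_21 : List (List (List Nat)) :=
 [g_8_21_21, g_8_21_22]
noncomputable def g_8_22 : List (List (List Nat)) :=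
 [g_8_22_22]
noncomputable def g_8 : List (List (List (List Nat))) :=
 [g_8_8, g_8_9, g_8_10, g_8_11, g_8_12, g_8_13, g_8_14, g_8_15, g_8_16, g_8_17, g_8_18, g_8_19, g_8_20, g_8_21, g_8_22]
noncomputable def g_9_9 : List (List (List Nat)) :=
 [g_9_9_9, g_9_9_10, g_9_9_11, g_9_9_12, g_9_9_13, g_9_9_14, g_9_9_15, g_9_9_16, g_9_9_17, g_9_9_18, g_9_9_19, g_9_9_20, g_9_9_21, g_9_9_22]
noncomputable def g_9_10 : List (List (List Nat)) :=
 [g_9_10_10, g_9_10_11, g_9_10_12, g_9_10_13, g_9_10_14, g_9_10_15, g_9_10_16, g_9_10_17, g_9_10_18, g_9_10_19, g_9_10_20, g_9_10_21, g_9_10_22]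
noncomputable def g_9_11 : List (List (List Nat)) :=
 [g_9_11_11, g_9_11_12, g_9_11_13, g_9_11_14, g_9_11_15, g_9_11_16, g_9_11_17, g_9_11_18, g_9_11_19, g_9_11_20, g_9_11_21, g_9_11_22]
noncomputable def g_9_12 : List (List (List Nat)) :=
 [g_9_12_12, g_9_12_13, g_9_12_14, g_9_12_15, g_9_12_16, g_9_12_17, g_9_12_18, g_9_12_19, g_9_12_20, g_9_12_21, g_9_12_22]
noncomputable def g_9_13 : List (List (List Nat)) :=
 [g_9_13_13, g_9_13_14, g_9_13_15, g_9_13_16, g_9_13_17, g_9_13_18, g_9_13_19, g_9_13_20, g_9_13_21, g_9_13_22]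
noncomputable def g_9_14 : List (List (List Nat)) :=
 [g_9_14_14, g_9_14_15, g_9_14_16, g_9_14_17, g_9_14_18, g_9_14_19, g_9_14_20, g_9_14_21, g_9_14_22]
noncomputable def g_9_15 : List (List (List Nat)) :=
 [g_9_15_15, g_9_15_16, g_9_15_17, g_9_15_18, g_9_15_19, g_9_15_20, g_9_15_21, g_9_15_22]
noncomputable def g_9_16 : List (List (List Nat)) :=
 [g_9_16_16, g_9_16_17, g_9_16_18, g_9_16_19, g_9_16_20, g_9_16_21, g_9_16_22]
noncomputable def g_9_17 : List (List (List Nat)) :=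
 [g_9_17_17, g_9_17_18, g_9_17_19, g_9_17_20, g_9_17_21, g_9_17_22]
noncomputable def g_9_18 : List (List (List Nat)) :=
 [g_9_18_18, g_9_18_19, g_9_18_20, g_9_18_21, g_9_18_22]
noncomputable def g_9_19 : List (List (List Nat)) :=
 [g_9_19_19, g_9_19_20, g_9_19_21, g_9_19_22]
noncomputable def g_9_20 : List (List (List Nat)) :=
 [g_9_20_20, g_9_20_21, g_9_20_22]
noncomputable def g_9_21 : List (List (List Nat)) :=
 [g_9_21_21, g_9_21_22]
noncomputable def g_9_22 : List (List (List Nat)) :=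
 [g_9_22_22]
noncomputable def g_9 : List (List (List (List Nat))) :=
 [g_9_9, g_9_10, g_9_11, g_9_12, g_9_13, g_9_14, g_9_15, g_9_16, g_9_17, g_9_18, g_9_19, g_9_20, g_9_21, g_9_22]
noncomputable def g_10_10 : List (List (List Nat)) :=
 [g_10_10_10, g_10_10_11, g_10_10_12, g_10_10_13, g_10_10_14, g_10_10_15, g_10_10_16, g_10_10_17, g_10_10_18, g_10_10_19, g_10_10_20, g_10_10_21, g_10_10_22]
noncomputable def g_10_11 : List (List (List Nat)) :=
 [g_10_11_11, g_10_11_12, g_10_11_13, g_10_11_14, g_10_11_15, g_10_11_16, g_10_11_17, g_10_11_18, g_10_11_19, g_10_11_20, g_10_11_21, g_10_11_22]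
noncomputable def g_10_12 : List (List (List Nat)) :=
 [g_10_12_12, g_10_12_13, g_10_12_14, g_10_12_15, g_10_12_16, g_10_12_17, g_10_12_18, g_10_12_19, g_10_12_20, g_10_12_21, g_10_12_22]
noncomputable def g_10_13 : List (List (List Nat)) :=
 [g_10_13_13, g_10_13_14, g_10_13_15, g_10_13_16, g_10_13_17, g_10_13_18, g_10_13_19, g_10_13_20, g_10_13_21, g_10_13_22]
noncomputable def g_10_14 : List (List (List Nat)) :=
 [g_10_14_14, g_10_14_15, g_10_14_16, g_10_14_17, g_10_14_18, g_10_14_19, g_10_14_20, g_10_14_21, g_10_14_22]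
noncomputable def g_10_15 : List (List (List Nat)) :=
 [g_10_15_15, g_10_15_16, g_10_15_17, g_10_15_18, g_10_15_19, g_10_15_20, g_10_15_21, g_10_15_22]
noncomputable def g_10_16 : List (List (List Nat)) :=
 [g_10_16_16, g_10_16_17, g_10_16_18, g_10_16_19, g_10_16_20, g_10_16_21, g_10_16_22]
noncomputable def g_10_17 : List (List (List Nat)) :=
 [g_10_17_17, g_10_17_18, g_10_17_19, g_10_17_20, g_10_17_21, g_10_17_22]
noncomputable def g_10_18 : List (List (List Nat)) :=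
 [g_10_18_18, g_10_18_19, g_10_18_20, g_10_18_21, g_10_18_22]
noncomputable def g_10_19 : List (List (List Nat)) :=
 [g_10_19_19, g_10_19_20, g_10_19_21, g_10_19_22]
noncomputable def g_10_20 : List (List (List Nat)) :=
 [g_10_20_20, g_10_20_21, g_10_20_22]
noncomputable def g_10_21 : List (List (List Nat)) :=
 [g_10_21_21, g_10_21_22]
noncomputable def g_10_22 : List (List (List Nat)) :=
 [g_10_22_22]
noncomputable def g_10 : List (List (List (List Nat))) :=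
 [g_10_10, g_10_11, g_10_12, g_10_13, g_10_14, g_10_15, g_10_16, g_10_17, g_10_18, g_10_19, g_10_20, g_10_21, g_10_22]
noncomputable def g_11_11 : List (List (List Nat)) :=
 [g_11_11_11, g_11_11_12, g_11_11_13, g_11_11_14, g_11_11_15, g_11_11_16, g_11_11_17, g_11_11_18, g_11_11_19, g_11_11_20, g_11_11_21, g_11_11_22]
noncomputable def g_11_12 : List (List (List Nat)) :=
 [g_11_12_12, g_11_12_13, g_11_12_14, g_11_12_15, g_11_12_16, g_11_12_17, g_11_12_18, g_11_12_19, g_11_12_20, g_11_12_21, g_11_12_22]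
noncomputable def g_11_13 : List (List (List Nat)) :=
 [g_11_13_13, g_11_13_14, g_11_13_15, g_11_13_16, g_11_13_17, g_11_13_18, g_11_13_19, g_11_13_20, g_11_13_21, g_11_13_22]
noncomputable def g_11_14 : List (List (List Nat)) :=
 [g_11_14_14, g_11_14_15, g_11_14_16, g_11_14_17, g_11_14_18, g_11_14_19, g_11_14_20, g_11_14_21, g_11_14_22]
noncomputable def g_11_15 : List (List (List Nat)) :=
 [g_11_15_15, g_11_15_16, g_11_15_17, g_11_15_18, g_11_15_19, g_11_15_20, g_11_15_21, g_11_15_22]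
noncomputable def g_11_16 : List (List (List Nat)) :=
 [g_11_16_16, g_11_16_17, g_11_16_18, g_11_16_19, g_11_16_20, g_11_16_21, g_11_16_22]
noncomputable def g_11_17 : List (List (List Nat)) :=
 [g_11_17_17, g_11_17_18, g_11_17_19, g_11_17_20, g_11_17_21, g_11_17_22]
noncomputable def g_11_18 : List (List (List Nat)) :=
 [g_11_18_18, g_11_18_19, g_11_18_20, g_11_18_21, g_11_18_22]
noncomputable def g_11_19 : List (List (List Nat)) :=
 [g_11_19_19, g_11_19_20, g_11_19_21, g_11_19_22]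
noncomputable def g_11_20 : List (List (List Nat)) :=
 [g_11_20_20, g_11_20_21, g_11_20_22]
noncomputable def g_11_21 : List (List (List Nat)) :=
 [g_11_21_21, g_11_21_22]
noncomputable def g_11_22 : List (List (List Nat)) :=
 [g_11_22_22]
noncomputable def g_11 : List (List (List (List Nat))) :=
 [g_11_11, g_11_12, g_11_13, g_11_14, g_11_15, g_11_16, g_11_17, g_11_18, g_11_19, g_11_20, g_11_21, g_11_22]
noncomputable def g_12_12 : List (List (List Nat)) :=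
 [g_12_12_12, g_12_12_13, g_12_12_14, g_12_12_15, g_12_12_16, g_12_12_17, g_12_12_18, g_12_12_19, g_12_12_20, g_12_12_21, g_12_12_22]
noncomputable def g_12_13 : List (List (List Nat)) :=
 [g_12_13_13, g_12_13_14, g_12_13_15, g_12_13_16, g_12_13_17, g_12_13_18, g_12_13_19, g_12_13_20, g_12_13_21, g_12_13_22]
noncomputable def g_12_14 : List (List (List Nat)) :=
 [g_12_14_14, g_12_14_15, g_12_14_16, g_12_14_17, g_12_14_18, g_12_14_19, g_12_14_20, g_12_14_21, g_12_14_22]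
noncomputable def g_12_15 : List (List (List Nat)) :=
 [g_12_15_15, g_12_15_16, g_12_15_17, g_12_15_18, g_12_15_19, g_12_15_20, g_12_15_21, g_12_15_22]
noncomputable def g_12_16 : List (List (List Nat)) :=
 [g_12_16_16, g_12_16_17, g_12_16_18, g_12_16_19, g_12_16_20, g_12_16_21, g_12_16_22]
noncomputable def g_12_17 : List (List (List Nat)) :=
 [g_12_17_17, g_12_17_18, g_12_17_19, g_12_17_20, g_12_17_21, g_12_17_22]
noncomputable def g_12_18 : List (List (List Nat)) :=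
 [g_12_18_18, g_12_18_19, g_12_18_20, g_12_18_21, g_12_18_22]
noncomputable def g_12_19 : List (List (List Nat)) :=
 [g_12_19_19, g_12_19_20, g_12_19_21, g_12_19_22]
noncomputable def g_12_20 : List (List (List Nat)) :=
 [g_12_20_20, g_12_20_21, g_12_20_22]
noncomputable def g_12_21 : List (List (List Nat)) :=
 [g_12_21_21, g_12_21_22]
noncomputable def g_12_22 : List (List (List Nat)) :=
 [g_12_22_22]
noncomputable def g_12 : List (List (List (List Nat))) :=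
 [g_12_12, g_12_13, g_12_14, g_12_15, g_12_16, g_12_17, g_12_18, g_12_19, g_12_20, g_12_21, g_12_22]
noncomputable def g_13_13 : List (List (List Nat)) :=
 [g_13_13_13, g_13_13_14, g_13_13_15, g_13_13_16, g_13_13_17, g_13_13_18, g_13_13_19, g_13_13_20, g_13_13_21, g_13_13_22]
noncomputable def g_13_14 : List (List (List Nat)) :=
 [g_13_14_14, g_13_14_15, g_13_14_16, g_13_14_17, g_13_14_18, g_13_14_19, g_13_14_20, g_13_14_21, g_13_14_22]
noncomputable def g_13_15 : List (List (List Nat)) :=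
 [g_13_15_15, g_13_15_16, g_13_15_17, g_13_15_18, g_13_15_19, g_13_15_20, g_13_15_21, g_13_15_22]
noncomputable def g_13_16 : List (List (List Nat)) :=
 [g_13_16_16, g_13_16_17, g_13_16_18, g_13_16_19, g_13_16_20, g_13_16_21, g_13_16_22]
noncomputable def g_13_17 : List (List (List Nat)) :=
 [g_13_17_17, g_13_17_18, g_13_17_19, g_13_17_20, g_13_17_21, g_13_17_22]
noncomputable def g_13_18 : List (List (List Nat)) :=
 [g_13_18_18, g_13_18_19, g_13_18_20, g_13_18_21, g_13_18_22]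
noncomputable def g_13_19 : List (List (List Nat)) :=
 [g_13_19_19, g_13_19_20, g_13_19_21, g_13_19_22]
noncomputable def g_13_20 : List (List (List Nat)) :=
 [g_13_20_20, g_13_20_21, g_13_20_22]
noncomputable def g_13_21 : List (List (List Nat)) :=
 [g_13_21_21, g_13_21_22]
noncomputable def g_13_22 : List (List (List Nat)) :=
 [g_13_22_22]
noncomputable def g_13 : List (List (List (List Nat))) :=
 [g_13_13, g_13_14, g_13_15, g_13_16, g_13_17, g_13_18, g_13_19, g_13_20, g_13_21, g_13_22]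
noncomputable def g_14_14 : List (List (List Nat)) :=
 [g_14_14_14, g_14_14_15, g_14_14_16, g_14_14_17, g_14_14_18, g_14_14_19, g_14_14_20, g_14_14_21, g_14_14_22]
noncomputable def g_14_15 : List (List (List Nat)) :=
 [g_14_15_15, g_14_15_16, g_14_15_17, g_14_15_18, g_14_15_19, g_14_15_20, g_14_15_21, g_14_15_22]
noncomputable def g_14_16 : List (List (List Nat)) :=
 [g_14_16_16, g_14_16_17, g_14_16_18, g_14_16_19, g_14_16_20, g_14_16_21, g_14_16_22]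
noncomputable def g_14_17 : List (List (List Nat)) :=
 [g_14_17_17, g_14_17_18, g_14_17_19, g_14_17_20, g_14_17_21, g_14_17_22]
noncomputable def g_14_18 : List (List (List Nat)) :=
 [g_14_18_18, g_14_18_19, g_14_18_20, g_14_18_21, g_14_18_22]
noncomputable def g_14_19 : List (List (List Nat)) :=
 [g_14_19_19, g_14_19_20, g_14_19_21, g_14_19_22]
noncomputable def g_14_20 : List (List (List Nat)) :=
 [g_14_20_20, g_14_20_21, g_14_20_22]
noncomputable def g_14_21 : List (List (List Nat)) :=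
 [g_14_21_21, g_14_21_22]
noncomputable def g_14_22 : List (List (List Nat)) :=
 [g_14_22_22]
noncomputable def g_14 : List (List (List (List Nat))) :=
 [g_14_14, g_14_15, g_14_16, g_14_17, g_14_18, g_14_19, g_14_20, g_14_21, g_14_22]
noncomputable def g_15_15 : List (List (List Nat)) :=
 [g_15_15_15, g_15_15_16, g_15_15_17, g_15_15_18, g_15_15_19, g_15_15_20, g_15_15_21, g_15_15_22]
noncomputable def g_15_16 : List (List (List Nat)) :=
 [g_15_16_16, g_15_16_17, g_15_16_18, g_15_16_19, g_15_16_20, g_15_16_21, g_15_16_22]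
noncomputable def g_15_17 : List (List (List Nat)) :=
 [g_15_17_17, g_15_17_18, g_15_17_19, g_15_17_20, g_15_17_21, g_15_17_22]
noncomputable def g_15_18 : List (List (List Nat)) :=
 [g_15_18_18, g_15_18_19, g_15_18_20, g_15_18_21, g_15_18_22]
noncomputable def g_15_19 : List (List (List Nat)) :=
 [g_15_19_19, g_15_19_20, g_15_19_21, g_15_19_22]
noncomputable def g_15_20 : List (List (List Nat)) :=
 [g_15_20_20, g_15_20_21, g_15_20_22]
noncomputable def g_15_21 : List (List (List Nat)) :=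
 [g_15_21_21, g_15_21_22]
noncomputable def g_15_22 : List (List (List Nat)) :=
 [g_15_22_22]
noncomputable def g_15 : List (List (List (List Nat))) :=
 [g_15_15, g_15_16, g_15_17, g_15_18, g_15_19, g_15_20, g_15_21, g_15_22]
noncomputable def g_16_16 : List (List (List Nat)) :=
 [g_16_16_16, g_16_16_17, g_16_16_18, g_16_16_19, g_16_16_20, g_16_16_21, g_16_16_22]
noncomputable def g_16_17 : List (List (List Nat)) :=
 [g_16_17_17, g_16_17_18, g_16_17_19, g_16_17_20, g_16_17_21, g_16_17_22]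
noncomputable def g_16_18 : List (List (List Nat)) :=
 [g_16_18_18, g_16_18_19, g_16_18_20, g_16_18_21, g_16_18_22]
noncomputable def g_16_19 : List (List (List Nat)) :=
 [g_16_19_19, g_16_19_20, g_16_19_21, g_16_19_22]
noncomputable def g_16_20 : List (List (List Nat)) :=
 [g_16_20_20, g_16_20_21, g_16_20_22]
noncomputable def g_16_21 : List (List (List Nat)) :=
 [g_16_21_21, g_16_21_22]
noncomputable def g_16_22 : List (List (List Nat)) :=
 [g_16_22_22]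
noncomputable def g_16 : List (List (List (List Nat))) :=
 [g_16_16, g_16_17, g_16_18, g_16_19, g_16_20, g_16_21, g_16_22]
noncomputable def g_17_17 : List (List (List Nat)) :=
 [g_17_17_17, g_17_17_18, g_17_17_19, g_17_17_20, g_17_17_21, g_17_17_22]
noncomputable def g_17_18 : List (List (List Nat)) :=
 [g_17_18_18, g_17_18_19, g_17_18_20, g_17_18_21, g_17_18_22]
noncomputable def g_17_19 : List (List (List Nat)) :=
 [g_17_19_19, g_17_19_20, g_17_19_21, g_17_19_22]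
noncomputable def g_17_20 : List (List (List Nat)) :=
 [g_17_20_20, g_17_20_21, g_17_20_22]
noncomputable def g_17_21 : List (List (List Nat)) :=
 [g_17_21_21, g_17_21_22]
noncomputable def g_17_22 : List (List (List Nat)) :=
 [g_17_22_22]
noncomputable def g_17 : List (List (List (List Nat))) :=
 [g_17_17, g_17_18, g_17_19, g_17_20, g_17_21, g_17_22]
noncomputable def g_18_18 : List (List (List Nat)) :=
 [g_18_18_18, g_18_18_19, g_18_18_20, g_18_18_21, g_18_18_22]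
noncomputable def g_18_19 : List (List (List Nat)) :=
 [g_18_19_19, g_18_19_20, g_18_19_21, g_18_19_22]
noncomputable def g_18_20 : List (List (List Nat)) :=
 [g_18_20_20, g_18_20_21, g_18_20_22]
noncomputable def g_18_21 : List (List (List Nat)) :=
 [g_18_21_21, g_18_21_22]
noncomputable def g_18_22 : List (List (List Nat)) :=
 [g_18_22_22]
noncomputable def g_18 : List (List (List (List Nat))) :=
 [g_18_18, g_18_19, g_18_20, g_18_21, g_18_22]
noncomputable def g_19_19 : List (List (List Nat)) :=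
 [g_19_19_19, g_19_19_20, g_19_19_21, g_19_19_22]
noncomputable def g_19_20 : List (List (List Nat)) :=
 [g_19_20_20, g_19_20_21, g_19_20_22]
noncomputable def g_19_21 : List (List (List Nat)) :=
 [g_19_21_21, g_19_21_22]
noncomputable def g_19_22 : List (List (List Nat)) :=
 [g_19_22_22]
noncomputable def g_19 : List (List (List (List Nat))) :=
 [g_19_19, g_19_20, g_19_21, g_19_22]
noncomputable def g_20_20 : List (List (List Nat)) :=
 [g_20_20_20, g_20_20_21, g_20_20_22]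
noncomputable def g_20_21 : List (List (List Nat)) :=
 [g_20_21_21, g_20_21_22]
noncomputable def g_20_22 : List (List (List Nat)) :=
 [g_20_22_22]
noncomputable def g_20 : List (List (List (List Nat))) :=
 [g_20_20, g_20_21, g_20_22]
noncomputable def g_21_21 : List (List (List Nat)) :=
 [g_21_21_21, g_21_21_22]
noncomputable def g_21_22 : List (List (List Nat)) :=
 [g_21_22_22]
noncomputable def g_21 : List (List (List (List Nat))) :=
 [g_21_21, g_21_22]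
noncomputable def g_22_22 : List (List (List Nat)) :=
 [g_22_22_22]
noncomputable def g_22 : List (List (List (List Nat))) :=
 [g_22_22]
noncomputable def ga : List (List (List (List (List Nat)))) :=
 [g_0, g_1, g_2, g_3, g_4, g_5, g_6, g_7, g_8, g_9, g_10, g_11, g_12, g_13, g_14, g_15, g_16, g_17, g_18, g_19, g_20, g_21, g_22]
/-- the record of a box -/
noncomputable def gr (i j k : Nat) : List (List Nat) :=
  nth [] (nth [] (nth [] ga i) (Nat.sub j i)) (Nat.sub k j)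

end Pool.Agent.MP_48470b_gt.Dat
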