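/-! Long numbers written in short pieces, the highest piece first. -/

namespace Pool.Agent.MP_48470b_gt.Dat

/-- 2 pieces -/
noncomputable def j2 (a0 a1 : Nat) : Nat :=
  Nat.add (Nat.shiftLeft a0 (nat_lit 1024)) a1
/-- 3 pieces -/
noncomputable def j3 (a0 a1 a2 : Nat) : Nat :=
  Nat.add (Nat.shiftLeft (Nat.add (Nat.shiftLeft a0 (nat_lit 1024)) a1) (nat_lit 1024)) a2
/-- 4 pieces -/
noncomputable def j4 (a0 a1 a2 a3 : Nat) : Nat :=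
  Nat.add (Nat.shiftLeft (Nat.add (Nat.shiftLeft (Nat.add (Nat.shiftLeft a0 (nat_lit 1024)) a1) (nat_lit 1024)) a2) (nat_lit 1024)) a3
/-- 5 pieces -/
noncomputable def j5 (a0 a1 a2 a3 a4 : Nat) : Nat :=
  Nat.add (Nat.shiftLeft (Nat.add (Nat.shiftLeft (Nat.add (Nat.shiftLeft (Nat.add (Nat.shiftLeft a0 (nat_lit 1024)) a1) (nat_lit 1024)) a2) (nat_lit 1024)) a3) (nat_lit 1024)) a4
/-- 6 pieces -/
noncomputable def j6 (a0 a1 a2 a3 a4 a5 : Nat) : Nat :=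
  Nat.add (Nat.shiftLeft (Nat.add (Nat.shiftLeft (Nat.add (Nat.shiftLeft (Nat.add (Nat.shiftLeft (Nat.add (Nat.shiftLeft a0 (nat_lit 1024)) a1) (nat_lit 1024)) a2) (nat_lit 1024)) a3) (nat_lit 1024)) a4) (nat_lit 1024)) a5
/-- 7 pieces -/
noncomputable def j7 (a0 a1 a2 a3 a4 a5 a6 : Nat) : Nat :=
  Nat.add (Nat.shiftLeft (Nat.add (Nat.shiftLeft (Nat.add (Nat.shiftLeft (Nat.add (Nat.shiftLeft (Nat.add (Nat.shiftLeft (Nat.add (Nat.shiftLeft a0 (nat_lit 1024)) a1) (nat_lit 1024)) a2) (nat_lit 1024)) a3) (nat_lit 1024)) a4) (nat_lit 1024)) a5) (nat_lit 1024)) a6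
/-- 8 pieces -/
noncomputable def j8 (a0 a1 a2 a3 a4 a5 a6 a7 : Nat) : Nat :=
  Nat.add (Nat.shiftLeft (Nat.add (Nat.shiftLeft (Nat.add (Nat.shiftLeft (Nat.add (Nat.shiftLeft (Nat.add (Nat.shiftLeft (Nat.add (Nat.shiftLeft (Nat.add (Nat.shiftLeft a0 (nat_lit 1024)) a1) (nat_lit 1024)) a2) (nat_lit 1024)) a3) (nat_lit 1024)) a4) (nat_lit 1024)) a5) (nat_lit 1024)) a6) (nat_lit 1024)) a7

/-- 2 pieces of 63 bits -/
noncomputable def a2 (x0 x1 : Nat) : Nat :=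
  Nat.add (Nat.shiftLeft x0 (nat_lit 63)) x1
/-- 3 pieces of 63 bits -/
noncomputable def a3 (x0 x1 x2 : Nat) : Nat :=
  Nat.add (Nat.shiftLeft (Nat.add (Nat.shiftLeft x0 (nat_lit 63)) x1) (nat_lit 63)) x2
/-- 4 pieces of 63 bits -/
noncomputable def a4 (x0 x1 x2 x3 : Nat) : Nat :=
  Nat.add (Nat.shiftLeft (Nat.add (Nat.shiftLeft (Nat.add (Nat.shiftLeft x0 (nat_lit 63)) x1) (nat_lit 63)) x2) (nat_lit 63)) x3
/-- 5 pieces of 63 bits -/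
noncomputable def a5 (x0 x1 x2 x3 x4 : Nat) : Nat :=
  Nat.add (Nat.shiftLeft (Nat.add (Nat.shiftLeft (Nat.add (Nat.shiftLeft (Nat.add (Nat.shiftLeft x0 (nat_lit 63)) x1) (nat_lit 63)) x2) (nat_lit 63)) x3) (nat_lit 63)) x4
/-- 6 pieces of 63 bits -/
noncomputable def a6 (x0 x1 x2 x3 x4 x5 : Nat) : Nat :=
  Nat.add (Nat.shiftLeft (Nat.add (Nat.shiftLeft (Nat.add (Nat.shiftLeft (Nat.add (Nat.shiftLeft (Nat.add (Nat.shiftLeft x0 (nat_lit 63)) x1) (nat_lit 63)) x2) (nat_lit 63)) x3) (nat_lit 63)) x4) (nat_lit 63)) x5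
/-- 7 pieces of 63 bits -/
noncomputable def a7 (x0 x1 x2 x3 x4 x5 x6 : Nat) : Nat :=
  Nat.add (Nat.shiftLeft (Nat.add (Nat.shiftLeft (Nat.add (Nat.shiftLeft (Nat.add (Nat.shiftLeft (Nat.add (Nat.shiftLeft (Nat.add (Nat.shiftLeft x0 (nat_lit 63)) x1) (nat_lit 63)) x2) (nat_lit 63)) x3) (nat_lit 63)) x4) (nat_lit 63)) x5) (nat_lit 63)) x6
/-- 8 pieces of 63 bits -/
noncomputable def a8 (x0 x1 x2 x3 x4 x5 x6 x7 : Nat) : Nat :=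
  Nat.add (Nat.shiftLeft (Nat.add (Nat.shiftLeft (Nat.add (Nat.shiftLeft (Nat.add (Nat.shiftLeft (Nat.add (Nat.shiftLeft (Nat.add (Nat.shiftLeft (Nat.add (Nat.shiftLeft x0 (nat_lit 63)) x1) (nat_lit 63)) x2) (nat_lit 63)) x3) (nat_lit 63)) x4) (nat_lit 63)) x5) (nat_lit 63)) x6) (nat_lit 63)) x7
/-- 9 pieces of 63 bits -/
noncomputable def a9 (x0 x1 x2 x3 x4 x5 x6 x7 x8 : Nat) : Nat :=
  Nat.add (Nat.shiftLeft (Nat.add (Nat.shiftLeft (Nat.add (Nat.shiftLeft (Nat.add (Nat.shiftLeft (Nat.add (Nat.shiftLeft (Nat.add (Nat.shiftLeft (Nat.add (Nat.shiftLeft (Nat.add (Nat.shiftLeft x0 (nat_lit 63)) x1) (nat_lit 63)) x2) (nat_lit 63)) x3) (nat_lit 63)) x4) (nat_lit 63)) x5) (nat_lit 63)) x6) (nat_lit 63)) x7) (nat_lit 63)) x8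
/-- 10 pieces of 63 bits -/
noncomputable def a10 (x0 x1 x2 x3 x4 x5 x6 x7 x8 x9 : Nat) : Nat :=
  Nat.add (Nat.shiftLeft (Nat.add (Nat.shiftLeft (Nat.add (Nat.shiftLeft (Nat.add (Nat.shiftLeft (Nat.add (Nat.shiftLeft (Nat.add (Nat.shiftLeft (Nat.add (Nat.shiftLeft (Nat.add (Nat.shiftLeft (Nat.add (Nat.shiftLeft x0 (nat_lit 63)) x1) (nat_lit 63)) x2) (nat_lit 63)) x3) (nat_lit 63)) x4) (nat_lit 63)) x5) (nat_lit 63)) x6) (nat_lit 63)) x7) (nat_lit 63)) x8) (nat_lit 63)) x9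
/-- 11 pieces of 63 bits -/
noncomputable def a11 (x0 x1 x2 x3 x4 x5 x6 x7 x8 x9 x10 : Nat) : Nat :=
  Nat.add (Nat.shiftLeft (Nat.add (Nat.shiftLeft (Nat.add (Nat.shiftLeft (Nat.add (Nat.shiftLeft (Nat.add (Nat.shiftLeft (Nat.add (Nat.shiftLeft (Nat.add (Nat.shiftLeft (Nat.add (Nat.shiftLeft (Nat.add (Nat.shiftLeft (Nat.add (Nat.shiftLeft x0 (nat_lit 63)) x1) (nat_lit 63)) x2) (nat_lit 63)) x3) (nat_lit 63)) x4) (nat_lit 63)) x5) (nat_lit 63)) x6) (nat_lit 63)) x7) (nat_lit 63)) x8) (nat_lit 63)) x9) (nat_lit 63)) x10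
/-- 12 pieces of 63 bits -/
noncomputable def a12 (x0 x1 x2 x3 x4 x5 x6 x7 x8 x9 x10 x11 : Nat) : Nat :=
  Nat.add (Nat.shiftLeft (Nat.add (Nat.shiftLeft (Nat.add (Nat.shiftLeft (Nat.add (Nat.shiftLeft (Nat.add (Nat.shiftLeft (Nat.add (Nat.shiftLeft (Nat.add (Nat.shiftLeft (Nat.add (Nat.shiftLeft (Nat.add (Nat.shiftLeft (Nat.add (Nat.shiftLeft (Nat.add (Nat.shiftLeft x0 (nat_lit 63)) x1) (nat_lit 63)) x2) (nat_lit 63)) x3) (nat_lit 63)) x4) (nat_lit 63)) x5) (nat_lit 63)) x6) (nat_lit 63)) x7) (nat_lit 63)) x8) (nat_lit 63)) x9) (nat_lit 63)) x10) (nat_lit 63)) x11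
/-- 13 pieces of 63 bits -/
noncomputable def a13 (x0 x1 x2 x3 x4 x5 x6 x7 x8 x9 x10 x11 x12 : Nat) : Nat :=
  Nat.add (Nat.shiftLeft (Nat.add (Nat.shiftLeft (Nat.add (Nat.shiftLeft (Nat.add (Nat.shiftLeft (Nat.add (Nat.shiftLeft (Nat.add (Nat.shiftLeft (Nat.add (Nat.shiftLeft (Nat.add (Nat.shiftLeft (Nat.add (Nat.shiftLeft (Nat.add (Nat.shiftLeft (Nat.add (Nat.shiftLeft (Nat.add (Nat.shiftLeft x0 (nat_lit 63)) x1) (nat_lit 63)) x2) (nat_lit 63)) x3) (nat_lit 63)) x4) (nat_lit 63)) x5) (nat_lit 63)) x6) (nat_lit 63)) x7) (nat_lit 63)) x8) (nat_lit 63)) x9) (nat_lit 63)) x10) (nat_lit 63)) x11) (nat_lit 63)) x12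
/-- 14 pieces of 63 bits -/
noncomputable def a14 (x0 x1 x2 x3 x4 x5 x6 x7 x8 x9 x10 x11 x12 x13 : Nat) : Nat :=
  Nat.add (Nat.shiftLeft (Nat.add (Nat.shiftLeft (Nat.add (Nat.shiftLeft (Nat.add (Nat.shiftLeft (Nat.add (Nat.shiftLeft (Nat.add (Nat.shiftLeft (Nat.add (Nat.shiftLeft (Nat.add (Nat.shiftLeft (Nat.add (Nat.shiftLeft (Nat.add (Nat.shiftLeft (Nat.add (Nat.shiftLeft (Nat.add (Nat.shiftLeft (Nat.add (Nat.shiftLeft x0 (nat_lit 63)) x1) (nat_lit 63)) x2) (nat_lit 63)) x3) (nat_lit 63)) x4) (nat_lit 63)) x5) (nat_lit 63)) x6) (nat_lit 63)) x7) (nat_lit 63)) x8) (nat_lit 63)) x9) (nat_lit 63)) x10) (nat_lit 63)) x11) (nat_lit 63)) x12) (nat_lit 63)) x13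
/-- 15 pieces of 63 bits -/
noncomputable def a15 (x0 x1 x2 x3 x4 x5 x6 x7 x8 x9 x10 x11 x12 x13 x14 : Nat) : Nat :=
  Nat.add (Nat.shiftLeft (Nat.add (Nat.shiftLeft (Nat.add (Nat.shiftLeft (Nat.add (Nat.shiftLeft (Nat.add (Nat.shiftLeft (Nat.add (Nat.shiftLeft (Nat.add (Nat.shiftLeft (Nat.add (Nat.shiftLeft (Nat.add (Nat.shiftLeft (Nat.add (Nat.shiftLeft (Nat.add (Nat.shiftLeft (Nat.add (Nat.shiftLeft (Nat.add (Nat.shiftLeft (Nat.add (Nat.shiftLeft x0 (nat_lit 63)) x1) (nat_lit 63)) x2) (nat_lit 63)) x3) (nat_lit 63)) x4) (nat_lit 63)) x5) (nat_lit 63)) x6) (nat_lit 63)) x7) (nat_lit 63)) x8) (nat_lit 63)) x9) (nat_lit 63)) x10) (nat_lit 63)) x11) (nat_lit 63)) x12) (nat_lit 63)) x13) (nat_lit 63)) x14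
/-- 16 pieces of 63 bits -/
noncomputable def a16 (x0 x1 x2 x3 x4 x5 x6 x7 x8 x9 x10 x11 x12 x13 x14 x15 : Nat) : Nat :=
  Nat.add (Nat.shiftLeft (Nat.add (Nat.shiftLeft (Nat.add (Nat.shiftLeft (Nat.add (Nat.shiftLeft (Nat.add (Nat.shiftLeft (Nat.add (Nat.shiftLeft (Nat.add (Nat.shiftLeft (Nat.add (Nat.shiftLeft (Nat.add (Nat.shiftLeft (Nat.add (Nat.shiftLeft (Nat.add (Nat.shiftLeft (Nat.add (Nat.shiftLeft (Nat.add (Nat.shiftLeft (Nat.add (Nat.shiftLeft (Nat.add (Nat.shiftLeft x0 (nat_lit 63)) x1) (nat_lit 63)) x2) (nat_lit 63)) x3) (nat_lit 63)) x4) (nat_lit 63)) x5) (nat_lit 63)) x6) (nat_lit 63)) x7) (nat_lit 63)) x8) (nat_lit 63)) x9) (nat_lit 63)) x10) (nat_lit 63)) x11) (nat_lit 63)) x12) (nat_lit 63)) x13) (nat_lit 63)) x14) (nat_lit 63)) x15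
/-- 2 pieces of 1008 bits -/
noncomputable def b2 (x0 x1 : Nat) : Nat :=
  Nat.add (Nat.shiftLeft x0 (nat_lit 1008)) x1
/-- 3 pieces of 1008 bits -/
noncomputable def b3 (x0 x1 x2 : Nat) : Nat :=
  Nat.add (Nat.shiftLeft (Nat.add (Nat.shiftLeft x0 (nat_lit 1008)) x1) (nat_lit 1008)) x2
/-- 4 pieces of 1008 bits -/
noncomputable def b4 (x0 x1 x2 x3 : Nat) : Nat :=
  Nat.add (Nat.shiftLeft (Nat.add (Nat.shiftLeft (Nat.add (Nat.shiftLeft x0 (nat_lit 1008)) x1) (nat_lit 1008)) x2) (nat_lit 1008)) x3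
/-- 5 pieces of 1008 bits -/
noncomputable def b5 (x0 x1 x2 x3 x4 : Nat) : Nat :=
  Nat.add (Nat.shiftLeft (Nat.add (Nat.shiftLeft (Nat.add (Nat.shiftLeft (Nat.add (Nat.shiftLeft x0 (nat_lit 1008)) x1) (nat_lit 1008)) x2) (nat_lit 1008)) x3) (nat_lit 1008)) x4
/-- 6 pieces of 1008 bits -/
noncomputable def b6 (x0 x1 x2 x3 x4 x5 : Nat) : Nat :=
  Nat.add (Nat.shiftLeft (Nat.add (Nat.shiftLeft (Nat.add (Nat.shiftLeft (Nat.add (Nat.shiftLeft (Nat.add (Nat.shiftLeft x0 (nat_lit 1008)) x1) (nat_lit 1008)) x2) (nat_lit 1008)) x3) (nat_lit 1008)) x4) (nat_lit 1008)) x5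
/-- 7 pieces of 1008 bits -/
noncomputable def b7 (x0 x1 x2 x3 x4 x5 x6 : Nat) : Nat :=
  Nat.add (Nat.shiftLeft (Nat.add (Nat.shiftLeft (Nat.add (Nat.shiftLeft (Nat.add (Nat.shiftLeft (Nat.add (Nat.shiftLeft (Nat.add (Nat.shiftLeft x0 (nat_lit 1008)) x1) (nat_lit 1008)) x2) (nat_lit 1008)) x3) (nat_lit 1008)) x4) (nat_lit 1008)) x5) (nat_lit 1008)) x6
/-- 8 pieces of 1008 bits -/
noncomputable def b8 (x0 x1 x2 x3 x4 x5 x6 x7 : Nat) : Nat :=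
  Nat.add (Nat.shiftLeft (Nat.add (Nat.shiftLeft (Nat.add (Nat.shiftLeft (Nat.add (Nat.shiftLeft (Nat.add (Nat.shiftLeft (Nat.add (Nat.shiftLeft (Nat.add (Nat.shiftLeft x0 (nat_lit 1008)) x1) (nat_lit 1008)) x2) (nat_lit 1008)) x3) (nat_lit 1008)) x4) (nat_lit 1008)) x5) (nat_lit 1008)) x6) (nat_lit 1008)) x7
/-- 9 pieces of 1008 bits -/
noncomputable def b9 (x0 x1 x2 x3 x4 x5 x6 x7 x8 : Nat) : Nat :=
  Nat.add (Nat.shiftLeft (Nat.add (Nat.shiftLeft (Nat.add (Nat.shiftLeft (Nat.add (Nat.shiftLeft (Nat.add (Nat.shiftLeft (Nat.add (Nat.shiftLeft (Nat.add (Nat.shiftLeft (Nat.add (Nat.shiftLeft x0 (nat_lit 1008)) x1) (nat_lit 1008)) x2) (nat_lit 1008)) x3) (nat_lit 1008)) x4) (nat_lit 1008)) x5) (nat_lit 1008)) x6) (nat_lit 1008)) x7) (nat_lit 1008)) x8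
/-- 10 pieces of 1008 bits -/
noncomputable def b10 (x0 x1 x2 x3 x4 x5 x6 x7 x8 x9 : Nat) : Nat :=
  Nat.add (Nat.shiftLeft (Nat.add (Nat.shiftLeft (Nat.add (Nat.shiftLeft (Nat.add (Nat.shiftLeft (Nat.add (Nat.shiftLeft (Nat.add (Nat.shiftLeft (Nat.add (Nat.shiftLeft (Nat.add (Nat.shiftLeft (Nat.add (Nat.shiftLeft x0 (nat_lit 1008)) x1) (nat_lit 1008)) x2) (nat_lit 1008)) x3) (nat_lit 1008)) x4) (nat_lit 1008)) x5) (nat_lit 1008)) x6) (nat_lit 1008)) x7) (nat_lit 1008)) x8) (nat_lit 1008)) x9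
/-- 11 pieces of 1008 bits -/
noncomputable def b11 (x0 x1 x2 x3 x4 x5 x6 x7 x8 x9 x10 : Nat) : Nat :=
  Nat.add (Nat.shiftLeft (Nat.add (Nat.shiftLeft (Nat.add (Nat.shiftLeft (Nat.add (Nat.shiftLeft (Nat.add (Nat.shiftLeft (Nat.add (Nat.shiftLeft (Nat.add (Nat.shiftLeft (Nat.add (Nat.shiftLeft (Nat.add (Nat.shiftLeft (Nat.add (Nat.shiftLeft x0 (nat_lit 1008)) x1) (nat_lit 1008)) x2) (nat_lit 1008)) x3) (nat_lit 1008)) x4) (nat_lit 1008)) x5) (nat_lit 1008)) x6) (nat_lit 1008)) x7) (nat_lit 1008)) x8) (nat_lit 1008)) x9) (nat_lit 1008)) x10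
/-- 12 pieces of 1008 bits -/
noncomputable def b12 (x0 x1 x2 x3 x4 x5 x6 x7 x8 x9 x10 x11 : Nat) : Nat :=
  Nat.add (Nat.shiftLeft (Nat.add (Nat.shiftLeft (Nat.add (Nat.shiftLeft (Nat.add (Nat.shiftLeft (Nat.add (Nat.shiftLeft (Nat.add (Nat.shiftLeft (Nat.add (Nat.shiftLeft (Nat.add (Nat.shiftLeft (Nat.add (Nat.shiftLeft (Nat.add (Nat.shiftLeft (Nat.add (Nat.shiftLeft x0 (nat_lit 1008)) x1) (nat_lit 1008)) x2) (nat_lit 1008)) x3) (nat_lit 1008)) x4) (nat_lit 1008)) x5) (nat_lit 1008)) x6) (nat_lit 1008)) x7) (nat_lit 1008)) x8) (nat_lit 1008)) x9) (nat_lit 1008)) x10) (nat_lit 1008)) x11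
/-- 13 pieces of 1008 bits -/
noncomputable def b13 (x0 x1 x2 x3 x4 x5 x6 x7 x8 x9 x10 x11 x12 : Nat) : Nat :=
  Nat.add (Nat.shiftLeft (Nat.add (Nat.shiftLeft (Nat.add (Nat.shiftLeft (Nat.add (Nat.shiftLeft (Nat.add (Nat.shiftLeft (Nat.add (Nat.shiftLeft (Nat.add (Nat.shiftLeft (Nat.add (Nat.shiftLeft (Nat.add (Nat.shiftLeft (Nat.add (Nat.shiftLeft (Nat.add (Nat.shiftLeft (Nat.add (Nat.shiftLeft x0 (nat_lit 1008)) x1) (nat_lit 1008)) x2) (nat_lit 1008)) x3) (nat_lit 1008)) x4) (nat_lit 1008)) x5) (nat_lit 1008)) x6) (nat_lit 1008)) x7) (nat_lit 1008)) x8) (nat_lit 1008)) x9) (nat_lit 1008)) x10) (nat_lit 1008)) x11) (nat_lit 1008)) x12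
/-- 14 pieces of 1008 bits -/
noncomputable def b14 (x0 x1 x2 x3 x4 x5 x6 x7 x8 x9 x10 x11 x12 x13 : Nat) : Nat :=
  Nat.add (Nat.shiftLeft (Nat.add (Nat.shiftLeft (Nat.add (Nat.shiftLeft (Nat.add (Nat.shiftLeft (Nat.add (Nat.shiftLeft (Nat.add (Nat.shiftLeft (Nat.add (Nat.shiftLeft (Nat.add (Nat.shiftLeft (Nat.add (Nat.shiftLeft (Nat.add (Nat.shiftLeft (Nat.add (Nat.shiftLeft (Nat.add (Nat.shiftLeft (Nat.add (Nat.shiftLeft x0 (nat_lit 1008)) x1) (nat_lit 1008)) x2) (nat_lit 1008)) x3) (nat_lit 1008)) x4) (nat_lit 1008)) x5) (nat_lit 1008)) x6) (nat_lit 1008)) x7) (nat_lit 1008)) x8) (nat_lit 1008)) x9) (nat_lit 1008)) x10) (nat_lit 1008)) x11) (nat_lit 1008)) x12) (nat_lit 1008)) x13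
/-- 15 pieces of 1008 bits -/
noncomputable def b15 (x0 x1 x2 x3 x4 x5 x6 x7 x8 x9 x10 x11 x12 x13 x14 : Nat) : Nat :=
  Nat.add (Nat.shiftLeft (Nat.add (Nat.shiftLeft (Nat.add (Nat.shiftLeft (Nat.add (Nat.shiftLeft (Nat.add (Nat.shiftLeft (Nat.add (Nat.shiftLeft (Nat.add (Nat.shiftLeft (Nat.add (Nat.shiftLeft (Nat.add (Nat.shiftLeft (Nat.add (Nat.shiftLeft (Nat.add (Nat.shiftLeft (Nat.add (Nat.shiftLeft (Nat.add (Nat.shiftLeft (Nat.add (Nat.shiftLeft x0 (nat_lit 1008)) x1) (nat_lit 1008)) x2) (nat_lit 1008)) x3) (nat_lit 1008)) x4) (nat_lit 1008)) x5) (nat_lit 1008)) x6) (nat_lit 1008)) x7) (nat_lit 1008)) x8) (nat_lit 1008)) x9) (nat_lit 1008)) x10) (nat_lit 1008)) x11) (nat_lit 1008)) x12) (nat_lit 1008)) x13) (nat_lit 1008)) x14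
/-- 16 pieces of 1008 bits -/
noncomputable def b16 (x0 x1 x2 x3 x4 x5 x6 x7 x8 x9 x10 x11 x12 x13 x14 x15 : Nat) : Nat :=
  Nat.add (Nat.shiftLeft (Nat.add (Nat.shiftLeft (Nat.add (Nat.shiftLeft (Nat.add (Nat.shiftLeft (Nat.add (Nat.shiftLeft (Nat.add (Nat.shiftLeft (Nat.add (Nat.shiftLeft (Nat.add (Nat.shiftLeft (Nat.add (Nat.shiftLeft (Nat.add (Nat.shiftLeft (Nat.add (Nat.shiftLeft (Nat.add (Nat.shiftLeft (Nat.add (Nat.shiftLeft (Nat.add (Nat.shiftLeft (Nat.add (Nat.shiftLeft x0 (nat_lit 1008)) x1) (nat_lit 1008)) x2) (nat_lit 1008)) x3) (nat_lit 1008)) x4) (nat_lit 1008)) x5) (nat_lit 1008)) x6) (nat_lit 1008)) x7) (nat_lit 1008)) x8) (nat_lit 1008)) x9) (nat_lit 1008)) x10) (nat_lit 1008)) x11) (nat_lit 1008)) x12) (nat_lit 1008)) x13) (nat_lit 1008)) x14) (nat_lit 1008)) x15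
/-- 2 pieces of 16128 bits -/
noncomputable def c2 (x0 x1 : Nat) : Nat :=
  Nat.add (Nat.shiftLeft x0 (nat_lit 16128)) x1
/-- 3 pieces of 16128 bits -/
noncomputable def c3 (x0 x1 x2 : Nat) : Nat :=
  Nat.add (Nat.shiftLeft (Nat.add (Nat.shiftLeft x0 (nat_lit 16128)) x1) (nat_lit 16128)) x2
/-- 4 pieces of 16128 bits -/
noncomputable def c4 (x0 x1 x2 x3 : Nat) : Nat :=
  Nat.add (Nat.shiftLeft (Nat.add (Nat.shiftLeft (Nat.add (Nat.shiftLeft x0 (nat_lit 16128)) x1) (nat_lit 16128)) x2) (nat_lit 16128)) x3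
/-- 5 pieces of 16128 bits -/
noncomputable def c5 (x0 x1 x2 x3 x4 : Nat) : Nat :=
  Nat.add (Nat.shiftLeft (Nat.add (Nat.shiftLeft (Nat.add (Nat.shiftLeft (Nat.add (Nat.shiftLeft x0 (nat_lit 16128)) x1) (nat_lit 16128)) x2) (nat_lit 16128)) x3) (nat_lit 16128)) x4
/-- 6 pieces of 16128 bits -/
noncomputable def c6 (x0 x1 x2 x3 x4 x5 : Nat) : Nat :=
  Nat.add (Nat.shiftLeft (Nat.add (Nat.shiftLeft (Nat.add (Nat.shiftLeft (Nat.add (Nat.shiftLeft (Nat.add (Nat.shiftLeft x0 (nat_lit 16128)) x1) (nat_lit 16128)) x2) (nat_lit 16128)) x3) (nat_lit 16128)) x4) (nat_lit 16128)) x5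
/-- 7 pieces of 16128 bits -/
noncomputable def c7 (x0 x1 x2 x3 x4 x5 x6 : Nat) : Nat :=
  Nat.add (Nat.shiftLeft (Nat.add (Nat.shiftLeft (Nat.add (Nat.shiftLeft (Nat.add (Nat.shiftLeft (Nat.add (Nat.shiftLeft (Nat.add (Nat.shiftLeft x0 (nat_lit 16128)) x1) (nat_lit 16128)) x2) (nat_lit 16128)) x3) (nat_lit 16128)) x4) (nat_lit 16128)) x5) (nat_lit 16128)) x6
/-- 8 pieces of 16128 bits -/
noncomputable def c8 (x0 x1 x2 x3 x4 x5 x6 x7 : Nat) : Nat :=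
  Nat.add (Nat.shiftLeft (Nat.add (Nat.shiftLeft (Nat.add (Nat.shiftLeft (Nat.add (Nat.shiftLeft (Nat.add (Nat.shiftLeft (Nat.add (Nat.shiftLeft (Nat.add (Nat.shiftLeft x0 (nat_lit 16128)) x1) (nat_lit 16128)) x2) (nat_lit 16128)) x3) (nat_lit 16128)) x4) (nat_lit 16128)) x5) (nat_lit 16128)) x6) (nat_lit 16128)) x7
/-- 9 pieces of 16128 bits -/
noncomputable def c9 (x0 x1 x2 x3 x4 x5 x6 x7 x8 : Nat) : Nat :=
  Nat.add (Nat.shiftLeft (Nat.add (Nat.shiftLeft (Nat.add (Nat.shiftLeft (Nat.add (Nat.shiftLeft (Nat.add (Nat.shiftLeft (Nat.add (Nat.shiftLeft (Nat.add (Nat.shiftLeft (Nat.add (Nat.shiftLeft x0 (nat_lit 16128)) x1) (nat_lit 16128)) x2) (nat_lit 16128)) x3) (nat_lit 16128)) x4) (nat_lit 16128)) x5) (nat_lit 16128)) x6) (nat_lit 16128)) x7) (nat_lit 16128)) x8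
/-- 10 pieces of 16128 bits -/
noncomputable def c10 (x0 x1 x2 x3 x4 x5 x6 x7 x8 x9 : Nat) : Nat :=
  Nat.add (Nat.shiftLeft (Nat.add (Nat.shiftLeft (Nat.add (Nat.shiftLeft (Nat.add (Nat.shiftLeft (Nat.add (Nat.shiftLeft (Nat.add (Nat.shiftLeft (Nat.add (Nat.shiftLeft (Nat.add (Nat.shiftLeft (Nat.add (Nat.shiftLeft x0 (nat_lit 16128)) x1) (nat_lit 16128)) x2) (nat_lit 16128)) x3) (nat_lit 16128)) x4) (nat_lit 16128)) x5) (nat_lit 16128)) x6) (nat_lit 16128)) x7) (nat_lit 16128)) x8) (nat_lit 16128)) x9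
/-- 11 pieces of 16128 bits -/
noncomputable def c11 (x0 x1 x2 x3 x4 x5 x6 x7 x8 x9 x10 : Nat) : Nat :=
  Nat.add (Nat.shiftLeft (Nat.add (Nat.shiftLeft (Nat.add (Nat.shiftLeft (Nat.add (Nat.shiftLeft (Nat.add (Nat.shiftLeft (Nat.add (Nat.shiftLeft (Nat.add (Nat.shiftLeft (Nat.add (Nat.shiftLeft (Nat.add (Nat.shiftLeft (Nat.add (Nat.shiftLeft x0 (nat_lit 16128)) x1) (nat_lit 16128)) x2) (nat_lit 16128)) x3) (nat_lit 16128)) x4) (nat_lit 16128)) x5) (nat_lit 16128)) x6) (nat_lit 16128)) x7) (nat_lit 16128)) x8) (nat_lit 16128)) x9) (nat_lit 16128)) x10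
/-- 12 pieces of 16128 bits -/
noncomputable def c12 (x0 x1 x2 x3 x4 x5 x6 x7 x8 x9 x10 x11 : Nat) : Nat :=
  Nat.add (Nat.shiftLeft (Nat.add (Nat.shiftLeft (Nat.add (Nat.shiftLeft (Nat.add (Nat.shiftLeft (Nat.add (Nat.shiftLeft (Nat.add (Nat.shiftLeft (Nat.add (Nat.shiftLeft (Nat.add (Nat.shiftLeft (Nat.add (Nat.shiftLeft (Nat.add (Nat.shiftLeft (Nat.add (Nat.shiftLeft x0 (nat_lit 16128)) x1) (nat_lit 16128)) x2) (nat_lit 16128)) x3) (nat_lit 16128)) x4) (nat_lit 16128)) x5) (nat_lit 16128)) x6) (nat_lit 16128)) x7) (nat_lit 16128)) x8) (nat_lit 16128)) x9) (nat_lit 16128)) x10) (nat_lit 16128)) x11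
/-- 13 pieces of 16128 bits -/
noncomputable def c13 (x0 x1 x2 x3 x4 x5 x6 x7 x8 x9 x10 x11 x12 : Nat) : Nat :=
  Nat.add (Nat.shiftLeft (Nat.add (Nat.shiftLeft (Nat.add (Nat.shiftLeft (Nat.add (Nat.shiftLeft (Nat.add (Nat.shiftLeft (Nat.add (Nat.shiftLeft (Nat.add (Nat.shiftLeft (Nat.add (Nat.shiftLeft (Nat.add (Nat.shiftLeft (Nat.add (Nat.shiftLeft (Nat.add (Nat.shiftLeft (Nat.add (Nat.shiftLeft x0 (nat_lit 16128)) x1) (nat_lit 16128)) x2) (nat_lit 16128)) x3) (nat_lit 16128)) x4) (nat_lit 16128)) x5) (nat_lit 16128)) x6) (nat_lit 16128)) x7) (nat_lit 16128)) x8) (nat_lit 16128)) x9) (nat_lit 16128)) x10) (nat_lit 16128)) x11) (nat_lit 16128)) x12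
/-- 14 pieces of 16128 bits -/
noncomputable def c14 (x0 x1 x2 x3 x4 x5 x6 x7 x8 x9 x10 x11 x12 x13 : Nat) : Nat :=
  Nat.add (Nat.shiftLeft (Nat.add (Nat.shiftLeft (Nat.add (Nat.shiftLeft (Nat.add (Nat.shiftLeft (Nat.add (Nat.shiftLeft (Nat.add (Nat.shiftLeft (Nat.add (Nat.shiftLeft (Nat.add (Nat.shiftLeft (Nat.add (Nat.shiftLeft (Nat.add (Nat.shiftLeft (Nat.add (Nat.shiftLeft (Nat.add (Nat.shiftLeft (Nat.add (Nat.shiftLeft x0 (nat_lit 16128)) x1) (nat_lit 16128)) x2) (nat_lit 16128)) x3) (nat_lit 16128)) x4) (nat_lit 16128)) x5) (nat_lit 16128)) x6) (nat_lit 16128)) x7) (nat_lit 16128)) x8) (nat_lit 16128)) x9) (nat_lit 16128)) x10) (nat_lit 16128)) x11) (nat_lit 16128)) x12) (nat_lit 16128)) x13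
/-- 15 pieces of 16128 bits -/
noncomputable def c15 (x0 x1 x2 x3 x4 x5 x6 x7 x8 x9 x10 x11 x12 x13 x14 : Nat) : Nat :=
  Nat.add (Nat.shiftLeft (Nat.add (Nat.shiftLeft (Nat.add (Nat.shiftLeft (Nat.add (Nat.shiftLeft (Nat.add (Nat.shiftLeft (Nat.add (Nat.shiftLeft (Nat.add (Nat.shiftLeft (Nat.add (Nat.shiftLeft (Nat.add (Nat.shiftLeft (Nat.add (Nat.shiftLeft (Nat.add (Nat.shiftLeft (Nat.add (Nat.shiftLeft (Nat.add (Nat.shiftLeft (Nat.add (Nat.shiftLeft x0 (nat_lit 16128)) x1) (nat_lit 16128)) x2) (nat_lit 16128)) x3) (nat_lit 16128)) x4) (nat_lit 16128)) x5) (nat_lit 16128)) x6) (nat_lit 16128)) x7) (nat_lit 16128)) x8) (nat_lit 16128)) x9) (nat_lit 16128)) x10) (nat_lit 16128)) x11) (nat_lit 16128)) x12) (nat_lit 16128)) x13) (nat_lit 16128)) x14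
/-- 16 pieces of 16128 bits -/
noncomputable def c16 (x0 x1 x2 x3 x4 x5 x6 x7 x8 x9 x10 x11 x12 x13 x14 x15 : Nat) : Nat :=
  Nat.add (Nat.shiftLeft (Nat.add (Nat.shiftLeft (Nat.add (Nat.shiftLeft (Nat.add (Nat.shiftLeft (Nat.add (Nat.shiftLeft (Nat.add (Nat.shiftLeft (Nat.add (Nat.shiftLeft (Nat.add (Nat.shiftLeft (Nat.add (Nat.shiftLeft (Nat.add (Nat.shiftLeft (Nat.add (Nat.shiftLeft (Nat.add (Nat.shiftLeft (Nat.add (Nat.shiftLeft (Nat.add (Nat.shiftLeft (Nat.add (Nat.shiftLeft x0 (nat_lit 16128)) x1) (nat_lit 16128)) x2) (nat_lit 16128)) x3) (nat_lit 16128)) x4) (nat_lit 16128)) x5) (nat_lit 16128)) x6) (nat_lit 16128)) x7) (nat_lit 16128)) x8) (nat_lit 16128)) x9) (nat_lit 16128)) x10) (nat_lit 16128)) x11) (nat_lit 16128)) x12) (nat_lit 16128)) x13) (nat_lit 16128)) x14) (nat_lit 16128)) x15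

end Pool.Agent.MP_48470b_gt.Dat
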