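import Pool.Agent.MP_48470b_gt.Dat.Fr
import Pool.Agent.MP_48470b_gt.Dat.Gr
import Pool.Agent.MP_48470b_gt.Dat.Ef
import Pool.Agent.MP_48470b_gt.Dat.Cv

/-! The shared tables. -/

namespace Pool.Agent.MP_48470b_gt.Dat

/-- the tables with given words and constants -/
noncomputable def tab (cw : Nat → Nat → Nat → Nat) (ke : Ck.Ke) : Ck.Tab :=
  ⟨fun i j k => toR (fr i j k), fun i j k => toR (gr i j k), ef, fun i j k => ef i j k 3, cw, ke⟩

end Pool.Agent.MP_48470b_gt.Dat
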