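import Pool.Agent.MP_48470b_gt.Dat.Y0
import Pool.Agent.MP_48470b_gt.Dat.Nth

/-! The table of the records. -/

namespace Pool.Agent.MP_48470b_gt.Dat

noncomputable def y_0_0 : List (List (List Nat)) :=
 [y_0_0_0, y_0_0_1, y_0_0_2, y_0_0_3, y_0_0_4, y_0_0_5, y_0_0_6, y_0_0_7, y_0_0_8, y_0_0_9, y_0_0_10, y_0_0_11, y_0_0_12, y_0_0_13, y_0_0_14, y_0_0_15, y_0_0_16, y_0_0_17, y_0_0_18, y_0_0_19, y_0_0_20, y_0_0_21, y_0_0_22]
noncomputable def y_0_1 : List (List (List Nat)) :=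
 [y_0_1_1, y_0_1_2, y_0_1_3, y_0_1_4, y_0_1_5, y_0_1_6, y_0_1_7, y_0_1_8, y_0_1_9, y_0_1_10, y_0_1_11, y_0_1_12, y_0_1_13, y_0_1_14, y_0_1_15, y_0_1_16, y_0_1_17, y_0_1_18, y_0_1_19, y_0_1_20, y_0_1_21, y_0_1_22]
noncomputable def y_0_2 : List (List (List Nat)) :=
 [y_0_2_2, y_0_2_3, y_0_2_4, y_0_2_5, y_0_2_6, y_0_2_7, y_0_2_8, y_0_2_9, y_0_2_10, y_0_2_11, y_0_2_12, y_0_2_13, y_0_2_14, y_0_2_15, y_0_2_16, y_0_2_17, y_0_2_18, y_0_2_19, y_0_2_20, y_0_2_21, y_0_2_22]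
noncomputable def y_0_3 : List (List (List Nat)) :=
 [y_0_3_3, y_0_3_4, y_0_3_5, y_0_3_6, y_0_3_7, y_0_3_8, y_0_3_9, y_0_3_10, y_0_3_11, y_0_3_12, y_0_3_13, y_0_3_14, y_0_3_15, y_0_3_16, y_0_3_17, y_0_3_18, y_0_3_19, y_0_3_20, y_0_3_21, y_0_3_22]
noncomputable def y_0_4 : List (List (List Nat)) :=
 [y_0_4_4, y_0_4_5, y_0_4_6, y_0_4_7, y_0_4_8, y_0_4_9, y_0_4_10, y_0_4_11, y_0_4_12, y_0_4_13, y_0_4_14, y_0_4_15, y_0_4_16, y_0_4_17, y_0_4_18, y_0_4_19, y_0_4_20, y_0_4_21, y_0_4_22]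
noncomputable def y_0_5 : List (List (List Nat)) :=
 [y_0_5_5, y_0_5_6, y_0_5_7, y_0_5_8, y_0_5_9, y_0_5_10, y_0_5_11, y_0_5_12, y_0_5_13, y_0_5_14, y_0_5_15, y_0_5_16, y_0_5_17, y_0_5_18, y_0_5_19, y_0_5_20, y_0_5_21, y_0_5_22]
noncomputable def y_0_6 : List (List (List Nat)) :=
 [y_0_6_6, y_0_6_7, y_0_6_8, y_0_6_9, y_0_6_10, y_0_6_11, y_0_6_12, y_0_6_13, y_0_6_14, y_0_6_15, y_0_6_16, y_0_6_17, y_0_6_18, y_0_6_19, y_0_6_20, y_0_6_21, y_0_6_22]
noncomputable def y_0_7 : List (List (List Nat)) :=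
 [y_0_7_7, y_0_7_8, y_0_7_9, y_0_7_10, y_0_7_11, y_0_7_12, y_0_7_13, y_0_7_14, y_0_7_15, y_0_7_16, y_0_7_17, y_0_7_18, y_0_7_19, y_0_7_20, y_0_7_21, y_0_7_22]
noncomputable def y_0_8 : List (List (List Nat)) :=
 [y_0_8_8, y_0_8_9, y_0_8_10, y_0_8_11, y_0_8_12, y_0_8_13, y_0_8_14, y_0_8_15, y_0_8_16, y_0_8_17, y_0_8_18, y_0_8_19, y_0_8_20, y_0_8_21, y_0_8_22]
noncomputable def y_0_9 : List (List (List Nat)) :=
 [y_0_9_9, y_0_9_10, y_0_9_11, y_0_9_12, y_0_9_13, y_0_9_14, y_0_9_15, y_0_9_16, y_0_9_17, y_0_9_18, y_0_9_19, y_0_9_20, y_0_9_21, y_0_9_22]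
noncomputable def y_0_10 : List (List (List Nat)) :=
 [y_0_10_10, y_0_10_11, y_0_10_12, y_0_10_13, y_0_10_14, y_0_10_15, y_0_10_16, y_0_10_17, y_0_10_18, y_0_10_19, y_0_10_20, y_0_10_21, y_0_10_22]
noncomputable def y_0_11 : List (List (List Nat)) :=
 [y_0_11_11, y_0_11_12, y_0_11_13, y_0_11_14, y_0_11_15, y_0_11_16, y_0_11_17, y_0_11_18, y_0_11_19, y_0_11_20, y_0_11_21, y_0_11_22]
noncomputable def y_0_12 : List (List (List Nat)) :=
 [y_0_12_12, y_0_12_13, y_0_12_14, y_0_12_15, y_0_12_16, y_0_12_17, y_0_12_18, y_0_12_19, y_0_12_20, y_0_12_21, y_0_12_22]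
noncomputable def y_0_13 : List (List (List Nat)) :=
 [y_0_13_13, y_0_13_14, y_0_13_15, y_0_13_16, y_0_13_17, y_0_13_18, y_0_13_19, y_0_13_20, y_0_13_21, y_0_13_22]
noncomputable def y_0_14 : List (List (List Nat)) :=
 [y_0_14_14, y_0_14_15, y_0_14_16, y_0_14_17, y_0_14_18, y_0_14_19, y_0_14_20, y_0_14_21, y_0_14_22]
noncomputable def y_0_15 : List (List (List Nat)) :=
 [y_0_15_15, y_0_15_16, y_0_15_17, y_0_15_18, y_0_15_19, y_0_15_20, y_0_15_21, y_0_15_22]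
noncomputable def y_0_16 : List (List (List Nat)) :=
 [y_0_16_16, y_0_16_17, y_0_16_18, y_0_16_19, y_0_16_20, y_0_16_21, y_0_16_22]
noncomputable def y_0_17 : List (List (List Nat)) :=
 [y_0_17_17, y_0_17_18, y_0_17_19, y_0_17_20, y_0_17_21, y_0_17_22]
noncomputable def y_0_18 : List (List (List Nat)) :=
 [y_0_18_18, y_0_18_19, y_0_18_20, y_0_18_21, y_0_18_22]
noncomputable def y_0_19 : List (List (List Nat)) :=
 [y_0_19_19, y_0_19_20, y_0_19_21, y_0_19_22]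
noncomputable def y_0_20 : List (List (List Nat)) :=
 [y_0_20_20, y_0_20_21, y_0_20_22]
noncomputable def y_0_21 : List (List (List Nat)) :=
 [y_0_21_21, y_0_21_22]
noncomputable def y_0_22 : List (List (List Nat)) :=
 [y_0_22_22]
noncomputable def y_0 : List (List (List (List Nat))) :=
 [y_0_0, y_0_1, y_0_2, y_0_3, y_0_4, y_0_5, y_0_6, y_0_7, y_0_8, y_0_9, y_0_10, y_0_11, y_0_12, y_0_13, y_0_14, y_0_15, y_0_16, y_0_17, y_0_18, y_0_19, y_0_20, y_0_21, y_0_22]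
noncomputable def y_1_1 : List (List (List Nat)) :=
 [y_1_1_1, y_1_1_2, y_1_1_3, y_1_1_4, y_1_1_5, y_1_1_6, y_1_1_7, y_1_1_8, y_1_1_9, y_1_1_10, y_1_1_11, y_1_1_12, y_1_1_13, y_1_1_14, y_1_1_15, y_1_1_16, y_1_1_17, y_1_1_18, y_1_1_19, y_1_1_20, y_1_1_21, y_1_1_22]
noncomputable def y_1_2 : List (List (List Nat)) :=
 [y_1_2_2, y_1_2_3, y_1_2_4, y_1_2_5, y_1_2_6, y_1_2_7, y_1_2_8, y_1_2_9, y_1_2_10, y_1_2_11, y_1_2_12, y_1_2_13, y_1_2_14, y_1_2_15, y_1_2_16, y_1_2_17, y_1_2_18, y_1_2_19, y_1_2_20, y_1_2_21, y_1_2_22]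
noncomputable def y_1_3 : List (List (List Nat)) :=
 [y_1_3_3, y_1_3_4, y_1_3_5, y_1_3_6, y_1_3_7, y_1_3_8, y_1_3_9, y_1_3_10, y_1_3_11, y_1_3_12, y_1_3_13, y_1_3_14, y_1_3_15, y_1_3_16, y_1_3_17, y_1_3_18, y_1_3_19, y_1_3_20, y_1_3_21, y_1_3_22]
noncomputable def y_1_4 : List (List (List Nat)) :=
 [y_1_4_4, y_1_4_5, y_1_4_6, y_1_4_7, y_1_4_8, y_1_4_9, y_1_4_10, y_1_4_11, y_1_4_12, y_1_4_13, y_1_4_14, y_1_4_15, y_1_4_16, y_1_4_17, y_1_4_18, y_1_4_19, y_1_4_20, y_1_4_21, y_1_4_22]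
noncomputable def y_1_5 : List (List (List Nat)) :=
 [y_1_5_5, y_1_5_6, y_1_5_7, y_1_5_8, y_1_5_9, y_1_5_10, y_1_5_11, y_1_5_12, y_1_5_13, y_1_5_14, y_1_5_15, y_1_5_16, y_1_5_17, y_1_5_18, y_1_5_19, y_1_5_20, y_1_5_21, y_1_5_22]
noncomputable def y_1_6 : List (List (List Nat)) :=
 [y_1_6_6, y_1_6_7, y_1_6_8, y_1_6_9, y_1_6_10, y_1_6_11, y_1_6_12, y_1_6_13, y_1_6_14, y_1_6_15, y_1_6_16, y_1_6_17, y_1_6_18, y_1_6_19, y_1_6_20, y_1_6_21, y_1_6_22]
noncomputable def y_1_7 : List (List (List Nat)) :=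
 [y_1_7_7, y_1_7_8, y_1_7_9, y_1_7_10, y_1_7_11, y_1_7_12, y_1_7_13, y_1_7_14, y_1_7_15, y_1_7_16, y_1_7_17, y_1_7_18, y_1_7_19, y_1_7_20, y_1_7_21, y_1_7_22]
noncomputable def y_1_8 : List (List (List Nat)) :=
 [y_1_8_8, y_1_8_9, y_1_8_10, y_1_8_11, y_1_8_12, y_1_8_13, y_1_8_14, y_1_8_15, y_1_8_16, y_1_8_17, y_1_8_18, y_1_8_19, y_1_8_20, y_1_8_21, y_1_8_22]
noncomputable def y_1_9 : List (List (List Nat)) :=
 [y_1_9_9, y_1_9_10, y_1_9_11, y_1_9_12, y_1_9_13, y_1_9_14, y_1_9_15, y_1_9_16, y_1_9_17, y_1_9_18, y_1_9_19, y_1_9_20, y_1_9_21, y_1_9_22]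
noncomputable def y_1_10 : List (List (List Nat)) :=
 [y_1_10_10, y_1_10_11, y_1_10_12, y_1_10_13, y_1_10_14, y_1_10_15, y_1_10_16, y_1_10_17, y_1_10_18, y_1_10_19, y_1_10_20, y_1_10_21, y_1_10_22]
noncomputable def y_1_11 : List (List (List Nat)) :=
 [y_1_11_11, y_1_11_12, y_1_11_13, y_1_11_14, y_1_11_15, y_1_11_16, y_1_11_17, y_1_11_18, y_1_11_19, y_1_11_20, y_1_11_21, y_1_11_22]
noncomputable def y_1_12 : List (List (List Nat)) :=
 [y_1_12_12, y_1_12_13, y_1_12_14, y_1_12_15, y_1_12_16, y_1_12_17, y_1_12_18, y_1_12_19, y_1_12_20, y_1_12_21, y_1_12_22]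
noncomputable def y_1_13 : List (List (List Nat)) :=
 [y_1_13_13, y_1_13_14, y_1_13_15, y_1_13_16, y_1_13_17, y_1_13_18, y_1_13_19, y_1_13_20, y_1_13_21, y_1_13_22]
noncomputable def y_1_14 : List (List (List Nat)) :=
 [y_1_14_14, y_1_14_15, y_1_14_16, y_1_14_17, y_1_14_18, y_1_14_19, y_1_14_20, y_1_14_21, y_1_14_22]
noncomputable def y_1_15 : List (List (List Nat)) :=
 [y_1_15_15, y_1_15_16, y_1_15_17, y_1_15_18, y_1_15_19, y_1_15_20, y_1_15_21, y_1_15_22]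
noncomputable def y_1_16 : List (List (List Nat)) :=
 [y_1_16_16, y_1_16_17, y_1_16_18, y_1_16_19, y_1_16_20, y_1_16_21, y_1_16_22]
noncomputable def y_1_17 : List (List (List Nat)) :=
 [y_1_17_17, y_1_17_18, y_1_17_19, y_1_17_20, y_1_17_21, y_1_17_22]
noncomputable def y_1_18 : List (List (List Nat)) :=
 [y_1_18_18, y_1_18_19, y_1_18_20, y_1_18_21, y_1_18_22]
noncomputable def y_1_19 : List (List (List Nat)) :=
 [y_1_19_19, y_1_19_20, y_1_19_21, y_1_19_22]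
noncomputable def y_1_20 : List (List (List Nat)) :=
 [y_1_20_20, y_1_20_21, y_1_20_22]
noncomputable def y_1_21 : List (List (List Nat)) :=
 [y_1_21_21, y_1_21_22]
noncomputable def y_1_22 : List (List (List Nat)) :=
 [y_1_22_22]
noncomputable def y_1 : List (List (List (List Nat))) :=
 [y_1_1, y_1_2, y_1_3, y_1_4, y_1_5, y_1_6, y_1_7, y_1_8, y_1_9, y_1_10, y_1_11, y_1_12, y_1_13, y_1_14, y_1_15, y_1_16, y_1_17, y_1_18, y_1_19, y_1_20, y_1_21, y_1_22]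
noncomputable def y_2_2 : List (List (List Nat)) :=
 [y_2_2_2, y_2_2_3, y_2_2_4, y_2_2_5, y_2_2_6, y_2_2_7, y_2_2_8, y_2_2_9, y_2_2_10, y_2_2_11, y_2_2_12, y_2_2_13, y_2_2_14, y_2_2_15, y_2_2_16, y_2_2_17, y_2_2_18, y_2_2_19, y_2_2_20, y_2_2_21, y_2_2_22]
noncomputable def y_2_3 : List (List (List Nat)) :=
 [y_2_3_3, y_2_3_4, y_2_3_5, y_2_3_6, y_2_3_7, y_2_3_8, y_2_3_9, y_2_3_10, y_2_3_11, y_2_3_12, y_2_3_13, y_2_3_14, y_2_3_15, y_2_3_16, y_2_3_17, y_2_3_18, y_2_3_19, y_2_3_20, y_2_3_21, y_2_3_22]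
noncomputable def y_2_4 : List (List (List Nat)) :=
 [y_2_4_4, y_2_4_5, y_2_4_6, y_2_4_7, y_2_4_8, y_2_4_9, y_2_4_10, y_2_4_11, y_2_4_12, y_2_4_13, y_2_4_14, y_2_4_15, y_2_4_16, y_2_4_17, y_2_4_18, y_2_4_19, y_2_4_20, y_2_4_21, y_2_4_22]
noncomputable def y_2_5 : List (List (List Nat)) :=
 [y_2_5_5, y_2_5_6, y_2_5_7, y_2_5_8, y_2_5_9, y_2_5_10, y_2_5_11, y_2_5_12, y_2_5_13, y_2_5_14, y_2_5_15, y_2_5_16, y_2_5_17, y_2_5_18, y_2_5_19, y_2_5_20, y_2_5_21, y_2_5_22]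
noncomputable def y_2_6 : List (List (List Nat)) :=
 [y_2_6_6, y_2_6_7, y_2_6_8, y_2_6_9, y_2_6_10, y_2_6_11, y_2_6_12, y_2_6_13, y_2_6_14, y_2_6_15, y_2_6_16, y_2_6_17, y_2_6_18, y_2_6_19, y_2_6_20, y_2_6_21, y_2_6_22]
noncomputable def y_2_7 : List (List (List Nat)) :=
 [y_2_7_7, y_2_7_8, y_2_7_9, y_2_7_10, y_2_7_11, y_2_7_12, y_2_7_13, y_2_7_14, y_2_7_15, y_2_7_16, y_2_7_17, y_2_7_18, y_2_7_19, y_2_7_20, y_2_7_21, y_2_7_22]
noncomputable def y_2_8 : List (List (List Nat)) :=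
 [y_2_8_8, y_2_8_9, y_2_8_10, y_2_8_11, y_2_8_12, y_2_8_13, y_2_8_14, y_2_8_15, y_2_8_16, y_2_8_17, y_2_8_18, y_2_8_19, y_2_8_20, y_2_8_21, y_2_8_22]
noncomputable def y_2_9 : List (List (List Nat)) :=
 [y_2_9_9, y_2_9_10, y_2_9_11, y_2_9_12, y_2_9_13, y_2_9_14, y_2_9_15, y_2_9_16, y_2_9_17, y_2_9_18, y_2_9_19, y_2_9_20, y_2_9_21, y_2_9_22]
noncomputable def y_2_10 : List (List (List Nat)) :=
 [y_2_10_10, y_2_10_11, y_2_10_12, y_2_10_13, y_2_10_14, y_2_10_15, y_2_10_16, y_2_10_17, y_2_10_18, y_2_10_19, y_2_10_20, y_2_10_21, y_2_10_22]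
noncomputable def y_2_11 : List (List (List Nat)) :=
 [y_2_11_11, y_2_11_12, y_2_11_13, y_2_11_14, y_2_11_15, y_2_11_16, y_2_11_17, y_2_11_18, y_2_11_19, y_2_11_20, y_2_11_21, y_2_11_22]
noncomputable def y_2_12 : List (List (List Nat)) :=
 [y_2_12_12, y_2_12_13, y_2_12_14, y_2_12_15, y_2_12_16, y_2_12_17, y_2_12_18, y_2_12_19, y_2_12_20, y_2_12_21, y_2_12_22]
noncomputable def y_2_13 : List (List (List Nat)) :=
 [y_2_13_13, y_2_13_14, y_2_13_15, y_2_13_16, y_2_13_17, y_2_13_18, y_2_13_19, y_2_13_20, y_2_13_21, y_2_13_22]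
noncomputable def y_2_14 : List (List (List Nat)) :=
 [y_2_14_14, y_2_14_15, y_2_14_16, y_2_14_17, y_2_14_18, y_2_14_19, y_2_14_20, y_2_14_21, y_2_14_22]
noncomputable def y_2_15 : List (List (List Nat)) :=
 [y_2_15_15, y_2_15_16, y_2_15_17, y_2_15_18, y_2_15_19, y_2_15_20, y_2_15_21, y_2_15_22]
noncomputable def y_2_16 : List (List (List Nat)) :=
 [y_2_16_16, y_2_16_17, y_2_16_18, y_2_16_19, y_2_16_20, y_2_16_21, y_2_16_22]
noncomputable def y_2_17 : List (List (List Nat)) :=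
 [y_2_17_17, y_2_17_18, y_2_17_19, y_2_17_20, y_2_17_21, y_2_17_22]
noncomputable def y_2_18 : List (List (List Nat)) :=
 [y_2_18_18, y_2_18_19, y_2_18_20, y_2_18_21, y_2_18_22]
noncomputable def y_2_19 : List (List (List Nat)) :=
 [y_2_19_19, y_2_19_20, y_2_19_21, y_2_19_22]
noncomputable def y_2_20 : List (List (List Nat)) :=
 [y_2_20_20, y_2_20_21, y_2_20_22]
noncomputable def y_2_21 : List (List (List Nat)) :=
 [y_2_21_21, y_2_21_22]
noncomputable def y_2_22 : List (List (List Nat)) :=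
 [y_2_22_22]
noncomputable def y_2 : List (List (List (List Nat))) :=
 [y_2_2, y_2_3, y_2_4, y_2_5, y_2_6, y_2_7, y_2_8, y_2_9, y_2_10, y_2_11, y_2_12, y_2_13, y_2_14, y_2_15, y_2_16, y_2_17, y_2_18, y_2_19, y_2_20, y_2_21, y_2_22]
noncomputable def y_3_3 : List (List (List Nat)) :=
 [y_3_3_3, y_3_3_4, y_3_3_5, y_3_3_6, y_3_3_7, y_3_3_8, y_3_3_9, y_3_3_10, y_3_3_11, y_3_3_12, y_3_3_13, y_3_3_14, y_3_3_15, y_3_3_16, y_3_3_17, y_3_3_18, y_3_3_19, y_3_3_20, y_3_3_21, y_3_3_22]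
noncomputable def y_3_4 : List (List (List Nat)) :=
 [y_3_4_4, y_3_4_5, y_3_4_6, y_3_4_7, y_3_4_8, y_3_4_9, y_3_4_10, y_3_4_11, y_3_4_12, y_3_4_13, y_3_4_14, y_3_4_15, y_3_4_16, y_3_4_17, y_3_4_18, y_3_4_19, y_3_4_20, y_3_4_21, y_3_4_22]
noncomputable def y_3_5 : List (List (List Nat)) :=
 [y_3_5_5, y_3_5_6, y_3_5_7, y_3_5_8, y_3_5_9, y_3_5_10, y_3_5_11, y_3_5_12, y_3_5_13, y_3_5_14, y_3_5_15, y_3_5_16, y_3_5_17, y_3_5_18, y_3_5_19, y_3_5_20, y_3_5_21, y_3_5_22]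
noncomputable def y_3_6 : List (List (List Nat)) :=
 [y_3_6_6, y_3_6_7, y_3_6_8, y_3_6_9, y_3_6_10, y_3_6_11, y_3_6_12, y_3_6_13, y_3_6_14, y_3_6_15, y_3_6_16, y_3_6_17, y_3_6_18, y_3_6_19, y_3_6_20, y_3_6_21, y_3_6_22]
noncomputable def y_3_7 : List (List (List Nat)) :=
 [y_3_7_7, y_3_7_8, y_3_7_9, y_3_7_10, y_3_7_11, y_3_7_12, y_3_7_13, y_3_7_14, y_3_7_15, y_3_7_16, y_3_7_17, y_3_7_18, y_3_7_19, y_3_7_20, y_3_7_21, y_3_7_22]
noncomputable def y_3_8 : List (List (List Nat)) :=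
 [y_3_8_8, y_3_8_9, y_3_8_10, y_3_8_11, y_3_8_12, y_3_8_13, y_3_8_14, y_3_8_15, y_3_8_16, y_3_8_17, y_3_8_18, y_3_8_19, y_3_8_20, y_3_8_21, y_3_8_22]
noncomputable def y_3_9 : List (List (List Nat)) :=
 [y_3_9_9, y_3_9_10, y_3_9_11, y_3_9_12, y_3_9_13, y_3_9_14, y_3_9_15, y_3_9_16, y_3_9_17, y_3_9_18, y_3_9_19, y_3_9_20, y_3_9_21, y_3_9_22]
noncomputable def y_3_10 : List (List (List Nat)) :=
 [y_3_10_10, y_3_10_11, y_3_10_12, y_3_10_13, y_3_10_14, y_3_10_15, y_3_10_16, y_3_10_17, y_3_10_18, y_3_10_19, y_3_10_20, y_3_10_21, y_3_10_22]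
noncomputable def y_3_11 : List (List (List Nat)) :=
 [y_3_11_11, y_3_11_12, y_3_11_13, y_3_11_14, y_3_11_15, y_3_11_16, y_3_11_17, y_3_11_18, y_3_11_19, y_3_11_20, y_3_11_21, y_3_11_22]
noncomputable def y_3_12 : List (List (List Nat)) :=
 [y_3_12_12, y_3_12_13, y_3_12_14, y_3_12_15, y_3_12_16, y_3_12_17, y_3_12_18, y_3_12_19, y_3_12_20, y_3_12_21, y_3_12_22]
noncomputable def y_3_13 : List (List (List Nat)) :=
 [y_3_13_13, y_3_13_14, y_3_13_15, y_3_13_16, y_3_13_17, y_3_13_18, y_3_13_19, y_3_13_20, y_3_13_21, y_3_13_22]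
noncomputable def y_3_14 : List (List (List Nat)) :=
 [y_3_14_14, y_3_14_15, y_3_14_16, y_3_14_17, y_3_14_18, y_3_14_19, y_3_14_20, y_3_14_21, y_3_14_22]
noncomputable def y_3_15 : List (List (List Nat)) :=
 [y_3_15_15, y_3_15_16, y_3_15_17, y_3_15_18, y_3_15_19, y_3_15_20, y_3_15_21, y_3_15_22]
noncomputable def y_3_16 : List (List (List Nat)) :=
 [y_3_16_16, y_3_16_17, y_3_16_18, y_3_16_19, y_3_16_20, y_3_16_21, y_3_16_22]
noncomputable def y_3_17 : List (List (List Nat)) :=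
 [y_3_17_17, y_3_17_18, y_3_17_19, y_3_17_20, y_3_17_21, y_3_17_22]
noncomputable def y_3_18 : List (List (List Nat)) :=
 [y_3_18_18, y_3_18_19, y_3_18_20, y_3_18_21, y_3_18_22]
noncomputable def y_3_19 : List (List (List Nat)) :=
 [y_3_19_19, y_3_19_20, y_3_19_21, y_3_19_22]
noncomputable def y_3_20 : List (List (List Nat)) :=
 [y_3_20_20, y_3_20_21, y_3_20_22]
noncomputable def y_3_21 : List (List (List Nat)) :=
 [y_3_21_21, y_3_21_22]
noncomputable def y_3_22 : List (List (List Nat)) :=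
 [y_3_22_22]
noncomputable def y_3 : List (List (List (List Nat))) :=
 [y_3_3, y_3_4, y_3_5, y_3_6, y_3_7, y_3_8, y_3_9, y_3_10, y_3_11, y_3_12, y_3_13, y_3_14, y_3_15, y_3_16, y_3_17, y_3_18, y_3_19, y_3_20, y_3_21, y_3_22]
noncomputable def y_4_4 : List (List (List Nat)) :=
 [y_4_4_4, y_4_4_5, y_4_4_6, y_4_4_7, y_4_4_8, y_4_4_9, y_4_4_10, y_4_4_11, y_4_4_12, y_4_4_13, y_4_4_14, y_4_4_15, y_4_4_16, y_4_4_17, y_4_4_18, y_4_4_19, y_4_4_20, y_4_4_21, y_4_4_22]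
noncomputable def y_4_5 : List (List (List Nat)) :=
 [y_4_5_5, y_4_5_6, y_4_5_7, y_4_5_8, y_4_5_9, y_4_5_10, y_4_5_11, y_4_5_12, y_4_5_13, y_4_5_14, y_4_5_15, y_4_5_16, y_4_5_17, y_4_5_18, y_4_5_19, y_4_5_20, y_4_5_21, y_4_5_22]
noncomputable def y_4_6 : List (List (List Nat)) :=
 [y_4_6_6, y_4_6_7, y_4_6_8, y_4_6_9, y_4_6_10, y_4_6_11, y_4_6_12, y_4_6_13, y_4_6_14, y_4_6_15, y_4_6_16, y_4_6_17, y_4_6_18, y_4_6_19, y_4_6_20, y_4_6_21, y_4_6_22]
noncomputable def y_4_7 : List (List (List Nat)) :=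
 [y_4_7_7, y_4_7_8, y_4_7_9, y_4_7_10, y_4_7_11, y_4_7_12, y_4_7_13, y_4_7_14, y_4_7_15, y_4_7_16, y_4_7_17, y_4_7_18, y_4_7_19, y_4_7_20, y_4_7_21, y_4_7_22]
noncomputable def y_4_8 : List (List (List Nat)) :=
 [y_4_8_8, y_4_8_9, y_4_8_10, y_4_8_11, y_4_8_12, y_4_8_13, y_4_8_14, y_4_8_15, y_4_8_16, y_4_8_17, y_4_8_18, y_4_8_19, y_4_8_20, y_4_8_21, y_4_8_22]
noncomputable def y_4_9 : List (List (List Nat)) :=
 [y_4_9_9, y_4_9_10, y_4_9_11, y_4_9_12, y_4_9_13, y_4_9_14, y_4_9_15, y_4_9_16, y_4_9_17, y_4_9_18, y_4_9_19, y_4_9_20, y_4_9_21, y_4_9_22]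
noncomputable def y_4_10 : List (List (List Nat)) :=
 [y_4_10_10, y_4_10_11, y_4_10_12, y_4_10_13, y_4_10_14, y_4_10_15, y_4_10_16, y_4_10_17, y_4_10_18, y_4_10_19, y_4_10_20, y_4_10_21, y_4_10_22]
noncomputable def y_4_11 : List (List (List Nat)) :=
 [y_4_11_11, y_4_11_12, y_4_11_13, y_4_11_14, y_4_11_15, y_4_11_16, y_4_11_17, y_4_11_18, y_4_11_19, y_4_11_20, y_4_11_21, y_4_11_22]
noncomputable def y_4_12 : List (List (List Nat)) :=
 [y_4_12_12, y_4_12_13, y_4_12_14, y_4_12_15, y_4_12_16, y_4_12_17, y_4_12_18, y_4_12_19, y_4_12_20, y_4_12_21, y_4_12_22]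
noncomputable def y_4_13 : List (List (List Nat)) :=
 [y_4_13_13, y_4_13_14, y_4_13_15, y_4_13_16, y_4_13_17, y_4_13_18, y_4_13_19, y_4_13_20, y_4_13_21, y_4_13_22]
noncomputable def y_4_14 : List (List (List Nat)) :=
 [y_4_14_14, y_4_14_15, y_4_14_16, y_4_14_17, y_4_14_18, y_4_14_19, y_4_14_20, y_4_14_21, y_4_14_22]
noncomputable def y_4_15 : List (List (List Nat)) :=
 [y_4_15_15, y_4_15_16, y_4_15_17, y_4_15_18, y_4_15_19, y_4_15_20, y_4_15_21, y_4_15_22]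
noncomputable def y_4_16 : List (List (List Nat)) :=
 [y_4_16_16, y_4_16_17, y_4_16_18, y_4_16_19, y_4_16_20, y_4_16_21, y_4_16_22]
noncomputable def y_4_17 : List (List (List Nat)) :=
 [y_4_17_17, y_4_17_18, y_4_17_19, y_4_17_20, y_4_17_21, y_4_17_22]
noncomputable def y_4_18 : List (List (List Nat)) :=
 [y_4_18_18, y_4_18_19, y_4_18_20, y_4_18_21, y_4_18_22]
noncomputable def y_4_19 : List (List (List Nat)) :=
 [y_4_19_19, y_4_19_20, y_4_19_21, y_4_19_22]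
noncomputable def y_4_20 : List (List (List Nat)) :=
 [y_4_20_20, y_4_20_21, y_4_20_22]
noncomputable def y_4_21 : List (List (List Nat)) :=
 [y_4_21_21, y_4_21_22]
noncomputable def y_4_22 : List (List (List Nat)) :=
 [y_4_22_22]
noncomputable def y_4 : List (List (List (List Nat))) :=
 [y_4_4, y_4_5, y_4_6, y_4_7, y_4_8, y_4_9, y_4_10, y_4_11, y_4_12, y_4_13, y_4_14, y_4_15, y_4_16, y_4_17, y_4_18, y_4_19, y_4_20, y_4_21, y_4_22]
noncomputable def y_5_5 : List (List (List Nat)) :=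
 [y_5_5_5, y_5_5_6, y_5_5_7, y_5_5_8, y_5_5_9, y_5_5_10, y_5_5_11, y_5_5_12, y_5_5_13, y_5_5_14, y_5_5_15, y_5_5_16, y_5_5_17, y_5_5_18, y_5_5_19, y_5_5_20, y_5_5_21, y_5_5_22]
noncomputable def y_5_6 : List (List (List Nat)) :=
 [y_5_6_6, y_5_6_7, y_5_6_8, y_5_6_9, y_5_6_10, y_5_6_11, y_5_6_12, y_5_6_13, y_5_6_14, y_5_6_15, y_5_6_16, y_5_6_17, y_5_6_18, y_5_6_19, y_5_6_20, y_5_6_21, y_5_6_22]
noncomputable def y_5_7 : List (List (List Nat)) :=
 [y_5_7_7, y_5_7_8, y_5_7_9, y_5_7_10, y_5_7_11, y_5_7_12, y_5_7_13, y_5_7_14, y_5_7_15, y_5_7_16, y_5_7_17, y_5_7_18, y_5_7_19, y_5_7_20, y_5_7_21, y_5_7_22]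
noncomputable def y_5_8 : List (List (List Nat)) :=
 [y_5_8_8, y_5_8_9, y_5_8_10, y_5_8_11, y_5_8_12, y_5_8_13, y_5_8_14, y_5_8_15, y_5_8_16, y_5_8_17, y_5_8_18, y_5_8_19, y_5_8_20, y_5_8_21, y_5_8_22]
noncomputable def y_5_9 : List (List (List Nat)) :=
 [y_5_9_9, y_5_9_10, y_5_9_11, y_5_9_12, y_5_9_13, y_5_9_14, y_5_9_15, y_5_9_16, y_5_9_17, y_5_9_18, y_5_9_19, y_5_9_20, y_5_9_21, y_5_9_22]
noncomputable def y_5_10 : List (List (List Nat)) :=
 [y_5_10_10, y_5_10_11, y_5_10_12, y_5_10_13, y_5_10_14, y_5_10_15, y_5_10_16, y_5_10_17, y_5_10_18, y_5_10_19, y_5_10_20, y_5_10_21, y_5_10_22]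
noncomputable def y_5_11 : List (List (List Nat)) :=
 [y_5_11_11, y_5_11_12, y_5_11_13, y_5_11_14, y_5_11_15, y_5_11_16, y_5_11_17, y_5_11_18, y_5_11_19, y_5_11_20, y_5_11_21, y_5_11_22]
noncomputable def y_5_12 : List (List (List Nat)) :=
 [y_5_12_12, y_5_12_13, y_5_12_14, y_5_12_15, y_5_12_16, y_5_12_17, y_5_12_18, y_5_12_19, y_5_12_20, y_5_12_21, y_5_12_22]
noncomputable def y_5_13 : List (List (List Nat)) :=
 [y_5_13_13, y_5_13_14, y_5_13_15, y_5_13_16, y_5_13_17, y_5_13_18, y_5_13_19, y_5_13_20, y_5_13_21, y_5_13_22]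
noncomputable def y_5_14 : List (List (List Nat)) :=
 [y_5_14_14, y_5_14_15, y_5_14_16, y_5_14_17, y_5_14_18, y_5_14_19, y_5_14_20, y_5_14_21, y_5_14_22]
noncomputable def y_5_15 : List (List (List Nat)) :=
 [y_5_15_15, y_5_15_16, y_5_15_17, y_5_15_18, y_5_15_19, y_5_15_20, y_5_15_21, y_5_15_22]
noncomputable def y_5_16 : List (List (List Nat)) :=
 [y_5_16_16, y_5_16_17, y_5_16_18, y_5_16_19, y_5_16_20, y_5_16_21, y_5_16_22]
noncomputable def y_5_17 : List (List (List Nat)) :=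
 [y_5_17_17, y_5_17_18, y_5_17_19, y_5_17_20, y_5_17_21, y_5_17_22]
noncomputable def y_5_18 : List (List (List Nat)) :=
 [y_5_18_18, y_5_18_19, y_5_18_20, y_5_18_21, y_5_18_22]
noncomputable def y_5_19 : List (List (List Nat)) :=
 [y_5_19_19, y_5_19_20, y_5_19_21, y_5_19_22]
noncomputable def y_5_20 : List (List (List Nat)) :=
 [y_5_20_20, y_5_20_21, y_5_20_22]
noncomputable def y_5_21 : List (List (List Nat)) :=
 [y_5_21_21, y_5_21_22]
noncomputable def y_5_22 : List (List (List Nat)) :=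
 [y_5_22_22]
noncomputable def y_5 : List (List (List (List Nat))) :=
 [y_5_5, y_5_6, y_5_7, y_5_8, y_5_9, y_5_10, y_5_11, y_5_12, y_5_13, y_5_14, y_5_15, y_5_16, y_5_17, y_5_18, y_5_19, y_5_20, y_5_21, y_5_22]
noncomputable def y_6_6 : List (List (List Nat)) :=
 [y_6_6_6, y_6_6_7, y_6_6_8, y_6_6_9, y_6_6_10, y_6_6_11, y_6_6_12, y_6_6_13, y_6_6_14, y_6_6_15, y_6_6_16, y_6_6_17, y_6_6_18, y_6_6_19, y_6_6_20, y_6_6_21, y_6_6_22]
noncomputable def y_6_7 : List (List (List Nat)) :=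
 [y_6_7_7, y_6_7_8, y_6_7_9, y_6_7_10, y_6_7_11, y_6_7_12, y_6_7_13, y_6_7_14, y_6_7_15, y_6_7_16, y_6_7_17, y_6_7_18, y_6_7_19, y_6_7_20, y_6_7_21, y_6_7_22]
noncomputable def y_6_8 : List (List (List Nat)) :=
 [y_6_8_8, y_6_8_9, y_6_8_10, y_6_8_11, y_6_8_12, y_6_8_13, y_6_8_14, y_6_8_15, y_6_8_16, y_6_8_17, y_6_8_18, y_6_8_19, y_6_8_20, y_6_8_21, y_6_8_22]
noncomputable def y_6_9 : List (List (List Nat)) :=
 [y_6_9_9, y_6_9_10, y_6_9_11, y_6_9_12, y_6_9_13, y_6_9_14, y_6_9_15, y_6_9_16, y_6_9_17, y_6_9_18, y_6_9_19, y_6_9_20, y_6_9_21, y_6_9_22]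
noncomputable def y_6_10 : List (List (List Nat)) :=
 [y_6_10_10, y_6_10_11, y_6_10_12, y_6_10_13, y_6_10_14, y_6_10_15, y_6_10_16, y_6_10_17, y_6_10_18, y_6_10_19, y_6_10_20, y_6_10_21, y_6_10_22]
noncomputable def y_6_11 : List (List (List Nat)) :=
 [y_6_11_11, y_6_11_12, y_6_11_13, y_6_11_14, y_6_11_15, y_6_11_16, y_6_11_17, y_6_11_18, y_6_11_19, y_6_11_20, y_6_11_21, y_6_11_22]
noncomputable def y_6_12 : List (List (List Nat)) :=
 [y_6_12_12, y_6_12_13, y_6_12_14, y_6_12_15, y_6_12_16, y_6_12_17, y_6_12_18, y_6_12_19, y_6_12_20, y_6_12_21, y_6_12_22]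
noncomputable def y_6_13 : List (List (List Nat)) :=
 [y_6_13_13, y_6_13_14, y_6_13_15, y_6_13_16, y_6_13_17, y_6_13_18, y_6_13_19, y_6_13_20, y_6_13_21, y_6_13_22]
noncomputable def y_6_14 : List (List (List Nat)) :=
 [y_6_14_14, y_6_14_15, y_6_14_16, y_6_14_17, y_6_14_18, y_6_14_19, y_6_14_20, y_6_14_21, y_6_14_22]
noncomputable def y_6_15 : List (List (List Nat)) :=
 [y_6_15_15, y_6_15_16, y_6_15_17, y_6_15_18, y_6_15_19, y_6_15_20, y_6_15_21, y_6_15_22]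
noncomputable def y_6_16 : List (List (List Nat)) :=
 [y_6_16_16, y_6_16_17, y_6_16_18, y_6_16_19, y_6_16_20, y_6_16_21, y_6_16_22]
noncomputable def y_6_17 : List (List (List Nat)) :=
 [y_6_17_17, y_6_17_18, y_6_17_19, y_6_17_20, y_6_17_21, y_6_17_22]
noncomputable def y_6_18 : List (List (List Nat)) :=
 [y_6_18_18, y_6_18_19, y_6_18_20, y_6_18_21, y_6_18_22]
noncomputable def y_6_19 : List (List (List Nat)) :=
 [y_6_19_19, y_6_19_20, y_6_19_21, y_6_19_22]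
noncomputable def y_6_20 : List (List (List Nat)) :=
 [y_6_20_20, y_6_20_21, y_6_20_22]
noncomputable def y_6_21 : List (List (List Nat)) :=
 [y_6_21_21, y_6_21_22]
noncomputable def y_6_22 : List (List (List Nat)) :=
 [y_6_22_22]
noncomputable def y_6 : List (List (List (List Nat))) :=
 [y_6_6, y_6_7, y_6_8, y_6_9, y_6_10, y_6_11, y_6_12, y_6_13, y_6_14, y_6_15, y_6_16, y_6_17, y_6_18, y_6_19, y_6_20, y_6_21, y_6_22]
noncomputable def y_7_7 : List (List (List Nat)) :=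
 [y_7_7_7, y_7_7_8, y_7_7_9, y_7_7_10, y_7_7_11, y_7_7_12, y_7_7_13, y_7_7_14, y_7_7_15, y_7_7_16, y_7_7_17, y_7_7_18, y_7_7_19, y_7_7_20, y_7_7_21, y_7_7_22]
noncomputable def y_7_8 : List (List (List Nat)) :=
 [y_7_8_8, y_7_8_9, y_7_8_10, y_7_8_11, y_7_8_12, y_7_8_13, y_7_8_14, y_7_8_15, y_7_8_16, y_7_8_17, y_7_8_18, y_7_8_19, y_7_8_20, y_7_8_21, y_7_8_22]
noncomputable def y_7_9 : List (List (List Nat)) :=
 [y_7_9_9, y_7_9_10, y_7_9_11, y_7_9_12, y_7_9_13, y_7_9_14, y_7_9_15, y_7_9_16, y_7_9_17, y_7_9_18, y_7_9_19, y_7_9_20, y_7_9_21, y_7_9_22]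
noncomputable def y_7_10 : List (List (List Nat)) :=
 [y_7_10_10, y_7_10_11, y_7_10_12, y_7_10_13, y_7_10_14, y_7_10_15, y_7_10_16, y_7_10_17, y_7_10_18, y_7_10_19, y_7_10_20, y_7_10_21, y_7_10_22]
noncomputable def y_7_11 : List (List (List Nat)) :=
 [y_7_11_11, y_7_11_12, y_7_11_13, y_7_11_14, y_7_11_15, y_7_11_16, y_7_11_17, y_7_11_18, y_7_11_19, y_7_11_20, y_7_11_21, y_7_11_22]
noncomputable def y_7_12 : List (List (List Nat)) :=
 [y_7_12_12, y_7_12_13, y_7_12_14, y_7_12_15, y_7_12_16, y_7_12_17, y_7_12_18, y_7_12_19, y_7_12_20, y_7_12_21, y_7_12_22]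
noncomputable def y_7_13 : List (List (List Nat)) :=
 [y_7_13_13, y_7_13_14, y_7_13_15, y_7_13_16, y_7_13_17, y_7_13_18, y_7_13_19, y_7_13_20, y_7_13_21, y_7_13_22]
noncomputable def y_7_14 : List (List (List Nat)) :=
 [y_7_14_14, y_7_14_15, y_7_14_16, y_7_14_17, y_7_14_18, y_7_14_19, y_7_14_20, y_7_14_21, y_7_14_22]
noncomputable def y_7_15 : List (List (List Nat)) :=
 [y_7_15_15, y_7_15_16, y_7_15_17, y_7_15_18, y_7_15_19, y_7_15_20, y_7_15_21, y_7_15_22]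
noncomputable def y_7_16 : List (List (List Nat)) :=
 [y_7_16_16, y_7_16_17, y_7_16_18, y_7_16_19, y_7_16_20, y_7_16_21, y_7_16_22]
noncomputable def y_7_17 : List (List (List Nat)) :=
 [y_7_17_17, y_7_17_18, y_7_17_19, y_7_17_20, y_7_17_21, y_7_17_22]
noncomputable def y_7_18 : List (List (List Nat)) :=
 [y_7_18_18, y_7_18_19, y_7_18_20, y_7_18_21, y_7_18_22]
noncomputable def y_7_19 : List (List (List Nat)) :=
 [y_7_19_19, y_7_19_20, y_7_19_21, y_7_19_22]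
noncomputable def y_7_20 : List (List (List Nat)) :=
 [y_7_20_20, y_7_20_21, y_7_20_22]
noncomputable def y_7_21 : List (List (List Nat)) :=
 [y_7_21_21, y_7_21_22]
noncomputable def y_7_22 : List (List (List Nat)) :=
 [y_7_22_22]
noncomputable def y_7 : List (List (List (List Nat))) :=
 [y_7_7, y_7_8, y_7_9, y_7_10, y_7_11, y_7_12, y_7_13, y_7_14, y_7_15, y_7_16, y_7_17, y_7_18, y_7_19, y_7_20, y_7_21, y_7_22]
noncomputable def y_8_8 : List (List (List Nat)) :=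
 [y_8_8_8, y_8_8_9, y_8_8_10, y_8_8_11, y_8_8_12, y_8_8_13, y_8_8_14, y_8_8_15, y_8_8_16, y_8_8_17, y_8_8_18, y_8_8_19, y_8_8_20, y_8_8_21, y_8_8_22]
noncomputable def y_8_9 : List (List (List Nat)) :=
 [y_8_9_9, y_8_9_10, y_8_9_11, y_8_9_12, y_8_9_13, y_8_9_14, y_8_9_15, y_8_9_16, y_8_9_17, y_8_9_18, y_8_9_19, y_8_9_20, y_8_9_21, y_8_9_22]
noncomputable def y_8_10 : List (List (List Nat)) :=
 [y_8_10_10, y_8_10_11, y_8_10_12, y_8_10_13, y_8_10_14, y_8_10_15, y_8_10_16, y_8_10_17, y_8_10_18, y_8_10_19, y_8_10_20, y_8_10_21, y_8_10_22]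
noncomputable def y_8_11 : List (List (List Nat)) :=
 [y_8_11_11, y_8_11_12, y_8_11_13, y_8_11_14, y_8_11_15, y_8_11_16, y_8_11_17, y_8_11_18, y_8_11_19, y_8_11_20, y_8_11_21, y_8_11_22]
noncomputable def y_8_12 : List (List (List Nat)) :=
 [y_8_12_12, y_8_12_13, y_8_12_14, y_8_12_15, y_8_12_16, y_8_12_17, y_8_12_18, y_8_12_19, y_8_12_20, y_8_12_21, y_8_12_22]
noncomputable def y_8_13 : List (List (List Nat)) :=
 [y_8_13_13, y_8_13_14, y_8_13_15, y_8_13_16, y_8_13_17, y_8_13_18, y_8_13_19, y_8_13_20, y_8_13_21, y_8_13_22]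
noncomputable def y_8_14 : List (List (List Nat)) :=
 [y_8_14_14, y_8_14_15, y_8_14_16, y_8_14_17, y_8_14_18, y_8_14_19, y_8_14_20, y_8_14_21, y_8_14_22]
noncomputable def y_8_15 : List (List (List Nat)) :=
 [y_8_15_15, y_8_15_16, y_8_15_17, y_8_15_18, y_8_15_19, y_8_15_20, y_8_15_21, y_8_15_22]
noncomputable def y_8_16 : List (List (List Nat)) :=
 [y_8_16_16, y_8_16_17, y_8_16_18, y_8_16_19, y_8_16_20, y_8_16_21, y_8_16_22]
noncomputable def y_8_17 : List (List (List Nat)) :=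
 [y_8_17_17, y_8_17_18, y_8_17_19, y_8_17_20, y_8_17_21, y_8_17_22]
noncomputable def y_8_18 : List (List (List Nat)) :=
 [y_8_18_18, y_8_18_19, y_8_18_20, y_8_18_21, y_8_18_22]
noncomputable def y_8_19 : List (List (List Nat)) :=
 [y_8_19_19, y_8_19_20, y_8_19_21, y_8_19_22]
noncomputable def y_8_20 : List (List (List Nat)) :=
 [y_8_20_20, y_8_20_21, y_8_20_22]
noncomputable def y_8_21 : List (List (List Nat)) :=
 [y_8_21_21, y_8_21_22]
noncomputable def y_8_22 : List (List (List Nat)) :=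
 [y_8_22_22]
noncomputable def y_8 : List (List (List (List Nat))) :=
 [y_8_8, y_8_9, y_8_10, y_8_11, y_8_12, y_8_13, y_8_14, y_8_15, y_8_16, y_8_17, y_8_18, y_8_19, y_8_20, y_8_21, y_8_22]
noncomputable def y_9_9 : List (List (List Nat)) :=
 [y_9_9_9, y_9_9_10, y_9_9_11, y_9_9_12, y_9_9_13, y_9_9_14, y_9_9_15, y_9_9_16, y_9_9_17, y_9_9_18, y_9_9_19, y_9_9_20, y_9_9_21, y_9_9_22]
noncomputable def y_9_10 : List (List (List Nat)) :=
 [y_9_10_10, y_9_10_11, y_9_10_12, y_9_10_13, y_9_10_14, y_9_10_15, y_9_10_16, y_9_10_17, y_9_10_18, y_9_10_19, y_9_10_20, y_9_10_21, y_9_10_22]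
noncomputable def y_9_11 : List (List (List Nat)) :=
 [y_9_11_11, y_9_11_12, y_9_11_13, y_9_11_14, y_9_11_15, y_9_11_16, y_9_11_17, y_9_11_18, y_9_11_19, y_9_11_20, y_9_11_21, y_9_11_22]
noncomputable def y_9_12 : List (List (List Nat)) :=
 [y_9_12_12, y_9_12_13, y_9_12_14, y_9_12_15, y_9_12_16, y_9_12_17, y_9_12_18, y_9_12_19, y_9_12_20, y_9_12_21, y_9_12_22]
noncomputable def y_9_13 : List (List (List Nat)) :=
 [y_9_13_13, y_9_13_14, y_9_13_15, y_9_13_16, y_9_13_17, y_9_13_18, y_9_13_19, y_9_13_20, y_9_13_21, y_9_13_22]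
noncomputable def y_9_14 : List (List (List Nat)) :=
 [y_9_14_14, y_9_14_15, y_9_14_16, y_9_14_17, y_9_14_18, y_9_14_19, y_9_14_20, y_9_14_21, y_9_14_22]
noncomputable def y_9_15 : List (List (List Nat)) :=
 [y_9_15_15, y_9_15_16, y_9_15_17, y_9_15_18, y_9_15_19, y_9_15_20, y_9_15_21, y_9_15_22]
noncomputable def y_9_16 : List (List (List Nat)) :=
 [y_9_16_16, y_9_16_17, y_9_16_18, y_9_16_19, y_9_16_20, y_9_16_21, y_9_16_22]
noncomputable def y_9_17 : List (List (List Nat)) :=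
 [y_9_17_17, y_9_17_18, y_9_17_19, y_9_17_20, y_9_17_21, y_9_17_22]
noncomputable def y_9_18 : List (List (List Nat)) :=
 [y_9_18_18, y_9_18_19, y_9_18_20, y_9_18_21, y_9_18_22]
noncomputable def y_9_19 : List (List (List Nat)) :=
 [y_9_19_19, y_9_19_20, y_9_19_21, y_9_19_22]
noncomputable def y_9_20 : List (List (List Nat)) :=
 [y_9_20_20, y_9_20_21, y_9_20_22]
noncomputable def y_9_21 : List (List (List Nat)) :=
 [y_9_21_21, y_9_21_22]
noncomputable def y_9_22 : List (List (List Nat)) :=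
 [y_9_22_22]
noncomputable def y_9 : List (List (List (List Nat))) :=
 [y_9_9, y_9_10, y_9_11, y_9_12, y_9_13, y_9_14, y_9_15, y_9_16, y_9_17, y_9_18, y_9_19, y_9_20, y_9_21, y_9_22]
noncomputable def y_10_10 : List (List (List Nat)) :=
 [y_10_10_10, y_10_10_11, y_10_10_12, y_10_10_13, y_10_10_14, y_10_10_15, y_10_10_16, y_10_10_17, y_10_10_18, y_10_10_19, y_10_10_20, y_10_10_21, y_10_10_22]
noncomputable def y_10_11 : List (List (List Nat)) :=
 [y_10_11_11, y_10_11_12, y_10_11_13, y_10_11_14, y_10_11_15, y_10_11_16, y_10_11_17, y_10_11_18, y_10_11_19, y_10_11_20, y_10_11_21, y_10_11_22]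
noncomputable def y_10_12 : List (List (List Nat)) :=
 [y_10_12_12, y_10_12_13, y_10_12_14, y_10_12_15, y_10_12_16, y_10_12_17, y_10_12_18, y_10_12_19, y_10_12_20, y_10_12_21, y_10_12_22]
noncomputable def y_10_13 : List (List (List Nat)) :=
 [y_10_13_13, y_10_13_14, y_10_13_15, y_10_13_16, y_10_13_17, y_10_13_18, y_10_13_19, y_10_13_20, y_10_13_21, y_10_13_22]
noncomputable def y_10_14 : List (List (List Nat)) :=
 [y_10_14_14, y_10_14_15, y_10_14_16, y_10_14_17, y_10_14_18, y_10_14_19, y_10_14_20, y_10_14_21, y_10_14_22]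
noncomputable def y_10_15 : List (List (List Nat)) :=
 [y_10_15_15, y_10_15_16, y_10_15_17, y_10_15_18, y_10_15_19, y_10_15_20, y_10_15_21, y_10_15_22]
noncomputable def y_10_16 : List (List (List Nat)) :=
 [y_10_16_16, y_10_16_17, y_10_16_18, y_10_16_19, y_10_16_20, y_10_16_21, y_10_16_22]
noncomputable def y_10_17 : List (List (List Nat)) :=
 [y_10_17_17, y_10_17_18, y_10_17_19, y_10_17_20, y_10_17_21, y_10_17_22]
noncomputable def y_10_18 : List (List (List Nat)) :=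
 [y_10_18_18, y_10_18_19, y_10_18_20, y_10_18_21, y_10_18_22]
noncomputable def y_10_19 : List (List (List Nat)) :=
 [y_10_19_19, y_10_19_20, y_10_19_21, y_10_19_22]
noncomputable def y_10_20 : List (List (List Nat)) :=
 [y_10_20_20, y_10_20_21, y_10_20_22]
noncomputable def y_10_21 : List (List (List Nat)) :=
 [y_10_21_21, y_10_21_22]
noncomputable def y_10_22 : List (List (List Nat)) :=
 [y_10_22_22]
noncomputable def y_10 : List (List (List (List Nat))) :=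
 [y_10_10, y_10_11, y_10_12, y_10_13, y_10_14, y_10_15, y_10_16, y_10_17, y_10_18, y_10_19, y_10_20, y_10_21, y_10_22]
noncomputable def y_11_11 : List (List (List Nat)) :=
 [y_11_11_11, y_11_11_12, y_11_11_13, y_11_11_14, y_11_11_15, y_11_11_16, y_11_11_17, y_11_11_18, y_11_11_19, y_11_11_20, y_11_11_21, y_11_11_22]
noncomputable def y_11_12 : List (List (List Nat)) :=
 [y_11_12_12, y_11_12_13, y_11_12_14, y_11_12_15, y_11_12_16, y_11_12_17, y_11_12_18, y_11_12_19, y_11_12_20, y_11_12_21, y_11_12_22]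
noncomputable def y_11_13 : List (List (List Nat)) :=
 [y_11_13_13, y_11_13_14, y_11_13_15, y_11_13_16, y_11_13_17, y_11_13_18, y_11_13_19, y_11_13_20, y_11_13_21, y_11_13_22]
noncomputable def y_11_14 : List (List (List Nat)) :=
 [y_11_14_14, y_11_14_15, y_11_14_16, y_11_14_17, y_11_14_18, y_11_14_19, y_11_14_20, y_11_14_21, y_11_14_22]
noncomputable def y_11_15 : List (List (List Nat)) :=
 [y_11_15_15, y_11_15_16, y_11_15_17, y_11_15_18, y_11_15_19, y_11_15_20, y_11_15_21, y_11_15_22]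
noncomputable def y_11_16 : List (List (List Nat)) :=
 [y_11_16_16, y_11_16_17, y_11_16_18, y_11_16_19, y_11_16_20, y_11_16_21, y_11_16_22]
noncomputable def y_11_17 : List (List (List Nat)) :=
 [y_11_17_17, y_11_17_18, y_11_17_19, y_11_17_20, y_11_17_21, y_11_17_22]
noncomputable def y_11_18 : List (List (List Nat)) :=
 [y_11_18_18, y_11_18_19, y_11_18_20, y_11_18_21, y_11_18_22]
noncomputable def y_11_19 : List (List (List Nat)) :=
 [y_11_19_19, y_11_19_20, y_11_19_21, y_11_19_22]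
noncomputable def y_11_20 : List (List (List Nat)) :=
 [y_11_20_20, y_11_20_21, y_11_20_22]
noncomputable def y_11_21 : List (List (List Nat)) :=
 [y_11_21_21, y_11_21_22]
noncomputable def y_11_22 : List (List (List Nat)) :=
 [y_11_22_22]
noncomputable def y_11 : List (List (List (List Nat))) :=
 [y_11_11, y_11_12, y_11_13, y_11_14, y_11_15, y_11_16, y_11_17, y_11_18, y_11_19, y_11_20, y_11_21, y_11_22]
noncomputable def y_12_12 : List (List (List Nat)) :=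
 [y_12_12_12, y_12_12_13, y_12_12_14, y_12_12_15, y_12_12_16, y_12_12_17, y_12_12_18, y_12_12_19, y_12_12_20, y_12_12_21, y_12_12_22]
noncomputable def y_12_13 : List (List (List Nat)) :=
 [y_12_13_13, y_12_13_14, y_12_13_15, y_12_13_16, y_12_13_17, y_12_13_18, y_12_13_19, y_12_13_20, y_12_13_21, y_12_13_22]
noncomputable def y_12_14 : List (List (List Nat)) :=
 [y_12_14_14, y_12_14_15, y_12_14_16, y_12_14_17, y_12_14_18, y_12_14_19, y_12_14_20, y_12_14_21, y_12_14_22]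
noncomputable def y_12_15 : List (List (List Nat)) :=
 [y_12_15_15, y_12_15_16, y_12_15_17, y_12_15_18, y_12_15_19, y_12_15_20, y_12_15_21, y_12_15_22]
noncomputable def y_12_16 : List (List (List Nat)) :=
 [y_12_16_16, y_12_16_17, y_12_16_18, y_12_16_19, y_12_16_20, y_12_16_21, y_12_16_22]
noncomputable def y_12_17 : List (List (List Nat)) :=
 [y_12_17_17, y_12_17_18, y_12_17_19, y_12_17_20, y_12_17_21, y_12_17_22]
noncomputable def y_12_18 : List (List (List Nat)) :=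
 [y_12_18_18, y_12_18_19, y_12_18_20, y_12_18_21, y_12_18_22]
noncomputable def y_12_19 : List (List (List Nat)) :=
 [y_12_19_19, y_12_19_20, y_12_19_21, y_12_19_22]
noncomputable def y_12_20 : List (List (List Nat)) :=
 [y_12_20_20, y_12_20_21, y_12_20_22]
noncomputable def y_12_21 : List (List (List Nat)) :=
 [y_12_21_21, y_12_21_22]
noncomputable def y_12_22 : List (List (List Nat)) :=
 [y_12_22_22]
noncomputable def y_12 : List (List (List (List Nat))) :=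
 [y_12_12, y_12_13, y_12_14, y_12_15, y_12_16, y_12_17, y_12_18, y_12_19, y_12_20, y_12_21, y_12_22]
noncomputable def y_13_13 : List (List (List Nat)) :=
 [y_13_13_13, y_13_13_14, y_13_13_15, y_13_13_16, y_13_13_17, y_13_13_18, y_13_13_19, y_13_13_20, y_13_13_21, y_13_13_22]
noncomputable def y_13_14 : List (List (List Nat)) :=
 [y_13_14_14, y_13_14_15, y_13_14_16, y_13_14_17, y_13_14_18, y_13_14_19, y_13_14_20, y_13_14_21, y_13_14_22]
noncomputable def y_13_15 : List (List (List Nat)) :=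
 [y_13_15_15, y_13_15_16, y_13_15_17, y_13_15_18, y_13_15_19, y_13_15_20, y_13_15_21, y_13_15_22]
noncomputable def y_13_16 : List (List (List Nat)) :=
 [y_13_16_16, y_13_16_17, y_13_16_18, y_13_16_19, y_13_16_20, y_13_16_21, y_13_16_22]
noncomputable def y_13_17 : List (List (List Nat)) :=
 [y_13_17_17, y_13_17_18, y_13_17_19, y_13_17_20, y_13_17_21, y_13_17_22]
noncomputable def y_13_18 : List (List (List Nat)) :=
 [y_13_18_18, y_13_18_19, y_13_18_20, y_13_18_21, y_13_18_22]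
noncomputable def y_13_19 : List (List (List Nat)) :=
 [y_13_19_19, y_13_19_20, y_13_19_21, y_13_19_22]
noncomputable def y_13_20 : List (List (List Nat)) :=
 [y_13_20_20, y_13_20_21, y_13_20_22]
noncomputable def y_13_21 : List (List (List Nat)) :=
 [y_13_21_21, y_13_21_22]
noncomputable def y_13_22 : List (List (List Nat)) :=
 [y_13_22_22]
noncomputable def y_13 : List (List (List (List Nat))) :=
 [y_13_13, y_13_14, y_13_15, y_13_16, y_13_17, y_13_18, y_13_19, y_13_20, y_13_21, y_13_22]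
noncomputable def y_14_14 : List (List (List Nat)) :=
 [y_14_14_14, y_14_14_15, y_14_14_16, y_14_14_17, y_14_14_18, y_14_14_19, y_14_14_20, y_14_14_21, y_14_14_22]
noncomputable def y_14_15 : List (List (List Nat)) :=
 [y_14_15_15, y_14_15_16, y_14_15_17, y_14_15_18, y_14_15_19, y_14_15_20, y_14_15_21, y_14_15_22]
noncomputable def y_14_16 : List (List (List Nat)) :=
 [y_14_16_16, y_14_16_17, y_14_16_18, y_14_16_19, y_14_16_20, y_14_16_21, y_14_16_22]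
noncomputable def y_14_17 : List (List (List Nat)) :=
 [y_14_17_17, y_14_17_18, y_14_17_19, y_14_17_20, y_14_17_21, y_14_17_22]
noncomputable def y_14_18 : List (List (List Nat)) :=
 [y_14_18_18, y_14_18_19, y_14_18_20, y_14_18_21, y_14_18_22]
noncomputable def y_14_19 : List (List (List Nat)) :=
 [y_14_19_19, y_14_19_20, y_14_19_21, y_14_19_22]
noncomputable def y_14_20 : List (List (List Nat)) :=
 [y_14_20_20, y_14_20_21, y_14_20_22]
noncomputable def y_14_21 : List (List (List Nat)) :=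
 [y_14_21_21, y_14_21_22]
noncomputable def y_14_22 : List (List (List Nat)) :=
 [y_14_22_22]
noncomputable def y_14 : List (List (List (List Nat))) :=
 [y_14_14, y_14_15, y_14_16, y_14_17, y_14_18, y_14_19, y_14_20, y_14_21, y_14_22]
noncomputable def y_15_15 : List (List (List Nat)) :=
 [y_15_15_15, y_15_15_16, y_15_15_17, y_15_15_18, y_15_15_19, y_15_15_20, y_15_15_21, y_15_15_22]
noncomputable def y_15_16 : List (List (List Nat)) :=
 [y_15_16_16, y_15_16_17, y_15_16_18, y_15_16_19, y_15_16_20, y_15_16_21, y_15_16_22]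
noncomputable def y_15_17 : List (List (List Nat)) :=
 [y_15_17_17, y_15_17_18, y_15_17_19, y_15_17_20, y_15_17_21, y_15_17_22]
noncomputable def y_15_18 : List (List (List Nat)) :=
 [y_15_18_18, y_15_18_19, y_15_18_20, y_15_18_21, y_15_18_22]
noncomputable def y_15_19 : List (List (List Nat)) :=
 [y_15_19_19, y_15_19_20, y_15_19_21, y_15_19_22]
noncomputable def y_15_20 : List (List (List Nat)) :=
 [y_15_20_20, y_15_20_21, y_15_20_22]
noncomputable def y_15_21 : List (List (List Nat)) :=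
 [y_15_21_21, y_15_21_22]
noncomputable def y_15_22 : List (List (List Nat)) :=
 [y_15_22_22]
noncomputable def y_15 : List (List (List (List Nat))) :=
 [y_15_15, y_15_16, y_15_17, y_15_18, y_15_19, y_15_20, y_15_21, y_15_22]
noncomputable def y_16_16 : List (List (List Nat)) :=
 [y_16_16_16, y_16_16_17, y_16_16_18, y_16_16_19, y_16_16_20, y_16_16_21, y_16_16_22]
noncomputable def y_16_17 : List (List (List Nat)) :=
 [y_16_17_17, y_16_17_18, y_16_17_19, y_16_17_20, y_16_17_21, y_16_17_22]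
noncomputable def y_16_18 : List (List (List Nat)) :=
 [y_16_18_18, y_16_18_19, y_16_18_20, y_16_18_21, y_16_18_22]
noncomputable def y_16_19 : List (List (List Nat)) :=
 [y_16_19_19, y_16_19_20, y_16_19_21, y_16_19_22]
noncomputable def y_16_20 : List (List (List Nat)) :=
 [y_16_20_20, y_16_20_21, y_16_20_22]
noncomputable def y_16_21 : List (List (List Nat)) :=
 [y_16_21_21, y_16_21_22]
noncomputable def y_16_22 : List (List (List Nat)) :=
 [y_16_22_22]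
noncomputable def y_16 : List (List (List (List Nat))) :=
 [y_16_16, y_16_17, y_16_18, y_16_19, y_16_20, y_16_21, y_16_22]
noncomputable def y_17_17 : List (List (List Nat)) :=
 [y_17_17_17, y_17_17_18, y_17_17_19, y_17_17_20, y_17_17_21, y_17_17_22]
noncomputable def y_17_18 : List (List (List Nat)) :=
 [y_17_18_18, y_17_18_19, y_17_18_20, y_17_18_21, y_17_18_22]
noncomputable def y_17_19 : List (List (List Nat)) :=
 [y_17_19_19, y_17_19_20, y_17_19_21, y_17_19_22]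
noncomputable def y_17_20 : List (List (List Nat)) :=
 [y_17_20_20, y_17_20_21, y_17_20_22]
noncomputable def y_17_21 : List (List (List Nat)) :=
 [y_17_21_21, y_17_21_22]
noncomputable def y_17_22 : List (List (List Nat)) :=
 [y_17_22_22]
noncomputable def y_17 : List (List (List (List Nat))) :=
 [y_17_17, y_17_18, y_17_19, y_17_20, y_17_21, y_17_22]
noncomputable def y_18_18 : List (List (List Nat)) :=
 [y_18_18_18, y_18_18_19, y_18_18_20, y_18_18_21, y_18_18_22]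
noncomputable def y_18_19 : List (List (List Nat)) :=
 [y_18_19_19, y_18_19_20, y_18_19_21, y_18_19_22]
noncomputable def y_18_20 : List (List (List Nat)) :=
 [y_18_20_20, y_18_20_21, y_18_20_22]
noncomputable def y_18_21 : List (List (List Nat)) :=
 [y_18_21_21, y_18_21_22]
noncomputable def y_18_22 : List (List (List Nat)) :=
 [y_18_22_22]
noncomputable def y_18 : List (List (List (List Nat))) :=
 [y_18_18, y_18_19, y_18_20, y_18_21, y_18_22]
noncomputable def y_19_19 : List (List (List Nat)) :=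
 [y_19_19_19, y_19_19_20, y_19_19_21, y_19_19_22]
noncomputable def y_19_20 : List (List (List Nat)) :=
 [y_19_20_20, y_19_20_21, y_19_20_22]
noncomputable def y_19_21 : List (List (List Nat)) :=
 [y_19_21_21, y_19_21_22]
noncomputable def y_19_22 : List (List (List Nat)) :=
 [y_19_22_22]
noncomputable def y_19 : List (List (List (List Nat))) :=
 [y_19_19, y_19_20, y_19_21, y_19_22]
noncomputable def y_20_20 : List (List (List Nat)) :=
 [y_20_20_20, y_20_20_21, y_20_20_22]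
noncomputable def y_20_21 : List (List (List Nat)) :=
 [y_20_21_21, y_20_21_22]
noncomputable def y_20_22 : List (List (List Nat)) :=
 [y_20_22_22]
noncomputable def y_20 : List (List (List (List Nat))) :=
 [y_20_20, y_20_21, y_20_22]
noncomputable def y_21_21 : List (List (List Nat)) :=
 [y_21_21_21, y_21_21_22]
noncomputable def y_21_22 : List (List (List Nat)) :=
 [y_21_22_22]
noncomputable def y_21 : List (List (List (List Nat))) :=
 [y_21_21, y_21_22]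
noncomputable def y_22_22 : List (List (List Nat)) :=
 [y_22_22_22]
noncomputable def y_22 : List (List (List (List Nat))) :=
 [y_22_22]
noncomputable def ya : List (List (List (List (List Nat)))) :=
 [y_0, y_1, y_2, y_3, y_4, y_5, y_6, y_7, y_8, y_9, y_10, y_11, y_12, y_13, y_14, y_15, y_16, y_17, y_18, y_19, y_20, y_21, y_22]
/-- the record of a box -/
noncomputable def yr (i j k : Nat) : List (List Nat) :=
  nth [] (nth [] (nth [] ya i) (Nat.sub j i)) (Nat.sub k j)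

end Pool.Agent.MP_48470b_gt.Dat
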